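import Pool.Agent.Helper22.FL.Grow

/-!
The final estimate.
-/

namespace Pool.Agent.Helper22.FL

open Pool.Agent.Helper21.Toric Pool.Agent.Helper22.BU Finset

variable {n m : ℕ}

lemma s_le_lam (n : ℕ) : 1 - ((1 : ℝ) / 2) ^ n ≤ lam n := by
  unfold lam
  have hq0 : (0 : ℝ) < (1 / 2) ^ n := by positivity
  have h1 : (1 / 2 : ℝ) ^ n / (n + 1) ≤ (1 / 2) ^ n := by
    apply div_le_self hq0.le
    have : (0 : ℝ) ≤ n := Nat.cast_nonneg _
    linarith
  linarith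

/-- simpler form of the bound -/
theorem total' (hn : 3 ≤ n) {ε : ℝ} (hε2 : ε ≤ 1 / 2) {w : ℕ} (hw : 1 ≤ w) (X : Fan n m)
    (hm : n + 4 ≤ m) (hε : er n m ≤ ε) : probRigid (w + (w + w)) m X.faces ≤
      (w : ℝ) ^ 3 * (16 * lam n ^ w + 27 * ε ^ 2) := by
  have h := total hn hε2 w X hm hε
  refine h.trans ?_
  have hq1 : ((1 : ℝ) / 2) ^ n ≤ 1 := pow_le_one₀ (by norm_num) (by norm_num)
  have hs0 : 0 ≤ 1 - ((1 : ℝ) / 2) ^ n := by linarith
  have hε0 : 0 ≤ ε := (er_nonneg n m).trans hε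
  have hw1 : (1 : ℝ) ≤ w := by exact_mod_cast hw
  have hl := lam_nonneg n
  have h1 : (1 - ((1 : ℝ) / 2) ^ n) ^ w ≤ lam n ^ w := pow_le_pow_left₀ hs0 (s_le_lam n) _
  have hlw : 0 ≤ lam n ^ w := pow_nonneg hl _
  set l := lam n ^ w with hldef
  set s := (1 - ((1 : ℝ) / 2) ^ n) ^ w with hsdef
  have hs : 0 ≤ s := pow_nonneg hs0 _
  have hw2 : (w : ℝ) ≤ w ^ 3 := by nlinarith [sq_nonneg ((w : ℝ) - 1), mul_nonneg (show (0:ℝ) ≤ w by linarith) (show (0:ℝ) ≤ w - 1 by linarith)]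
  have hw3 : (w : ℝ) ^ 2 ≤ w ^ 3 := by nlinarith [sq_nonneg (w : ℝ)]
  have e1 : 2 * (((w : ℝ) + 1) * l) ≤ 4 * w ^ 3 * l := by
    have : 2 * ((w : ℝ) + 1) ≤ 4 * w ^ 3 := by linarith
    nlinarith
  have e2 : 2 * ((w : ℝ) * (3 * w * ε * ((1 + 3 * w) * s + 3 * w * ε))) ≤
      12 * w ^ 3 * l + 18 * w ^ 3 * ε ^ 2 := by
    have h2 : (w : ℝ) ^ 2 * (1 + 3 * w) * (ε * s) ≤ w ^ 2 * (1 + 3 * w) * (1 / 2 * l) := by
      apply mul_le_mul_of_nonneg_left _ (by positivity)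
      exact mul_le_mul hε2 h1 hs (by norm_num)
    have h3 : (w : ℝ) ^ 2 * (1 + 3 * w) ≤ 4 * w ^ 3 := by nlinarith
    have h4 : (w : ℝ) ^ 2 * (1 + 3 * w) * (1 / 2 * l) ≤ 4 * w ^ 3 * (1 / 2 * l) :=
      mul_le_mul_of_nonneg_right h3 (by positivity)
    nlinarith
  nlinarith

/-- After `N` random blow-ups the complex is rigid with probability `O ((log N) ^ 3 / N ^ 2)`. -/
theorem prob_bound (hn : 3 ≤ n) : ∃ C : ℝ, 0 ≤ C ∧ ∀ (m : ℕ) (X : Fan n m) (N : ℕ), 2 ≤ N →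
    probRigid N m X.faces ≤ C * Real.log N ^ 3 / N ^ 2 := by
  set δ : ℝ := (1 / 2) ^ n / (n + 1) with hδ
  have hn0 : (0 : ℝ) ≤ n := Nat.cast_nonneg _
  have hδ0 : 0 < δ := by positivity
  set K : ℝ := 2 / δ + 2 with hK
  have hK0 : 0 < K := by positivity
  set M : ℝ := 2 ^ (n + 4) * n with hM
  have hM0 : 0 ≤ M := by positivity
  set N1 : ℕ := 2 ^ (n + 5) * n + 2 * (n + 4) with hN1
  refine ⟨K ^ 3 * (16 + 27 * M ^ 2) + 72 * K ^ 2 + 8 * (N1 : ℝ) ^ 2, by positivity, ?_⟩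
  intro m X N hN
  have hN' : (2 : ℝ) ≤ N := by exact_mod_cast hN
  have hN0 : (0 : ℝ) < N := by linarith
  have hN2 : (0 : ℝ) < (N : ℝ) ^ 2 := by positivity
  set L : ℝ := Real.log N with hL
  have hL2 : 1 / 2 ≤ L := by
    have h1 := Real.log_two_gt_d9
    have h2 : Real.log 2 ≤ Real.log N := Real.log_le_log (by norm_num) hN'
    linarith
  have hL0 : 0 < L := by linarith
  have hL3 : 1 / 8 ≤ L ^ 3 := by
    calc (1 / 8 : ℝ) = (1 / 2) ^ 3 := by norm_num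
      _ ≤ L ^ 3 := pow_le_pow_left₀ (by norm_num) hL2 3
  have hL23 : L ^ 2 ≤ 2 * L ^ 3 := by nlinarith [sq_nonneg L]
  rw [le_div_iff₀ hN2]
  have hN1r : (0 : ℝ) ≤ (N1 : ℝ) ^ 2 := by positivity
  by_cases hA : 6 * K * L ≤ N ∧ N1 ≤ N
  · obtain ⟨hA1, hA2⟩ := hA
    set w : ℕ := ⌈2 / δ * L⌉₊ with hw
    have hw1 : 2 / δ * L ≤ w := Nat.le_ceil _
    have hw2 : (w : ℝ) ≤ K * L := by
      have h := (Nat.ceil_lt_add_one (show (0 : ℝ) ≤ 2 / δ * L by positivity)).le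
      rw [hK]
      nlinarith
    have hw0 : 1 ≤ w := by
      rw [hw, Nat.one_le_ceil_iff]
      positivity
    have hw3 : 6 * w ≤ N := by
      have h : (6 : ℝ) * w ≤ N := by nlinarith
      exact_mod_cast h
    obtain ⟨a, haw⟩ : ∃ a, a + (w + (w + w)) = N := ⟨N - (w + (w + w)), by omega⟩
    have ha1 : N ≤ 2 * a := by omega
    have ha2 : (N : ℝ) ≤ 2 * a := by exact_mod_cast ha1
    have ha4 : n + 4 ≤ a := by
      have : 2 * (n + 4) ≤ N := le_trans (Nat.le_add_left _ _) hA2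
      omega
    have ha0 : (0 : ℝ) < a := by
      have : 0 < a := by omega
      exact_mod_cast this
    set ε : ℝ := M / N with hεdef
    have hε1 : er n a ≤ ε := by
      rw [hεdef, hM]
      unfold er
      rw [div_le_div_iff₀ ha0 hN0]
      have h8 : (2 : ℝ) ^ (n + 4) = 2 ^ (n + 3) * 2 := by ring
      rw [h8]
      have h9 : (0 : ℝ) ≤ 2 ^ (n + 3) * n := by positivity
      nlinarith [mul_le_mul_of_nonneg_left ha2 h9]
    have hε2 : ε ≤ 1 / 2 := by
      rw [hεdef, div_le_iff₀ hN0, hM]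
      have h1 : 2 ^ (n + 5) * n ≤ N := le_trans (Nat.le_add_right _ _) hA2
      have h2 : (2 : ℝ) ^ (n + 5) * n ≤ N := by exact_mod_cast h1
      have h3 : (2 : ℝ) ^ (n + 5) = 2 ^ (n + 4) * 2 := by ring
      rw [h3] at h2
      linarith
    have hlam : lam n ^ w ≤ 1 / (N : ℝ) ^ 2 := by
      have h2 : lam n ^ w ≤ Real.exp (-δ) ^ w := by
        apply pow_le_pow_left₀ (lam_nonneg n)
        have := Real.add_one_le_exp (-δ)
        unfold lam
        rw [← hδ]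
        linarith
      refine h2.trans ?_
      rw [← Real.exp_nat_mul]
      have h3 : (w : ℝ) * -δ ≤ -(2 * L) := by
        have h4 : 2 / δ * L * δ ≤ w * δ := mul_le_mul_of_nonneg_right hw1 hδ0.le
        have h5 : 2 / δ * L * δ = 2 * L := by field_simp
        linarith
      refine (Real.exp_le_exp.2 h3).trans (le_of_eq ?_)
      rw [Real.exp_neg, two_mul, Real.exp_add, hL, Real.exp_log hN0]
      rw [one_div, sq]
    have hb : probRigid N m X.faces ≤ (w : ℝ) ^ 3 * (16 * lam n ^ w + 27 * ε ^ 2) := by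
      rw [← haw]
      apply shift
      · have := lam_nonneg n
        positivity
      · intro Y
        exact total' hn hε2 hw0 Y (by omega) ((er_mono n (by omega) (by omega)).trans hε1)
    have hw33 : (w : ℝ) ^ 3 ≤ (K * L) ^ 3 := pow_le_pow_left₀ (Nat.cast_nonneg _) hw2 3
    have h5 : 16 * lam n ^ w + 27 * ε ^ 2 ≤ (16 + 27 * M ^ 2) / (N : ℝ) ^ 2 := by
      have h6 : ε ^ 2 = M ^ 2 / (N : ℝ) ^ 2 := by rw [hεdef, div_pow]
      rw [h6, add_div]
      have h7 : 27 * (M ^ 2 / (N : ℝ) ^ 2) = 27 * M ^ 2 / (N : ℝ) ^ 2 := by ring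
      have h8 : (16 : ℝ) / (N : ℝ) ^ 2 = 16 * (1 / (N : ℝ) ^ 2) := by ring
      rw [h7, h8]
      linarith
    have h9 : (w : ℝ) ^ 3 * (16 * lam n ^ w + 27 * ε ^ 2) ≤
        (K * L) ^ 3 * ((16 + 27 * M ^ 2) / (N : ℝ) ^ 2) := by
      apply mul_le_mul hw33 h5 _ (by positivity)
      have := lam_nonneg n
      positivity
    have h10 := mul_le_mul_of_nonneg_right (hb.trans h9) hN2.le
    refine h10.trans ?_
    have h11 : (K * L) ^ 3 * ((16 + 27 * M ^ 2) / (N : ℝ) ^ 2) * (N : ℝ) ^ 2 =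
        K ^ 3 * (16 + 27 * M ^ 2) * L ^ 3 := by
      field_simp
    rw [h11]
    have h12 : 0 ≤ (72 * K ^ 2 + 8 * (N1 : ℝ) ^ 2) * L ^ 3 := by positivity
    linarith
  · have h1 := prob_le_one N m X.faces
    have h2 : probRigid N m X.faces * (N : ℝ) ^ 2 ≤ (N : ℝ) ^ 2 := by nlinarith
    refine h2.trans ?_
    rw [not_and_or, not_le, not_le] at hA
    have h3 : 0 ≤ K ^ 3 * (16 + 27 * M ^ 2) * L ^ 3 := by positivity
    have h4 : 0 ≤ 72 * K ^ 2 * L ^ 3 := by positivity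
    have h5 : 0 ≤ 8 * (N1 : ℝ) ^ 2 * L ^ 3 := by positivity
    rcases hA with h | h
    · have h6 : (N : ℝ) ^ 2 ≤ (6 * K * L) ^ 2 := pow_le_pow_left₀ hN0.le h.le 2
      have h7 : (6 * K * L) ^ 2 ≤ 72 * K ^ 2 * L ^ 3 := by
        have h8 : 36 * K ^ 2 * L ^ 2 ≤ 36 * K ^ 2 * (2 * L ^ 3) :=
          mul_le_mul_of_nonneg_left hL23 (by positivity)
        nlinarith
      linarith
    · have h6 : (N : ℝ) ≤ N1 := by exact_mod_cast h.le
      have h7 : (N : ℝ) ^ 2 ≤ (N1 : ℝ) ^ 2 := pow_le_pow_left₀ hN0.le h6 2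
      have h8 : (N1 : ℝ) ^ 2 ≤ 8 * (N1 : ℝ) ^ 2 * L ^ 3 := by nlinarith
      linarith

/-- The expected number of rigid complexes in an infinite random sequence of blow-ups. -/
theorem prob_sum (hn : 3 ≤ n) : ∃ C : ℝ, ∀ (m : ℕ) (X : Fan n m),
    (∀ N : ℕ, 2 ≤ N → probRigid N m X.faces ≤ C * Real.log N ^ 3 / N ^ 2) ∧
    Summable (fun N : ℕ => probRigid N m X.faces) ∧ ∑' N : ℕ, probRigid N m X.faces ≤ C := by
  obtain ⟨C, hC0, hC⟩ := prob_bound hn
  have hs : Summable (fun N : ℕ => 1 / (N : ℝ) ^ (3 / 2 : ℝ)) :=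
    Real.summable_one_div_nat_rpow.2 (by norm_num)
  set Z : ℝ := ∑' N : ℕ, 1 / (N : ℝ) ^ (3 / 2 : ℝ) with hZ
  have hZ0 : 0 ≤ Z := tsum_nonneg fun N => by positivity
  have hs2 : Summable (fun N : ℕ => if N < 2 then (1 : ℝ) else 0) := by
    apply summable_of_ne_finset_zero (s := Finset.range 2)
    intro N hN
    rw [Finset.mem_range] at hN
    exact if_neg hN
  have hsum2 : ∑' N : ℕ, (if N < 2 then (1 : ℝ) else 0) = 2 := by
    rw [tsum_eq_sum (s := Finset.range 2)]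
    · rw [Finset.sum_range_succ, Finset.sum_range_succ, Finset.sum_range_zero]
      rw [if_pos (by norm_num), if_pos (by norm_num)]
      norm_num
    · intro N hN
      rw [Finset.mem_range] at hN
      exact if_neg hN
  refine ⟨C + 216 * C * Z + 2, ?_⟩
  intro m X
  have hmain : ∀ N : ℕ, probRigid N m X.faces ≤
      216 * C * (1 / (N : ℝ) ^ (3 / 2 : ℝ)) + (if N < 2 then 1 else 0) := by
    intro N
    by_cases hN : N < 2
    · rw [if_pos hN]
      have h1 := prob_le_one N m X.faces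
      have h2 : 0 ≤ 216 * C * (1 / (N : ℝ) ^ (3 / 2 : ℝ)) := by positivity
      linarith
    · rw [if_neg hN, add_zero]
      push Not at hN
      have hN' : (2 : ℝ) ≤ N := by exact_mod_cast hN
      have hN0 : (0 : ℝ) < N := by linarith
      refine (hC m X N hN).trans ?_
      have h1 : Real.log N ≤ 6 * (N : ℝ) ^ (1 / 6 : ℝ) := by
        have h := Real.log_le_rpow_div hN0.le (show (0 : ℝ) < 1 / 6 by norm_num)
        have e : (N : ℝ) ^ (1 / 6 : ℝ) / (1 / 6) = 6 * (N : ℝ) ^ (1 / 6 : ℝ) := by ring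
        rwa [e] at h
      have h0 : 0 ≤ Real.log N := Real.log_nonneg (by linarith)
      have h2 : Real.log N ^ 3 ≤ 216 * (N : ℝ) ^ (1 / 2 : ℝ) := by
        have h := pow_le_pow_left₀ h0 h1 3
        rw [mul_pow, ← Real.rpow_natCast ((N : ℝ) ^ (1 / 6 : ℝ)) 3, ← Real.rpow_mul hN0.le] at h
        norm_num at h
        norm_num
        exact h
      have h3 : (N : ℝ) ^ (1 / 2 : ℝ) / (N : ℝ) ^ 2 = 1 / (N : ℝ) ^ (3 / 2 : ℝ) := by
        rw [div_eq_div_iff (by positivity) (by positivity), one_mul,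
          ← Real.rpow_add hN0, ← Real.rpow_natCast (N : ℝ) 2]
        norm_num
      calc C * Real.log N ^ 3 / (N : ℝ) ^ 2 ≤ C * (216 * (N : ℝ) ^ (1 / 2 : ℝ)) / (N : ℝ) ^ 2 := by
            apply div_le_div_of_nonneg_right _ (by positivity)
            exact mul_le_mul_of_nonneg_left h2 hC0
        _ = 216 * C * ((N : ℝ) ^ (1 / 2 : ℝ) / (N : ℝ) ^ 2) := by ring
        _ = 216 * C * (1 / (N : ℝ) ^ (3 / 2 : ℝ)) := by rw [h3]
  have hsb : Summable (fun N : ℕ => 216 * C * (1 / (N : ℝ) ^ (3 / 2 : ℝ)) +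
      (if N < 2 then (1 : ℝ) else 0)) := (hs.mul_left _).add hs2
  have hsm : Summable (fun N : ℕ => probRigid N m X.faces) :=
    Summable.of_nonneg_of_le (fun N => prob_nonneg N m X.faces) hmain hsb
  refine ⟨?_, hsm, ?_⟩
  · intro N hN
    refine (hC m X N hN).trans ?_
    have hN' : (2 : ℝ) ≤ N := by exact_mod_cast hN
    have h0 : 0 ≤ Real.log N := Real.log_nonneg (by linarith)
    apply div_le_div_of_nonneg_right _ (by positivity)
    apply mul_le_mul_of_nonneg_right _ (by positivity)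
    have : 0 ≤ 216 * C * Z := by positivity
    linarith
  · refine (hsm.tsum_le_tsum hmain hsb).trans ?_
    rw [Summable.tsum_add (hs.mul_left _) hs2, tsum_mul_left, hsum2, ← hZ]
    linarith

end Pool.Agent.Helper22.FL
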