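import Pool.Agent.Helper22.FL.Prod

/-!
Cancellation for joins of finite simplicial complexes: if `K * L` and `K' * L` are isomorphic, then
`K` and `K'` are isomorphic.
-/

namespace Pool.Agent.Helper22.FL

open Finset

section general
variable {A B C : Type}

/-- minimal nonfaces -/
def MN {A : Type} [DecidableEq A] (K : Set (Finset A)) : Set (Finset A) :=
  {η | η ∉ K ∧ ∀ i ∈ η, η.erase i ∈ K}

/-- down-closed families -/
def DC {A : Type} (K : Set (Finset A)) : Prop := ∀ σ ∈ K, ∀ τ, τ ⊆ σ → τ ∈ K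

/-- joins, on a sum of types -/
def jn {A C : Type} (K : Set (Finset A)) (L : Set (Finset C)) : Set (Finset (A ⊕ C)) :=
  {σ | σ.toLeft ∈ K ∧ σ.toRight ∈ L}

lemma exists_MN [DecidableEq A] {K : Set (Finset A)} {σ : Finset A} (h : σ ∉ K) :
    ∃ η ∈ MN K, η ⊆ σ := by
  induction σ using Finset.strongInduction with
  | H σ ih =>
    by_cases hc : ∀ i ∈ σ, σ.erase i ∈ K
    · exact ⟨σ, ⟨h, hc⟩, Finset.Subset.refl _⟩
    · push Not at hc
      obtain ⟨i, hi, hi'⟩ := hc
      obtain ⟨η, h1, h2⟩ := ih _ (Finset.erase_ssubset hi) hi'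
      exact ⟨η, h1, h2.trans (Finset.erase_subset _ _)⟩

lemma mem_iff_MN [DecidableEq A] {K : Set (Finset A)} (hK : DC K) {σ : Finset A} :
    σ ∈ K ↔ ∀ η ∈ MN K, ¬ η ⊆ σ := by
  constructor
  · intro h η hη hs
    exact hη.1 (hK _ h _ hs)
  · intro h
    by_contra hc
    obtain ⟨η, h1, h2⟩ := exists_MN hc
    exact h η h1 h2

/-- proper subsets of minimal nonfaces are faces -/
lemma MN_proper [DecidableEq A] {K : Set (Finset A)} (hK : DC K) {η τ : Finset A} (h : η ∈ MN K)
    (hs : τ ⊂ η) : τ ∈ K := by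
  obtain ⟨i, hi, hi'⟩ := Finset.exists_of_ssubset hs
  apply hK _ (h.2 i hi)
  intro x hx
  exact Finset.mem_erase.2 ⟨fun h' => hi' (h' ▸ hx), hs.1 hx⟩

lemma MN_of [DecidableEq A] {K : Set (Finset A)} {η : Finset A} (h : η ∉ K)
    (h' : ∀ τ, τ ⊂ η → τ ∈ K) : η ∈ MN K :=
  ⟨h, fun _ hi => h' _ (Finset.erase_ssubset hi)⟩

lemma jn_dc {K : Set (Finset A)} {L : Set (Finset C)} (hK : DC K) (hL : DC L) : DC (jn K L) := by
  rintro σ ⟨h1, h2⟩ τ hτ
  exact ⟨hK _ h1 _ (Finset.toLeft_subset_toLeft hτ), hL _ h2 _ (Finset.toRight_subset_toRight hτ)⟩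

lemma toLeft_map_inl (η : Finset A) :
    ((η.map Function.Embedding.inl : Finset (A ⊕ C))).toLeft = η := by
  ext i; simp

lemma toRight_map_inl (η : Finset A) :
    ((η.map Function.Embedding.inl : Finset (A ⊕ C))).toRight = ∅ := by
  ext i; simp

lemma toLeft_map_inr (η : Finset C) :
    ((η.map Function.Embedding.inr : Finset (A ⊕ C))).toLeft = ∅ := by
  ext i; simp

lemma toRight_map_inr (η : Finset C) :
    ((η.map Function.Embedding.inr : Finset (A ⊕ C))).toRight = η := by
  ext i; simp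

variable [DecidableEq A] [DecidableEq B] [DecidableEq C]

lemma ssub_map_inl {η : Finset A} {τ : Finset (A ⊕ C)}
    (h : τ ⊂ η.map Function.Embedding.inl) : ∃ ρ, ρ ⊂ η ∧ τ = ρ.map Function.Embedding.inl := by
  obtain ⟨ρ, hρ, h1⟩ := Finset.subset_map_iff.1 h.1
  refine ⟨ρ, ?_, h1⟩
  rw [h1] at h
  exact Finset.map_ssubset_map.1 h

lemma ssub_map_inr {η : Finset C} {τ : Finset (A ⊕ C)}
    (h : τ ⊂ η.map Function.Embedding.inr) : ∃ ρ, ρ ⊂ η ∧ τ = ρ.map Function.Embedding.inr := by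
  obtain ⟨ρ, hρ, h1⟩ := Finset.subset_map_iff.1 h.1
  refine ⟨ρ, ?_, h1⟩
  rw [h1] at h
  exact Finset.map_ssubset_map.1 h

lemma MN_inl {K : Set (Finset A)} {L : Set (Finset C)} (hK : DC K) (hL : ∅ ∈ L)
    {η : Finset A} : η.map Function.Embedding.inl ∈ MN (jn K L) ↔ η ∈ MN K := by
  have hmem : ∀ ρ : Finset A, ρ.map Function.Embedding.inl ∈ jn K L ↔ ρ ∈ K := by
    intro ρ
    constructor
    · rintro ⟨h, _⟩; rwa [toLeft_map_inl] at h
    · intro h
      refine ⟨?_, ?_⟩
      · rwa [toLeft_map_inl]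
      · rwa [toRight_map_inl]
  constructor
  · rintro ⟨h1, h2⟩
    refine ⟨fun h => h1 ((hmem _).2 h), ?_⟩
    intro i hi
    have h3 := h2 (Sum.inl i) (Finset.mem_map_of_mem _ hi)
    rw [← hmem, Finset.map_erase]
    exact h3
  · intro h
    apply MN_of
    · exact fun h' => h.1 ((hmem _).1 h')
    · intro τ hτ
      obtain ⟨ρ, hρ, rfl⟩ := ssub_map_inl hτ
      exact (hmem _).2 (MN_proper hK h hρ)

lemma MN_inr {K : Set (Finset A)} {L : Set (Finset C)} (hL : DC L) (hK : ∅ ∈ K)
    {η : Finset C} : η.map Function.Embedding.inr ∈ MN (jn K L) ↔ η ∈ MN L := by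
  have hmem : ∀ ρ : Finset C, ρ.map Function.Embedding.inr ∈ jn K L ↔ ρ ∈ L := by
    intro ρ
    constructor
    · rintro ⟨_, h⟩; rwa [toRight_map_inr] at h
    · intro h
      refine ⟨?_, ?_⟩
      · rwa [toLeft_map_inr]
      · rwa [toRight_map_inr]
  constructor
  · rintro ⟨h1, h2⟩
    refine ⟨fun h => h1 ((hmem _).2 h), ?_⟩
    intro i hi
    have h3 := h2 (Sum.inr i) (Finset.mem_map_of_mem _ hi)
    rw [← hmem, Finset.map_erase]
    exact h3
  · intro h
    apply MN_of
    · exact fun h' => h.1 ((hmem _).1 h')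
    · intro τ hτ
      obtain ⟨ρ, hρ, rfl⟩ := ssub_map_inr hτ
      exact (hmem _).2 (MN_proper hL h hρ)

/-- a minimal nonface of a join lies in one of the factors -/
lemma MN_jn {K : Set (Finset A)} {L : Set (Finset C)} (hK : DC K) (hL : DC L) (hK0 : ∅ ∈ K)
    (hL0 : ∅ ∈ L) {η : Finset (A ⊕ C)} (h : η ∈ MN (jn K L)) :
    (∃ θ ∈ MN K, η = θ.map Function.Embedding.inl) ∨
    (∃ θ ∈ MN L, η = θ.map Function.Embedding.inr) := by
  have h1 : η.toLeft ∉ K ∨ η.toRight ∉ L := by
    by_contra hc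
    push Not at hc
    exact h.1 hc
  rcases h1 with h1 | h1
  · left
    have hs : η.toLeft.map Function.Embedding.inl ⊆ η := by
      intro x hx
      obtain ⟨i, hi, rfl⟩ := Finset.mem_map.1 hx
      exact Finset.mem_toLeft.1 hi
    have he : η = η.toLeft.map Function.Embedding.inl := by
      by_contra hne
      have h2 := MN_proper (jn_dc hK hL) h ⟨hs, fun h' => hne (Finset.Subset.antisymm h' hs)⟩
      obtain ⟨h3, _⟩ := h2
      rw [toLeft_map_inl] at h3
      exact h1 h3
    refine ⟨η.toLeft, ?_, he⟩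
    rw [← MN_inl hK hL0, ← he]
    exact h
  · right
    have hs : η.toRight.map Function.Embedding.inr ⊆ η := by
      intro x hx
      obtain ⟨i, hi, rfl⟩ := Finset.mem_map.1 hx
      exact Finset.mem_toRight.1 hi
    have he : η = η.toRight.map Function.Embedding.inr := by
      by_contra hne
      have h2 := MN_proper (jn_dc hK hL) h ⟨hs, fun h' => hne (Finset.Subset.antisymm h' hs)⟩
      obtain ⟨_, h3⟩ := h2
      rw [toRight_map_inr] at h3
      exact h1 h3
    refine ⟨η.toRight, ?_, he⟩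
    rw [← MN_inr hL hK0, ← he]
    exact h


/-- one step of the chase -/
def nxt (φ : A ⊕ C ≃ B ⊕ C) : B ⊕ C → B ⊕ C := Sum.elim Sum.inl (fun c => φ (Sum.inr c))

/-- the chase -/
def tr (φ : A ⊕ C ≃ B ⊕ C) (k : ℕ) (a : A) : B ⊕ C := (nxt φ)^[k] (φ (Sum.inl a))

omit [DecidableEq A] [DecidableEq B] [DecidableEq C] in
lemma tr_succ (φ : A ⊕ C ≃ B ⊕ C) (k : ℕ) (a : A) : tr φ (k + 1) a = nxt φ (tr φ k a) := by
  rw [tr, Function.iterate_succ_apply', tr]

omit [DecidableEq A] [DecidableEq B] [DecidableEq C] in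
lemma trace (φ : A ⊕ C ≃ B ⊕ C) (i : ℕ) : ∀ (j : ℕ) (a a' : A),
    (∀ k < i, ∃ c, tr φ k a = Sum.inr c) → (∀ k < j, ∃ c, tr φ k a' = Sum.inr c) →
    tr φ i a = tr φ j a' → i = j ∧ a = a' := by
  induction i with
  | zero =>
    intro j a a' _ h2 h
    cases j with
    | zero => exact ⟨rfl, Sum.inl_injective (φ.injective h)⟩
    | succ j =>
      obtain ⟨c, hc⟩ := h2 j (Nat.lt_succ_self j)
      rw [tr_succ, hc] at h
      exact absurd (φ.injective h) (by simp)
  | succ i ih =>
    intro j a a' h1 h2 h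
    obtain ⟨c, hc⟩ := h1 i (Nat.lt_succ_self i)
    cases j with
    | zero =>
      rw [tr_succ, hc] at h
      exact absurd (φ.injective h.symm) (by simp)
    | succ j =>
      obtain ⟨c', hc'⟩ := h2 j (Nat.lt_succ_self j)
      rw [tr_succ, tr_succ, hc, hc'] at h
      have h3 : c = c' := Sum.inr_injective (φ.injective h)
      obtain ⟨h4, h5⟩ := ih j a a' (fun k hk => h1 k (hk.trans (Nat.lt_succ_self i)))
        (fun k hk => h2 k (hk.trans (Nat.lt_succ_self j))) (by rw [hc, hc', h3])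
      exact ⟨by rw [h4], h5⟩

omit [DecidableEq A] [DecidableEq B] [DecidableEq C] in
lemma exists_exit [Finite C] (φ : A ⊕ C ≃ B ⊕ C) (a : A) : ∃ k b, tr φ k a = Sum.inl b := by
  by_contra hc
  push Not at hc
  have h : ∀ k, ∃ c, tr φ k a = Sum.inr c := by
    intro k
    cases hk : tr φ k a with
    | inl b => exact absurd hk (hc k b)
    | inr c => exact ⟨c, rfl⟩
  choose c hc' using h
  have hinj : Function.Injective c := by
    intro i j hij
    exact (trace φ i j a a (fun k _ => ⟨c k, hc' k⟩) (fun k _ => ⟨c k, hc' k⟩)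
      (by rw [hc', hc', hij])).1
  exact not_injective_infinite_finite c hinj

/-- the chase gives an injection of the vertices that carries minimal nonfaces to minimal
nonfaces -/
lemma exists_inj [Finite C] {K : Set (Finset A)} {K' : Set (Finset B)} {L : Set (Finset C)}
    (hK : DC K) (hK' : DC K') (hL : DC L) (hK0 : ∅ ∈ K) (hK0' : ∅ ∈ K') (hL0 : ∅ ∈ L)
    (φ : A ⊕ C ≃ B ⊕ C) (hφ : ∀ σ, σ ∈ jn K L ↔ σ.map φ.toEmbedding ∈ jn K' L) :
    ∃ f : A ↪ B, ∀ η ∈ MN K, η.map f ∈ MN K' := by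
  classical
  have hMN : ∀ η, η ∈ MN (jn K L) → η.map φ.toEmbedding ∈ MN (jn K' L) := by
    intro η h
    refine ⟨fun h' => h.1 ((hφ _).2 h'), ?_⟩
    intro i hi
    obtain ⟨x, hx, rfl⟩ := Finset.mem_map.1 hi
    rw [← Finset.map_erase]
    exact (hφ _).1 (h.2 x hx)
  have hex : ∀ a, ∃ k, ∃ b, tr φ k a = Sum.inl b := fun a => exists_exit φ a
  let kk : A → ℕ := fun a => Nat.find (hex a)
  have hkk : ∀ a, ∃ b, tr φ (kk a) a = Sum.inl b := fun a => Nat.find_spec (hex a)
  have hlt : ∀ a, ∀ k < kk a, ∃ c, tr φ k a = Sum.inr c := by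
    intro a k hk
    have := Nat.find_min (hex a) hk
    push Not at this
    cases h : tr φ k a with
    | inl b => exact absurd h (this b)
    | inr c => exact ⟨c, rfl⟩
  choose f hf using hkk
  have hinj : Function.Injective f := by
    intro a a' h
    exact (trace φ (kk a) (kk a') a a' (hlt a) (hlt a') (by rw [hf, hf, h])).2
  -- the state of a minimal nonface
  have hstate : ∀ η ∈ MN K, ∀ k, (∀ j < k, ∀ a ∈ η, ∃ c, tr φ j a = Sum.inr c) →
      η.image (tr φ k) ∈ MN (jn K' L) := by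
    intro η hη k
    induction k with
    | zero =>
      intro _
      have h1 := hMN _ ((MN_inl (L := L) hK hL0).2 hη)
      convert h1 using 1
      rw [Finset.map_map, Finset.map_eq_image]
      rfl
    | succ k ih =>
      intro h
      have h1 := ih (fun j hj => h j (hj.trans (Nat.lt_succ_self k)))
      have h2 := h k (Nat.lt_succ_self k)
      rcases MN_jn hK' hL hK0' hL0 h1 with ⟨θ, hθ, he⟩ | ⟨θ, hθ, he⟩
      · -- impossible unless empty
        rcases η.eq_empty_or_nonempty with rfl | ⟨a, ha⟩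
        · exact absurd hK0 hη.1
        · obtain ⟨c, hc⟩ := h2 a ha
          have h3 : tr φ k a ∈ η.image (tr φ k) := Finset.mem_image_of_mem _ ha
          rw [he, hc] at h3
          simp at h3
      · have h3 := hMN _ ((MN_inr (K := K) hL hK0).2 hθ)
        convert h3 using 1
        have h4 : η.image (tr φ (k + 1)) = (η.image (tr φ k)).image (nxt φ) := by
          rw [Finset.image_image]
          apply Finset.image_congr
          intro a _
          exact tr_succ φ k a
        rw [h4, he, Finset.map_map]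
        rw [Finset.map_eq_image, Finset.image_image, Finset.map_eq_image]
        rfl
  refine ⟨⟨f, hinj⟩, ?_⟩
  intro η hη
  rcases η.eq_empty_or_nonempty with rfl | hne
  · exact absurd hK0 hη.1
  obtain ⟨a0, ha0, hmin⟩ := Finset.exists_min_image η kk hne
  have h1 := hstate η hη (kk a0) (fun j hj a ha => hlt a j (lt_of_lt_of_le hj (hmin a ha)))
  rcases MN_jn hK' hL hK0' hL0 h1 with ⟨θ, hθ, he⟩ | ⟨θ, hθ, he⟩
  · -- all vertices of η exit at the same time
    have h2 : ∀ a ∈ η, tr φ (kk a0) a = Sum.inl (f a) := by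
      intro a ha
      have h3 : tr φ (kk a0) a ∈ η.image (tr φ (kk a0)) := Finset.mem_image_of_mem _ ha
      rw [he] at h3
      obtain ⟨b, _, hb⟩ := Finset.mem_map.1 h3
      have h4 : kk a = kk a0 := by
        apply le_antisymm _ (hmin a ha)
        exact Nat.find_min' (hex a) ⟨b, hb.symm⟩
      rw [← h4]
      exact hf a
    have h5 : η.image (tr φ (kk a0)) = (η.map ⟨f, hinj⟩).map Function.Embedding.inl := by
      rw [Finset.map_map, Finset.map_eq_image]
      apply Finset.image_congr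
      intro a ha
      exact h2 a ha
    rw [h5] at h1
    exact (MN_inl hK' hL0).1 h1
  · have h3 : tr φ (kk a0) a0 ∈ η.image (tr φ (kk a0)) := Finset.mem_image_of_mem _ ha0
    rw [he, hf] at h3
    simp at h3

/-- Cancellation. -/
theorem cancel [Finite A] [Finite B] [Finite C] {K : Set (Finset A)} {K' : Set (Finset B)}
    {L : Set (Finset C)} (hK : DC K) (hK' : DC K') (hL : DC L) (hK0 : ∅ ∈ K) (hK0' : ∅ ∈ K')
    (hL0 : ∅ ∈ L) (φ : A ⊕ C ≃ B ⊕ C) (hφ : ∀ σ, σ ∈ jn K L ↔ σ.map φ.toEmbedding ∈ jn K' L) :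
    ∃ ψ : A ≃ B, ∀ σ, σ ∈ K ↔ σ.map ψ.toEmbedding ∈ K' := by
  classical
  obtain ⟨f, hf⟩ := exists_inj hK hK' hL hK0 hK0' hL0 φ hφ
  have hφ' : ∀ σ, σ ∈ jn K' L ↔ σ.map φ.symm.toEmbedding ∈ jn K L := by
    intro σ
    rw [hφ, Finset.map_map]
    have : (φ.symm.toEmbedding.trans φ.toEmbedding) = Function.Embedding.refl _ := by
      ext x; simp
    rw [this, Finset.map_refl]
  obtain ⟨g, hg⟩ := exists_inj hK' hK hL hK0' hK0 hL0 φ.symm hφ'
  have hbij : Function.Bijective f := by
    haveI := Fintype.ofFinite A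
    haveI := Fintype.ofFinite B
    rw [Fintype.bijective_iff_injective_and_card]
    exact ⟨f.injective, le_antisymm (Fintype.card_le_of_embedding f) (Fintype.card_le_of_embedding g)⟩
  -- the induced map on minimal nonfaces is onto
  have honto : ∀ θ ∈ MN K', ∃ η ∈ MN K, η.map f = θ := by
    haveI := Fintype.ofFinite A
    haveI := Fintype.ofFinite B
    have hfin : (MN K').Finite := Set.toFinite _
    have hsub : (fun η : Finset A => η.map f) '' MN K ⊆ MN K' := by
      rintro _ ⟨η, hη, rfl⟩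
      exact hf η hη
    have hcard : (MN K').ncard ≤ ((fun η : Finset A => η.map f) '' MN K).ncard := by
      rw [Set.ncard_image_of_injective _ (Finset.map_injective f)]
      have h1 : ((fun η : Finset B => η.map g) '' MN K').ncard ≤ (MN K).ncard := by
        apply Set.ncard_le_ncard _ (Set.toFinite _)
        rintro _ ⟨η, hη, rfl⟩
        exact hg η hη
      rwa [Set.ncard_image_of_injective _ (Finset.map_injective g)] at h1
    have heq := Set.eq_of_subset_of_ncard_le hsub hcard hfin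
    intro θ hθ
    rw [← heq] at hθ
    obtain ⟨η, hη, h⟩ := hθ
    exact ⟨η, hη, h⟩
  refine ⟨Equiv.ofBijective f hbij, ?_⟩
  have he : (Equiv.ofBijective f hbij).toEmbedding = f := by
    ext x; rfl
  intro σ
  rw [he, mem_iff_MN hK, mem_iff_MN hK']
  constructor
  · intro h θ hθ hs
    obtain ⟨η, hη, rfl⟩ := honto θ hθ
    exact h η hη (Finset.map_subset_map.1 hs)
  · intro h η hη hs
    exact h _ (hf η hη) (Finset.map_subset_map.2 hs)

end general

section fin
open Pool.Agent.Helper21.Toric Pool.Agent.Helper22.BU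

variable {m m1 m' : ℕ}

lemma mem_jn_iff {K : Set (Finset (Fin m))} {L : Set (Finset (Fin m'))}
    (σ : Finset (Fin m ⊕ Fin m')) :
    σ ∈ jn K L ↔ σ.map finSumFinEquiv.toEmbedding ∈ join K L := by
  have e1 : lft (σ.map finSumFinEquiv.toEmbedding) = σ.toLeft := by
    ext i
    rw [mem_lft, Finset.mem_toLeft, ← finSumFinEquiv_apply_left]
    exact Finset.mem_map' _
  have e2 : rgt (σ.map finSumFinEquiv.toEmbedding) = σ.toRight := by
    ext i
    rw [mem_rgt, Finset.mem_toRight, ← finSumFinEquiv_apply_right]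
    exact Finset.mem_map' _
  simp only [jn, join, Set.mem_ofPred_eq, e1, e2]

/-- Cancellation for joins. -/
theorem join_cancel {K : Set (Finset (Fin m))} {K' : Set (Finset (Fin m1))}
    {L : Set (Finset (Fin m'))} (hK : DC K) (hK' : DC K') (hL : DC L) (hK0 : ∅ ∈ K)
    (hK0' : ∅ ∈ K') (hL0 : ∅ ∈ L) (h : ComplexIso (join K L) (join K' L)) : ComplexIso K K' := by
  obtain ⟨φ, hφ⟩ := h
  let ψ : Fin m ⊕ Fin m' ≃ Fin m1 ⊕ Fin m' := (finSumFinEquiv.trans φ).trans finSumFinEquiv.symm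
  obtain ⟨χ, hχ⟩ := cancel hK hK' hL hK0 hK0' hL0 ψ (by
    intro σ
    rw [mem_jn_iff, hφ, mem_jn_iff, Finset.map_map, Finset.map_map]
    have : (ψ.toEmbedding.trans finSumFinEquiv.toEmbedding) =
        (finSumFinEquiv.toEmbedding.trans φ.toEmbedding) := by
      ext x
      simp [ψ]
    rw [this])
  exact ⟨χ, hχ⟩

end fin

end Pool.Agent.Helper22.FL
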