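import Pool.Agent.Helper22.FL.Graph
import Pool.Agent.Helper22.BU.Comb

/-!
Degrees in the two examples.
-/

namespace Pool.Agent.Helper22.FL

open Pool.Agent.Helper21.Toric Pool.Agent.Helper22.BU Finset

variable {m : ℕ}

lemma pair_CL {E : ℕ → ℕ → Prop} (hs : ∀ i j, E i j → E j i) {v w : Fin m} (h : w ≠ v) :
    ({v, w} : Finset (Fin m)) ∈ CL m E ↔ E w v := by
  constructor
  · intro h1
    exact h1 w (by simp) v (by simp) h
  · intro h1
    exact mem_CL_pair hs (hs _ _ h1)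

lemma nbr_val {E : ℕ → ℕ → Prop} (hs : ∀ i j, E i j → E j i) (v : Fin m) :
    Fin.val '' nbr (CL m E) v = {i : ℕ | i < m ∧ i ≠ v ∧ E i v} := by
  ext i
  simp only [Set.mem_image, Set.mem_ofPred_eq]
  constructor
  · rintro ⟨w, ⟨h1, h2⟩, rfl⟩
    exact ⟨w.2, fun h => h1 (Fin.ext h), (pair_CL hs h1).1 h2⟩
  · rintro ⟨h1, h2, h3⟩
    have hne : (⟨i, h1⟩ : Fin m) ≠ v := fun h => h2 (congrArg Fin.val h)
    exact ⟨⟨i, h1⟩, ⟨hne, (pair_CL hs hne).2 h3⟩, rfl⟩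

lemma deg_val {E : ℕ → ℕ → Prop} (hs : ∀ i j, E i j → E j i) (v : Fin m) :
    deg (CL m E) v = {i : ℕ | i < m ∧ i ≠ v ∧ E i v}.ncard := by
  rw [deg, ← Set.ncard_image_of_injective _ Fin.val_injective, nbr_val hs]

lemma deg_eq_list {E : ℕ → ℕ → Prop} (hs : ∀ i j, E i j → E j i) (v : Fin m) (l : List ℕ)
    (hl : l.Nodup) (h : ∀ i, (i < m ∧ i ≠ v ∧ E i v) ↔ i ∈ l) : deg (CL m E) v = l.length := by
  rw [deg_val hs]
  have : {i : ℕ | i < m ∧ i ≠ v ∧ E i v} = (l.toFinset : Set ℕ) := by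
    ext i
    simp only [Set.mem_ofPred_eq, Finset.mem_coe, List.mem_toFinset]
    exact h i
  rw [this, Set.ncard_coe_finset, List.toFinset_card_of_nodup hl]

lemma le_deg_list {E : ℕ → ℕ → Prop} (hs : ∀ i j, E i j → E j i) (v : Fin m) (l : List ℕ)
    (hl : l.Nodup) (h : ∀ i ∈ l, i < m ∧ i ≠ v ∧ E i v) : l.length ≤ deg (CL m E) v := by
  rw [deg_val hs, ← List.toFinset_card_of_nodup hl, ← Set.ncard_coe_finset]
  apply Set.ncard_le_ncard
  · intro i hi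
    exact h i (List.mem_toFinset.1 hi)
  · exact (Set.finite_lt_nat m).subset fun i hi => hi.1

lemma deg_le_list {E : ℕ → ℕ → Prop} (hs : ∀ i j, E i j → E j i) (v : Fin m) (l : List ℕ)
    (h : ∀ i, i < m → i ≠ v → E i v → i ∈ l) : deg (CL m E) v ≤ l.length := by
  rw [deg_val hs]
  refine le_trans (Set.ncard_le_ncard (t := (l.toFinset : Set ℕ)) ?_ (Finset.finite_toSet _)) ?_
  · rintro i ⟨h1, h2, h3⟩
    exact List.mem_toFinset.2 (h i h1 h2 h3)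
  · rw [Set.ncard_coe_finset]
    exact List.toFinset_card_le l

/-- two adjacent vertices of degree five -/
def P5 {m : ℕ} (K : Set (Finset (Fin m))) : Prop :=
  ∃ v w : Fin m, v ≠ w ∧ ({v, w} : Finset (Fin m)) ∈ K ∧ deg K v = 5 ∧ deg K w = 5

lemma P5_iso {m' : ℕ} {K : Set (Finset (Fin m))} {L : Set (Finset (Fin m'))}
    (h : ComplexIso K L) (hK : P5 K) : P5 L := by
  obtain ⟨φ, hφ⟩ := h
  obtain ⟨v, w, h1, h2, h3, h4⟩ := hK
  have hd : ∀ u, deg L (φ u) = deg K u := by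
    intro u
    rw [deg, deg_iso φ hφ u, Set.ncard_image_of_injective _ φ.injective, deg]
  refine ⟨φ v, φ w, fun h => h1 (φ.injective h), ?_, ?_, ?_⟩
  · rw [hφ, Finset.map_insert, Finset.map_singleton] at h2
    exact h2
  · rw [hd]; exact h3
  · rw [hd]; exact h4

lemma EA_symm (k : ℕ) (i j : ℕ) (h : EA k i j) : EA k j i := sb_symm (E2_symm k) i j h

lemma EB_symm (k : ℕ) (i j : ℕ) (h : EB k i j) : EB k j i := sb_symm (E2_symm k) i j h

lemma EB_3 (k i : ℕ) (hk : 7 ≤ k) :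
    (i < 2 + k + 1 + 1 + 1 ∧ i ≠ 3 ∧ EB k i 3) ↔ i ∈ [0, 1, 2, 4, k + 2] := by
  simp only [List.mem_cons, List.not_mem_nil, or_false]
  unfold EB E2 E1 sb EW cyc; omega

lemma EB_4 (k i : ℕ) (hk : 7 ≤ k) :
    (i < 2 + k + 1 + 1 + 1 ∧ i ≠ 4 ∧ EB k i 4) ↔ i ∈ [0, 1, 3, 5, k + 3] := by
  simp only [List.mem_cons, List.not_mem_nil, or_false]
  unfold EB E2 E1 sb EW cyc; omega

lemma P5_EB (k : ℕ) (hk : 7 ≤ k) : P5 (CL (2 + k + 1 + 1 + 1) (EB k)) := by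
  refine ⟨⟨3, by omega⟩, ⟨4, by omega⟩, ?_, ?_, ?_, ?_⟩
  · intro h
    have := congrArg Fin.val h
    simp at this
  · apply mem_CL_pair (EB_symm k)
    have := (EB_4 k 3 hk).2 (by simp)
    exact this.2.2
  · refine deg_eq_list (EB_symm k) _ [0, 1, 2, 4, k + 2] ?_ (fun i => EB_3 k i hk)
    simp; omega
  · refine deg_eq_list (EB_symm k) _ [0, 1, 3, 5, k + 3] ?_ (fun i => EB_4 k i hk)
    simp; omega

lemma EA_0 (k i : ℕ) (hk : 7 ≤ k) (hi : i ∈ [3, 4, 6, 7, k + 2, k + 3]) :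
    (i < 2 + k + 1 + 1 + 1 ∧ i ≠ 0 ∧ EA k i 0) := by
  simp only [List.mem_cons, List.not_mem_nil, or_false] at hi
  unfold EA E2 E1 sb EW cyc; omega

lemma EA_1 (k i : ℕ) (hk : 7 ≤ k) (hi : i ∈ [2, 3, 4, 5, 6, 7]) :
    (i < 2 + k + 1 + 1 + 1 ∧ i ≠ 1 ∧ EA k i 1) := by
  simp only [List.mem_cons, List.not_mem_nil, or_false] at hi
  unfold EA E2 E1 sb EW cyc; omega

lemma EA_2 (k i : ℕ) (hk : 7 ≤ k) (h : EA k i 2) : i ∈ [1, 3, k + 1, k + 2] := by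
  simp only [List.mem_cons, List.not_mem_nil, or_false]
  unfold EA E2 E1 sb EW cyc at h; omega

lemma EA_5 (k i : ℕ) (hk : 7 ≤ k) (h : EA k i 5) : i ∈ [1, 4, 6, k + 3] := by
  simp only [List.mem_cons, List.not_mem_nil, or_false]
  unfold EA E2 E1 sb EW cyc at h; omega

lemma EA_k2 (k i : ℕ) (hk : 7 ≤ k) (h : EA k i (k + 2)) : i ∈ [0, 2, 3, k + 1] := by
  simp only [List.mem_cons, List.not_mem_nil, or_false]
  unfold EA E2 E1 sb EW cyc at h; omega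

lemma EA_k3 (k i : ℕ) (hk : 7 ≤ k) (h : EA k i (k + 3)) : i ∈ [0, 4, 5, 6] := by
  simp only [List.mem_cons, List.not_mem_nil, or_false]
  unfold EA E2 E1 sb EW cyc at h; omega

lemma EA_k4 (k i : ℕ) (hk : 7 ≤ k) (h : EA k i (k + 4)) : i ∈ [0, 1, 3, 4] := by
  simp only [List.mem_cons, List.not_mem_nil, or_false]
  unfold EA E2 E1 sb EW cyc at h; omega

lemma sb_nb {N p q c d v i : ℕ} {E : ℕ → ℕ → Prop} {Q : Prop} (hv : v < N)
    (hp : v ≠ p) (hq : v ≠ q) (hc : v ≠ c) (hd : v ≠ d) (hQ : E i v → Q)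
    (h : sb N p q c d E i v) : Q := by
  rcases h with h | h | h
  · exact hQ h.2.2.1
  · omega
  · omega

lemma EA_v (k i v : ℕ) (hk : 7 ≤ k) (hv : 7 ≤ v) (hv' : v ≤ k) (h : EA k i v) :
    i ∈ [0, 1, v - 1, v + 1] := by
  refine sb_nb (by omega) (by omega) (by omega) (by omega) (by omega) (fun h => ?_) h
  refine sb_nb (by omega) (by omega) (by omega) (by omega) (by omega) (fun h => ?_) h
  refine sb_nb (by omega) (by omega) (by omega) (by omega) (by omega) (fun h => ?_) h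
  simp only [List.mem_cons, List.not_mem_nil, or_false]
  unfold EW cyc at h; omega

lemma deg_EA (k : ℕ) (hk : 7 ≤ k) (v : Fin (2 + k + 1 + 1 + 1))
    (h : deg (CL (2 + k + 1 + 1 + 1) (EA k)) v = 5) :
    (v : ℕ) = 3 ∨ (v : ℕ) = 4 ∨ (v : ℕ) = 6 ∨ (v : ℕ) = k + 1 := by
  obtain ⟨v, hv⟩ := v
  simp only
  have hle : ∀ a b c d : ℕ, (∀ i, EA k i v → i ∈ [a, b, c, d]) →
      deg (CL (2 + k + 1 + 1 + 1) (EA k)) ⟨v, hv⟩ ≤ 4 := by
    intro a b c d h1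
    exact deg_le_list (EA_symm k) _ [a, b, c, d] (fun i _ _ h2 => h1 i h2)
  by_contra hcon
  push Not at hcon
  obtain ⟨h3, h4, h6, hk1⟩ := hcon
  have hcases : v = 0 ∨ v = 1 ∨ v = 2 ∨ v = 5 ∨ v = k + 2 ∨ v = k + 3 ∨ v = k + 4 ∨
      (7 ≤ v ∧ v ≤ k) := by omega
  rcases hcases with rfl | rfl | rfl | rfl | rfl | rfl | rfl | ⟨h7, h8⟩
  · have := le_deg_list (EA_symm k) ⟨0, hv⟩ [3, 4, 6, 7, k + 2, k + 3] (by simp; omega)
      (fun i hi => EA_0 k i hk hi)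
    rw [h] at this
    exact absurd this (by simp)
  · have := le_deg_list (EA_symm k) ⟨1, hv⟩ [2, 3, 4, 5, 6, 7] (by simp)
      (fun i hi => EA_1 k i hk hi)
    rw [h] at this
    exact absurd this (by simp)
  · have := hle _ _ _ _ (fun i hi => EA_2 k i hk hi)
    omega
  · have := hle _ _ _ _ (fun i hi => EA_5 k i hk hi)
    omega
  · have := hle _ _ _ _ (fun i hi => EA_k2 k i hk hi)
    omega
  · have := hle _ _ _ _ (fun i hi => EA_k3 k i hk hi)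
    omega
  · have := hle _ _ _ _ (fun i hi => EA_k4 k i hk hi)
    omega
  · have := hle _ _ _ _ (fun i hi => EA_v k i v hk h7 h8 hi)
    omega

lemma EA_34 (k : ℕ) (hk : 7 ≤ k) : ¬ EA k 3 4 := by
  unfold EA E2 E1 sb EW cyc; omega

lemma EA_36 (k : ℕ) (hk : 7 ≤ k) : ¬ EA k 3 6 := by
  unfold EA E2 E1 sb EW cyc; omega

lemma EA_46 (k : ℕ) (hk : 7 ≤ k) : ¬ EA k 4 6 := by
  unfold EA E2 E1 sb EW cyc; omega

lemma EA_3k (k : ℕ) (hk : 7 ≤ k) : ¬ EA k 3 (k + 1) := by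
  unfold EA E2 E1 sb EW cyc; omega

lemma EA_4k (k : ℕ) (hk : 7 ≤ k) : ¬ EA k 4 (k + 1) := by
  unfold EA E2 E1 sb EW cyc; omega

lemma EA_6k (k : ℕ) (hk : 7 ≤ k) : ¬ EA k 6 (k + 1) := by
  unfold EA E2 E1 sb EW cyc; omega

lemma not_P5_EA (k : ℕ) (hk : 7 ≤ k) : ¬ P5 (CL (2 + k + 1 + 1 + 1) (EA k)) := by
  rintro ⟨v, w, h1, h2, h3, h4⟩
  have h5 : EA k v w := h2 v (by simp) w (by simp) h1
  have h6 := deg_EA k hk v h3
  have h7 := deg_EA k hk w h4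
  have hne : (v : ℕ) ≠ w := fun h => h1 (Fin.ext h)
  generalize (v : ℕ) = a at *
  generalize (w : ℕ) = b at *
  rcases h6 with rfl | rfl | rfl | rfl <;> rcases h7 with rfl | rfl | rfl | rfl
  · exact hne rfl
  · exact EA_34 k hk h5
  · exact EA_36 k hk h5
  · exact EA_3k k hk h5
  · exact EA_34 k hk (EA_symm _ _ _ h5)
  · exact hne rfl
  · exact EA_46 k hk h5
  · exact EA_4k k hk h5
  · exact EA_36 k hk (EA_symm _ _ _ h5)
  · exact EA_46 k hk (EA_symm _ _ _ h5)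
  · exact hne rfl
  · exact EA_6k k hk h5
  · exact EA_3k k hk (EA_symm _ _ _ h5)
  · exact EA_4k k hk (EA_symm _ _ _ h5)
  · exact EA_6k k hk (EA_symm _ _ _ h5)
  · exact hne rfl

end Pool.Agent.Helper22.FL
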