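import Pool.Agent.Helper22.FL.Family
import Pool.Agent.Helper22.FL.Count
import Pool.Agent.Helper22.FL.Cancel
import Pool.Agent.Helper21.Assemble

/-!
Rigidity of joins and non-rigid flag complexes.
-/

namespace Pool.Agent.Helper22.FL

open Pool.Agent.Helper21.Toric Pool.Agent.Helper22.BU Finset

variable {n m n' m' m1 : ℕ}

/-- A complex is flag: every set of pairwise adjacent vertices is a face. -/
def Flag {m : ℕ} (K : Set (Finset (Fin m))) : Prop :=
  ∀ σ : Finset (Fin m), (∀ i ∈ σ, ∀ j ∈ σ, ({i, j} : Finset (Fin m)) ∈ K) → σ ∈ K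

lemma rigid_congr {K : Set (Finset (Fin m))} {L : Set (Finset (Fin m'))} (h : ComplexIso K L)
    (hK : Rigid K) : Rigid L := by
  have hm : m = m' := by
    obtain ⟨φ, _⟩ := h
    simpa using Fintype.card_congr φ
  subst hm
  refine ⟨?_, ?_⟩
  · obtain ⟨n, X, hX⟩ := hK.1
    exact ⟨n, X, hX.trans h⟩
  · intro n X hX n' m' Y hXY
    exact (hK.2 n X (hX.trans h.symm) n' m' Y hXY).trans h

lemma lft_map_flip (σ : Finset (Fin (m + m'))) :
    lft (σ.map (finAddFlip (m := m) (n := m')).toEmbedding) = rgt σ := by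
  ext i
  rw [mem_lft, mem_rgt, ← finAddFlip_apply_natAdd]
  exact Finset.mem_map' _

lemma rgt_map_flip (σ : Finset (Fin (m + m'))) :
    rgt (σ.map (finAddFlip (m := m) (n := m')).toEmbedding) = lft σ := by
  ext i
  rw [mem_lft, mem_rgt, ← finAddFlip_apply_castAdd]
  exact Finset.mem_map' _

lemma join_comm (K : Set (Finset (Fin m))) (L : Set (Finset (Fin m'))) :
    ComplexIso (join K L) (join L K) := by
  refine ⟨finAddFlip, fun σ => ?_⟩
  simp only [join, Set.mem_ofPred_eq, lft_map_flip, rgt_map_flip]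
  exact and_comm

/-- the bijection of vertices of joins given by a bijection of the first vertex sets -/
def jmap (m' : ℕ) (φ : Fin m ≃ Fin m1) : Fin (m + m') ≃ Fin (m1 + m') :=
  (finSumFinEquiv.symm.trans (Equiv.sumCongr φ (Equiv.refl _))).trans finSumFinEquiv

lemma jmap_left (φ : Fin m ≃ Fin m1) (i : Fin m) :
    jmap m' φ (Fin.castAdd m' i) = Fin.castAdd m' (φ i) := by simp [jmap]

lemma jmap_right (φ : Fin m ≃ Fin m1) (j : Fin m') :
    jmap m' φ (Fin.natAdd m j) = Fin.natAdd m1 j := by simp [jmap]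

lemma join_congr {K : Set (Finset (Fin m))} {K' : Set (Finset (Fin m1))}
    (L : Set (Finset (Fin m'))) (h : ComplexIso K K') : ComplexIso (join K L) (join K' L) := by
  obtain ⟨φ, hφ⟩ := h
  refine ⟨jmap m' φ, fun σ => ?_⟩
  have e1 : lft (σ.map (jmap m' φ).toEmbedding) = (lft σ).map φ.toEmbedding := by
    ext i
    obtain ⟨i, rfl⟩ := φ.surjective i
    rw [mem_lft, ← jmap_left]
    refine (Finset.mem_map' _).trans ?_
    refine Iff.trans ?_ (Finset.mem_map' (s := lft σ) φ.toEmbedding (a := i)).symm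
    exact mem_lft.symm
  have e2 : rgt (σ.map (jmap m' φ).toEmbedding) = rgt σ := by
    ext j
    rw [mem_rgt, mem_rgt, ← jmap_right φ j]
    exact Finset.mem_map' _
  simp only [join, Set.mem_ofPred_eq, e1, e2]
  rw [hφ]

lemma rigid_left (X : Fan n m) (Z : Fan n' m') (h : Rigid (join X.faces Z.faces)) :
    Rigid X.faces := by
  refine ⟨⟨n, X, ComplexIso.refl _⟩, ?_⟩
  intro n1 X1 hX1 n2 m2 Y hXY
  have h1 : ComplexIso (Prod X1 Z).faces (join X.faces Z.faces) := join_congr Z.faces hX1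
  have h2 := h.2 _ (Prod X1 Z) h1 _ _ (Prod Y Z) (gradedIso_prod Z hXY)
  exact join_cancel Y.down_closed X.down_closed Z.down_closed Y.empty_mem X.empty_mem
    Z.empty_mem h2

/-- If the complex of a product is rigid then so are the complexes of the factors. -/
theorem rigid_factors (X : Fan n m) (Z : Fan n' m') (h : Rigid (join X.faces Z.faces)) :
    Rigid X.faces ∧ Rigid Z.faces :=
  ⟨rigid_left X Z h, rigid_left Z X (rigid_congr (join_comm _ _) h)⟩

lemma flag_CL {E : ℕ → ℕ → Prop} : Flag (CL m E) := by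
  intro σ h i hi j hj hij
  exact h i hi j hj i (by simp) j (by simp) hij

lemma flag_join {K : Set (Finset (Fin m))} {L : Set (Finset (Fin m'))} (hK : Flag K)
    (hL : Flag L) : Flag (join K L) := by
  intro σ h
  refine ⟨hK _ ?_, hL _ ?_⟩
  · intro i hi j hj
    have h1 := (h _ (mem_lft.1 hi) _ (mem_lft.1 hj)).1
    have h2 : lft ({Fin.castAdd m' i, Fin.castAdd m' j} : Finset (Fin (m + m'))) = {i, j} := by
      ext k; simp [mem_lft]
    rwa [h2] at h1
  · intro i hi j hj
    have h1 := (h _ (mem_rgt.1 hi) _ (mem_rgt.1 hj)).2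
    have h2 : rgt ({Fin.natAdd m i, Fin.natAdd m j} : Finset (Fin (m + m'))) = {i, j} := by
      ext k; simp [mem_rgt]
    rwa [h2] at h1

lemma flag_P1 : Flag (PN 1 le_rfl).faces := by
  have h : ∀ σ : Finset (Fin 2), (∀ i ∈ σ, ∀ j ∈ σ, ({i, j} : Finset (Fin 2)) ≠ Finset.univ) →
      σ ≠ Finset.univ := by decide
  exact h

lemma not_rigid_of_pair {X Y : Fan n m} (h : GradedIso X Y) (h2 : ¬ ComplexIso X.faces Y.faces) :
    ¬ Rigid X.faces := by
  intro hR
  exact h2 (hR.2 _ X (ComplexIso.refl _) _ _ Y h).symm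

lemma gradedIso_symm {X Y : Fan n m} (h : GradedIso X Y) : GradedIso Y X := by
  obtain ⟨e, he⟩ := h
  refine ⟨e.symm, fun k a => ?_⟩
  rw [he k (e.symm a), e.apply_symm_apply]

/-- Flag complexes that are not rigid. -/
theorem exists_flag (n : ℕ) (hn : 3 ≤ n) : ∀ m : ℕ, 2 * n + 6 ≤ m →
    ∃ X Y : Fan n m, Flag X.faces ∧ Flag Y.faces ∧ GradedIso X Y ∧
      ¬ ComplexIso X.faces Y.faces := by
  induction n, hn using Nat.le_induction with
  | base =>
    intro m hm
    obtain ⟨j, rfl⟩ : ∃ j, m = 2 + (4 + (3 + j)) + 1 + 1 + 1 := ⟨m - 12, by omega⟩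
    obtain ⟨X, Y, hX, hY, hXY⟩ := exists_pair j
    refine ⟨X, Y, ?_, ?_, hXY, ?_⟩
    · rw [hX]; exact flag_CL
    · rw [hY]; exact flag_CL
    · intro h1
      rw [hX, hY] at h1
      exact not_P5_EA _ (by omega) (P5_iso h1.symm (P5_EB _ (by omega)))
  | succ n hn ih =>
    intro m hm
    obtain ⟨m, rfl⟩ : ∃ m0, m = m0 + (1 + 1) := ⟨m - 2, by omega⟩
    obtain ⟨X, Y, hX, hY, hXY, hne⟩ := ih m (by omega)
    refine ⟨Prod X (PN 1 le_rfl), Prod Y (PN 1 le_rfl), flag_join hX flag_P1,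
      flag_join hY flag_P1, gradedIso_prod _ hXY, ?_⟩
    intro h
    exact hne (join_cancel X.down_closed Y.down_closed (PN 1 le_rfl).down_closed X.empty_mem
      Y.empty_mem (PN 1 le_rfl).empty_mem h)

end Pool.Agent.Helper22.FL
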