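import Pool.Agent.Helper22.FL.Stel
import Pool.Agent.Helper22.FL.Rig
import Pool.Agent.Helper22.BU.Main

/-!
Stellar subdivisions commute; point blow-ups that survive.
-/

namespace Pool.Agent.Helper22.FL

open Pool.Agent.Helper21.Toric Pool.Agent.Helper22.BU Finset

variable {n m m' : ℕ}

/-- extension of a bijection of vertices to the new vertex -/
def ext1 (φ : Fin m ≃ Fin m') : Fin (m + 1) ≃ Fin (m' + 1) :=
  finSuccEquivLast.trans ((Equiv.optionCongr φ).trans finSuccEquivLast.symm)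

@[simp] lemma ext1_cast (φ : Fin m ≃ Fin m') (i : Fin m) :
    ext1 φ i.castSucc = (φ i).castSucc := by
  simp [ext1]

@[simp] lemma ext1_last (φ : Fin m ≃ Fin m') : ext1 φ (Fin.last m) = Fin.last m' := by
  simp [ext1]

lemma mem_map_eq (φ : Fin m ≃ Fin m') {i : Fin m} {j : Fin m'} (h : φ i = j)
    (σ : Finset (Fin m)) : j ∈ σ.map φ.toEmbedding ↔ i ∈ σ := by
  rw [← h]
  exact Finset.mem_map' _

lemma last_mem_ext1 (φ : Fin m ≃ Fin m') (ρ : Finset (Fin (m + 1))) :
    Fin.last m' ∈ ρ.map (ext1 φ).toEmbedding ↔ Fin.last m ∈ ρ :=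
  mem_map_eq _ (ext1_last φ) ρ

lemma old_ext1 (φ : Fin m ≃ Fin m') (ρ : Finset (Fin (m + 1))) :
    old (ρ.map (ext1 φ).toEmbedding) = (old ρ).map φ.toEmbedding := by
  ext i
  obtain ⟨i, rfl⟩ := φ.surjective i
  rw [mem_old, mem_map_eq _ (ext1_cast φ i), mem_map_eq φ rfl, mem_old]

/-- `φ` is an isomorphism of complexes -/
def IsIso (φ : Fin m ≃ Fin m') (K : Set (Finset (Fin m))) (L : Set (Finset (Fin m'))) : Prop :=
  ∀ σ : Finset (Fin m), σ ∈ K ↔ σ.map φ.toEmbedding ∈ L

lemma IsIso.trans {k : ℕ} {φ : Fin m ≃ Fin m'} {ψ : Fin m' ≃ Fin k} {K : Set (Finset (Fin m))}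
    {L : Set (Finset (Fin m'))} {N : Set (Finset (Fin k))} (h : IsIso φ K L) (h' : IsIso ψ L N) :
    IsIso (φ.trans ψ) K N := by
  intro σ
  rw [h, h', Finset.map_map]
  rfl

lemma IsIso.refl (K : Set (Finset (Fin m))) : IsIso (Equiv.refl _) K K := by
  intro σ
  simp

lemma stel_iso {φ : Fin m ≃ Fin m'} {K : Set (Finset (Fin m))} {L : Set (Finset (Fin m'))}
    (h : IsIso φ K L) (α : Finset (Fin m)) :
    IsIso (ext1 φ) (stel K α) (stel L (α.map φ.toEmbedding)) := by
  intro ρ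
  simp only [stel, Set.mem_ofPred_eq, old_ext1, last_mem_ext1]
  rw [← h, Finset.map_subset_map, ← Finset.map_union, ← h]

lemma last_mem_insert (ρ : Finset (Fin (m + 1))) : old (insert (Fin.last m) ρ) = old ρ := by
  ext i
  simp [mem_old]

/-- description of a double stellar subdivision at two faces whose union is not a face -/
lemma mem_stel_stel {K : Set (Finset (Fin m))} (hK : ∀ σ ∈ K, ∀ τ, τ ⊆ σ → τ ∈ K)
    {σ τ : Finset (Fin m)} (h : σ ∪ τ ∉ K) (ρ : Finset (Fin (m + 1 + 1))) :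
    ρ ∈ stel (stel K τ) (σ.map Fin.castSuccEmb) ↔
      old (old ρ) ∈ K ∧ ¬ τ ⊆ old (old ρ) ∧ ¬ σ ⊆ old (old ρ) ∧
      ((Fin.last m).castSucc ∈ ρ → old (old ρ) ∪ τ ∈ K) ∧
      (Fin.last (m + 1) ∈ ρ → old (old ρ) ∪ σ ∈ K) ∧
      ¬ ((Fin.last m).castSucc ∈ ρ ∧ Fin.last (m + 1) ∈ ρ) := by
  have hsub : ∀ r : Finset (Fin (m + 1)), σ.map Fin.castSuccEmb ⊆ r ↔ σ ⊆ old r := by
    intro r
    constructor
    · intro h1 i hi
      exact mem_old.2 (h1 (Finset.mem_map_of_mem _ hi))
    · intro h1 i hi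
      obtain ⟨j, hj, rfl⟩ := Finset.mem_map.1 hi
      exact mem_old.1 (h1 hj)
  have hou : ∀ r : Finset (Fin (m + 1)), old (r ∪ σ.map Fin.castSuccEmb) = old r ∪ σ := by
    intro r
    rw [old_union, old_map]
  have hlu : ∀ r : Finset (Fin (m + 1)), Fin.last m ∈ r ∪ σ.map Fin.castSuccEmb ↔
      Fin.last m ∈ r := by
    intro r
    rw [Finset.mem_union]
    exact or_iff_left (last_notMem_map _)
  simp only [stel, Set.mem_ofPred_eq, hsub, hou, hlu, mem_old]
  constructor
  · rintro ⟨⟨h1, h2, h3⟩, h4, h5⟩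
    refine ⟨h1, h2, h4, h3, fun h6 => (h5 h6).1, ?_⟩
    rintro ⟨h6, h7⟩
    have h8 := (h5 h7).2.2 h6
    apply h
    refine hK _ h8 _ (Finset.union_subset ?_ Finset.subset_union_right)
    exact Finset.subset_union_right.trans Finset.subset_union_left
  · rintro ⟨h1, h2, h3, h4, h5, h6⟩
    refine ⟨⟨h1, h2, h4⟩, h3, fun h7 => ⟨h5 h7, ?_, ?_⟩⟩
    · intro h8
      exact h (hK _ (h5 h7) _ (Finset.union_subset Finset.subset_union_right h8))
    · intro h8
      exact absurd ⟨h8, h7⟩ h6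

/-- exchanging the two new vertices -/
def sw (m : ℕ) : Fin (m + 1 + 1) ≃ Fin (m + 1 + 1) :=
  Equiv.swap (Fin.last (m + 1)) (Fin.last m).castSucc

lemma sw_last : sw m (Fin.last (m + 1)) = (Fin.last m).castSucc := Equiv.swap_apply_left _ _

lemma sw_cl : sw m (Fin.last m).castSucc = Fin.last (m + 1) := Equiv.swap_apply_right _ _

lemma sw_old (i : Fin m) : sw m i.castSucc.castSucc = i.castSucc.castSucc := by
  apply Equiv.swap_apply_of_ne_of_ne
  · exact (Fin.castSucc_lt_last _).ne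
  · intro h
    exact (Fin.castSucc_lt_last i).ne (Fin.castSucc_injective _ h)

lemma old_sw (ρ : Finset (Fin (m + 1 + 1))) :
    old (old (ρ.map (sw m).toEmbedding)) = old (old ρ) := by
  ext i
  rw [mem_old, mem_old, mem_map_eq _ (sw_old i), mem_old, mem_old]

/-- Stellar subdivisions at two faces whose union is not a face commute. -/
lemma stel_comm {K : Set (Finset (Fin m))} (hK : ∀ σ ∈ K, ∀ τ, τ ⊆ σ → τ ∈ K)
    {σ τ : Finset (Fin m)} (h : σ ∪ τ ∉ K) :
    IsIso (sw m) (stel (stel K τ) (σ.map Fin.castSuccEmb))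
      (stel (stel K σ) (τ.map Fin.castSuccEmb)) := by
  intro ρ
  rw [mem_stel_stel hK h, mem_stel_stel hK (by rwa [Finset.union_comm]), old_sw,
    mem_map_eq _ sw_last, mem_map_eq _ sw_cl]
  tauto

lemma stel_eq_stack (X : Fan n m) {τ : Finset (Fin m)} (hτ : IsFacet n X.faces τ) :
    stel X.faces τ = stack X.faces τ := by
  ext ρ
  simp only [stel, stack, Set.mem_ofPred_eq]
  refine and_congr_right fun h1 => and_congr_right fun h2 => imp_congr_right fun h3 => ?_
  constructor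
  · intro h4
    have h5 := card_le h4
    have h6 : τ = old ρ ∪ τ := Finset.eq_of_subset_of_card_le Finset.subset_union_right (by
      rw [hτ.2]; exact h5)
    rw [h6]
    exact Finset.subset_union_left
  · intro h4
    rw [Finset.union_eq_right.2 h4]
    exact hτ.1

lemma facet_two (hn : 3 ≤ n) {K : Set (Finset (Fin m))} {τ : Finset (Fin m)}
    (hτ : IsFacet n K τ) : 2 ≤ τ.card := by
  rw [hτ.2]; omega

/-- `v` is the exceptional vertex of a point blow-up -/
def One (n : ℕ) {m : ℕ} (K : Set (Finset (Fin m))) (v : Fin m) : Prop :=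
  ∃ (k : ℕ) (X : Fan n k) (τ : Finset (Fin k)) (φ : Fin m ≃ Fin (k + 1)),
    IsFacet n X.faces τ ∧ IsIso φ K (stel X.faces τ) ∧ φ v = Fin.last k

/-- `v`, `w` are the exceptional vertices of a double point blow-up -/
def Two (n : ℕ) {m : ℕ} (K : Set (Finset (Fin m))) (v w : Fin m) : Prop :=
  ∃ (k : ℕ) (X : Fan n k) (τ : Finset (Fin k)) (σ : Finset (Fin (k + 1)))
    (φ : Fin m ≃ Fin (k + 1 + 1)), IsFacet n X.faces τ ∧ IsFacet n (stel X.faces τ) σ ∧
    IsIso φ K (stel (stel X.faces τ) σ) ∧ φ v = (Fin.last k).castSucc ∧ φ w = Fin.last (k + 1)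

lemma one_new (X : Fan n m) {τ : Finset (Fin m)} (hτ : IsFacet n X.faces τ) :
    One n (stel X.faces τ) (Fin.last m) :=
  ⟨m, X, τ, Equiv.refl _, hτ, IsIso.refl _, rfl⟩

lemma facet_map {φ : Fin m ≃ Fin m'} {K : Set (Finset (Fin m))} {L : Set (Finset (Fin m'))}
    (h : IsIso φ K L) {τ : Finset (Fin m)} (hτ : IsFacet n K τ) :
    IsFacet n L (τ.map φ.toEmbedding) :=
  ⟨(h τ).1 hτ.1, by rw [Finset.card_map]; exact hτ.2⟩

lemma two_new {K : Set (Finset (Fin m))} {v : Fin m} (h : One n K v) {τ : Finset (Fin m)}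
    (hτ : IsFacet n K τ) : Two n (stel K τ) v.castSucc (Fin.last m) := by
  obtain ⟨k, X, τ0, φ, h1, h2, h3⟩ := h
  refine ⟨k, X, τ0, τ.map φ.toEmbedding, ext1 φ, h1, facet_map h2 hτ, stel_iso h2 τ, ?_, ?_⟩
  · rw [ext1_cast, h3]
  · rw [ext1_last]

lemma not_rigid_two (hn : 3 ≤ n) {K : Set (Finset (Fin m))} {v w : Fin m} (h : Two n K v w)
    (hm : n + 4 ≤ m) : ¬ Rigid K := by
  obtain ⟨k, X, τ, σ, φ, h1, h2, h3, _, _⟩ := h
  intro hR
  have hmk : m = k + 1 + 1 := by simpa using Fintype.card_congr φ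
  have h4 : Rigid (stel (stel X.faces τ) σ) := rigid_congr ⟨φ, h3⟩ hR
  have h5 : IsFacet n (Stel X τ h1.1 (facet_two hn h1)).faces σ := h2
  have e1 : stel (stel X.faces τ) σ = stack (stel X.faces τ) σ := stel_eq_stack _ h5
  rw [e1, stel_eq_stack X h1] at h4
  rw [stel_eq_stack X h1] at h2
  have := double_of_rigid hn X h1 h2 h4
  omega

lemma exists_old {ρ : Finset (Fin (m + 1))} (h : Fin.last m ∉ ρ) :
    ∃ σ : Finset (Fin m), ρ = σ.map Fin.castSuccEmb := ⟨old ρ, eq_of_last_notMem h⟩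

lemma one_keep {K : Set (Finset (Fin m))} {v : Fin m} (h : One n K v)
    {σ : Finset (Fin m)} (hσ : σ ∈ K) (h2 : 2 ≤ σ.card) (hv : insert v σ ∉ K) :
    One n (stel K σ) v.castSucc := by
  obtain ⟨k, X, τ, φ, h3, h4, h5⟩ := h
  have hvσ : v ∉ σ := by
    intro h
    rw [Finset.insert_eq_of_mem h] at hv
    exact hv hσ
  have hl : Fin.last k ∉ σ.map φ.toEmbedding := by
    rwa [mem_map_eq φ h5]
  obtain ⟨σ1, e1⟩ := exists_old hl
  have hm1 := (h4 σ).1 hσ
  rw [e1] at hm1
  have hv1 : insert (Fin.last k) (σ1.map Fin.castSuccEmb) ∉ stel X.faces τ := by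
    intro h
    apply hv
    rw [h4, Finset.map_insert]
    rw [← e1] at h
    change insert (φ v) _ ∈ _
    rwa [h5]
  have hσ1 : σ1 ∈ X.faces := by
    have := hm1.1
    rwa [old_map] at this
  have hτσ : ¬ τ ⊆ σ1 := by
    have := hm1.2.1
    rwa [old_map] at this
  have hu : σ1 ∪ τ ∉ X.faces := by
    intro h
    apply hv1
    refine ⟨?_, ?_, fun _ => ?_⟩
    · rw [old_insert]; exact hσ1
    · rw [old_insert]; exact hτσ
    · rw [old_insert]; exact h
  have hc1 : 2 ≤ σ1.card := by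
    have : σ1.card = σ.card := by
      rw [← Finset.card_map (s := σ) φ.toEmbedding, e1, Finset.card_map]
    omega
  refine ⟨k + 1, Stel X σ1 hσ1 hc1, τ.map Fin.castSuccEmb, (ext1 φ).trans (sw k), ?_, ?_, ?_⟩
  · refine ⟨?_, ?_⟩
    · refine ⟨?_, ?_, ?_⟩
      · rw [old_map]; exact h3.1
      · rw [old_map]
        intro h
        apply hu
        rw [Finset.union_eq_right.2 h]
        exact h3.1
      · intro h
        exact absurd h (last_notMem_map _)
    · rw [Finset.card_map]; exact h3.2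
  · refine IsIso.trans (stel_iso h4 σ) ?_
    rw [e1]
    exact stel_comm X.down_closed hu
  · rw [Equiv.trans_apply, ext1_cast, h5, sw_cl]

lemma facet_old {K : Set (Finset (Fin m))} {σ τ : Finset (Fin m)} (hτ : IsFacet n K τ)
    (h : σ ∪ τ ∉ K) : IsFacet n (stel K σ) (τ.map Fin.castSuccEmb) := by
  refine ⟨⟨?_, ?_, ?_⟩, ?_⟩
  · rw [old_map]; exact hτ.1
  · rw [old_map]
    intro h'
    apply h
    rw [Finset.union_eq_right.2 h']
    exact hτ.1
  · intro h'
    exact absurd h' (last_notMem_map _)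
  · rw [Finset.card_map]; exact hτ.2

lemma two_keep {K : Set (Finset (Fin m))} {v w : Fin m} (h : Two n K v w)
    {σ : Finset (Fin m)} (hσ : σ ∈ K) (h2 : 2 ≤ σ.card) (hv : insert v σ ∉ K)
    (hw : insert w σ ∉ K) : Two n (stel K σ) v.castSucc w.castSucc := by
  obtain ⟨k, X, τ, ρ, φ, h3, h4, h5, h6, h7⟩ := h
  have hwσ : w ∉ σ := by
    intro h
    rw [Finset.insert_eq_of_mem h] at hw
    exact hw hσ
  have hvσ : v ∉ σ := by
    intro h
    rw [Finset.insert_eq_of_mem h] at hv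
    exact hv hσ
  have hl : Fin.last (k + 1) ∉ σ.map φ.toEmbedding := by
    rwa [mem_map_eq φ h7]
  have hl2 : (Fin.last k).castSucc ∉ σ.map φ.toEmbedding := by
    rwa [mem_map_eq φ h6]
  obtain ⟨σ1, e1⟩ := exists_old hl
  have hl3 : Fin.last k ∉ σ1 := by
    intro h
    apply hl2
    rw [e1]
    exact Finset.mem_map_of_mem _ h
  obtain ⟨σ2, e2⟩ := exists_old hl3
  have hm1 := (h5 σ).1 hσ
  rw [e1] at hm1
  have hσ1 : σ1 ∈ stel X.faces τ := by
    have := hm1.1
    rwa [old_map] at this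
  have hρσ : ¬ ρ ⊆ σ1 := by
    have := hm1.2.1
    rwa [old_map] at this
  have hu1 : σ1 ∪ ρ ∉ stel X.faces τ := by
    intro h
    apply hw
    rw [h5, Finset.map_insert]
    change insert (φ w) _ ∈ _
    rw [h7, e1]
    refine ⟨?_, ?_, fun _ => ?_⟩
    · rw [old_insert]; exact hσ1
    · rw [old_insert]; exact hρσ
    · rw [old_insert]; exact h
  have hdc : ∀ σ ∈ stel X.faces τ, ∀ τ', τ' ⊆ σ → τ' ∈ stel X.faces τ :=
    (Stel X τ h3.1 (by
      have := h3.2
      by_contra hcon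
      push Not at hcon
      have h9 : 2 ≤ σ.card := h2
      have h10 : σ2.card = σ.card := by
        rw [← Finset.card_map (s := σ) φ.toEmbedding, e1, e2, Finset.card_map, Finset.card_map]
      have h11 : σ2 ∈ X.faces := by
        rw [e2] at hσ1
        have := hσ1.1
        rwa [old_map] at this
      have h12 := card_le h11
      omega)).down_closed
  have hσ2 : σ2 ∈ X.faces := by
    rw [e2] at hσ1
    have := hσ1.1
    rwa [old_map] at this
  have hτσ : ¬ τ ⊆ σ2 := by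
    rw [e2] at hσ1
    have := hσ1.2.1
    rwa [old_map] at this
  have hu2 : σ2 ∪ τ ∉ X.faces := by
    intro h
    have h8 : insert (Fin.last k) σ1 ∈ stel X.faces τ := by
      rw [e2]
      refine ⟨?_, ?_, fun _ => ?_⟩
      · rw [old_insert]; exact hσ2
      · rw [old_insert]; exact hτσ
      · rw [old_insert]; exact h
    apply hv
    rw [h5, Finset.map_insert]
    change insert (φ v) _ ∈ _
    rw [h6, e1]
    have e3 : insert (Fin.last k).castSucc (σ1.map Fin.castSuccEmb) =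
        (insert (Fin.last k) σ1).map Fin.castSuccEmb := by
      rw [Finset.map_insert]; rfl
    rw [e3]
    refine ⟨?_, ?_, fun h9 => ?_⟩
    · rw [old_map]; exact h8
    · rw [old_map]
      intro h9
      exact hu1 (hdc _ h8 _ (Finset.union_subset (Finset.subset_insert _ _) h9))
    · exact absurd h9 (last_notMem_map _)
  have hc : 2 ≤ σ2.card := by
    have h10 : σ2.card = σ.card := by
      rw [← Finset.card_map (s := σ) φ.toEmbedding, e1, e2, Finset.card_map, Finset.card_map]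
    omega
  have i1 : IsIso (sw k) (stel (stel X.faces τ) σ1)
      (stel (Stel X σ2 hσ2 hc).faces (τ.map Fin.castSuccEmb)) := by
    rw [e2]
    exact stel_comm X.down_closed hu2
  have i2 := stel_iso i1 (ρ.map Fin.castSuccEmb)
  have i3 := stel_comm (K := stel X.faces τ) hdc hu1
  have i4 := stel_iso h5 σ
  rw [e1] at i4
  refine ⟨k + 1, Stel X σ2 hσ2 hc, τ.map Fin.castSuccEmb,
    (ρ.map Fin.castSuccEmb).map (sw k).toEmbedding,
    (ext1 φ).trans ((sw (k + 1)).trans (ext1 (sw k))), facet_old h3 hu2,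
    facet_map i1 (facet_old h4 hu1), i4.trans (i3.trans i2), ?_, ?_⟩
  · rw [Equiv.trans_apply, Equiv.trans_apply, ext1_cast, h6, sw_old, ext1_cast, sw_cl]
  · rw [Equiv.trans_apply, Equiv.trans_apply, ext1_cast, h7, sw_cl, ext1_last]

lemma one_of_two (hn : 3 ≤ n) {K : Set (Finset (Fin m))} {v w : Fin m} (h : Two n K v w) :
    One n K w := by
  obtain ⟨k, X, τ, ρ, φ, h3, h4, h5, h6, h7⟩ := h
  exact ⟨k + 1, Stel X τ h3.1 (facet_two hn h3), ρ, φ, h4, h5, h7⟩

lemma sub_of_facet {X : Fan n m} {τ ρ : Finset (Fin m)} (hτ : IsFacet n X.faces τ)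
    (h : ρ ∪ τ ∈ X.faces) : ρ ⊆ τ := by
  have h6 : τ = ρ ∪ τ := Finset.eq_of_subset_of_card_le Finset.subset_union_right (by
    rw [hτ.2]; exact card_le h)
  rw [h6]
  exact Finset.subset_union_left

/-- the faces whose subdivision destroys an exceptional vertex lie in a small set -/
lemma one_small {K : Set (Finset (Fin m))} {v : Fin m} (h : One n K v) :
    ∃ T : Finset (Fin m), T.card ≤ n + 1 ∧ ∀ σ, insert v σ ∈ K → σ ⊆ T := by
  obtain ⟨k, X, τ, φ, h3, h4, h5⟩ := h
  refine ⟨(insert (Fin.last k) (τ.map Fin.castSuccEmb)).map φ.symm.toEmbedding, ?_, ?_⟩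
  · rw [Finset.card_map]
    refine (Finset.card_insert_le _ _).trans ?_
    rw [Finset.card_map, h3.2]
  · intro σ hσ
    rw [h4, Finset.map_insert] at hσ
    change insert (φ v) _ ∈ _ at hσ
    rw [h5] at hσ
    have h6 := hσ.2.2 (Finset.mem_insert_self _ _)
    rw [last_mem_insert] at h6
    have h7 := sub_of_facet h3 h6
    intro i hi
    rw [mem_map_eq φ.symm (i := φ i) (φ.symm_apply_apply i)]
    have h8 : φ i ∈ σ.map φ.toEmbedding := Finset.mem_map_of_mem _ hi
    rcases Fin.eq_castSucc_or_eq_last (φ i) with ⟨j, hj⟩ | hj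
    · rw [hj] at h8 ⊢
      exact Finset.mem_insert_of_mem (Finset.mem_map_of_mem _ (h7 (mem_old.2 h8)))
    · rw [hj]
      exact Finset.mem_insert_self _ _

lemma two_small {K : Set (Finset (Fin m))} {v w : Fin m} (h : Two n K v w) :
    ∃ T : Finset (Fin m), T.card ≤ n + 2 ∧ ∀ σ, insert v σ ∈ K → σ ⊆ T := by
  obtain ⟨k, X, τ, ρ, φ, h3, h4, h5, h6, h7⟩ := h
  refine ⟨(insert (Fin.last (k + 1)) ((insert (Fin.last k) (τ.map Fin.castSuccEmb)).map
    Fin.castSuccEmb)).map φ.symm.toEmbedding, ?_, ?_⟩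
  · rw [Finset.card_map]
    refine (Finset.card_insert_le _ _).trans ?_
    rw [Finset.card_map]
    have := Finset.card_insert_le (Fin.last k) (τ.map Fin.castSuccEmb)
    rw [Finset.card_map, h3.2] at this
    omega
  · intro σ hσ
    rw [h5, Finset.map_insert] at hσ
    change insert (φ v) _ ∈ _ at hσ
    rw [h6] at hσ
    have h8 := hσ.1
    have e1 : old (insert (Fin.last k).castSucc (σ.map φ.toEmbedding)) =
        insert (Fin.last k) (old (σ.map φ.toEmbedding)) := by
      ext i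
      simp [mem_old]
    rw [e1] at h8
    have h9 := h8.2.2 (Finset.mem_insert_self _ _)
    rw [last_mem_insert] at h9
    have h10 := sub_of_facet h3 h9
    intro i hi
    rw [mem_map_eq φ.symm (i := φ i) (φ.symm_apply_apply i)]
    have h11 : φ i ∈ σ.map φ.toEmbedding := Finset.mem_map_of_mem _ hi
    rcases Fin.eq_castSucc_or_eq_last (φ i) with ⟨j, hj⟩ | hj
    · rw [hj] at h11 ⊢
      refine Finset.mem_insert_of_mem (Finset.mem_map_of_mem _ ?_)
      rcases Fin.eq_castSucc_or_eq_last j with ⟨l, hl⟩ | hl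
      · rw [hl] at h11 ⊢
        exact Finset.mem_insert_of_mem (Finset.mem_map_of_mem _ (h10 (mem_old.2 (mem_old.2 h11))))
      · rw [hl]
        exact Finset.mem_insert_self _ _
    · rw [hj]
      exact Finset.mem_insert_self _ _

end Pool.Agent.Helper22.FL
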