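import Pool.Agent.Helper22.FL.Twin

/-!
Two flag fans of dimension three with isomorphic cohomology rings.
-/

namespace Pool.Agent.Helper22.FL

open Pool.Agent.Helper21.Toric Pool.Agent.Helper22.BU Finset

lemma E2_3 (k i : ℕ) (hk : 7 ≤ k) (hi : i < 2 + k + 1 + 1) :
    E2 k i 3 ↔ (i = 0 ∨ i = 1 ∨ i = 2 ∨ i = 4 ∨ i = k + 2) := by
  unfold E2 E1 sb EW cyc; omega

lemma E2_4 (k i : ℕ) (hk : 7 ≤ k) (hi : i < 2 + k + 1 + 1) :
    E2 k i 4 ↔ (i = 0 ∨ i = 1 ∨ i = 3 ∨ i = 5 ∨ i = k + 3) := by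
  unfold E2 E1 sb EW cyc; omega

lemma E2_6 (k i : ℕ) (hk : 7 ≤ k) (hi : i < 2 + k + 1 + 1) :
    E2 k i 6 ↔ (i = 0 ∨ i = 1 ∨ i = 5 ∨ i = 7 ∨ i = k + 3) := by
  unfold E2 E1 sb EW cyc; omega

lemma E2_7 (k i : ℕ) (hk : 7 ≤ k) (hi : i < 2 + k + 1 + 1) :
    E2 k i 7 ↔ (i = 0 ∨ i = 1 ∨ i = 6 ∨ i = 8) := by
  unfold E2 E1 sb EW cyc; omega

lemma map_natAdd_pair {m m' : ℕ} (a b : Fin m') : ({a, b} : Finset (Fin m')).map (Fin.natAddEmb m) =
    {Fin.natAdd m a, Fin.natAdd m b} := by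
  rw [Finset.map_insert, Finset.map_singleton]; rfl

lemma map_castSucc_pair {m : ℕ} (a b : Fin m) : ({a, b} : Finset (Fin m)).map Fin.castSuccEmb =
    {a.castSucc, b.castSucc} := by
  rw [Finset.map_insert, Finset.map_singleton]; rfl

lemma not_CL {m : ℕ} {E : ℕ → ℕ → Prop} {σ : Finset (Fin m)} {a b : Fin m} (ha : a ∈ σ)
    (hb : b ∈ σ) (hab : (a : ℕ) ≠ b) (h : ¬ E a b) : σ ∉ CL m E := by
  intro hσ
  exact h (hσ a ha b hb (fun h' => hab (by rw [h'])))

lemma disj_pair {m : ℕ} {a b c d : Fin m} (h1 : (a : ℕ) ≠ c) (h2 : (a : ℕ) ≠ d) (h3 : (b : ℕ) ≠ c)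
    (h4 : (b : ℕ) ≠ d) : Disjoint ({a, b} : Finset (Fin m)) {c, d} := by
  rw [Finset.disjoint_left]
  intro x hx hy
  rw [Finset.mem_insert, Finset.mem_singleton] at hx hy
  rcases hx with rfl | rfl <;> rcases hy with h | h <;> simp_all

lemma transport {n m : ℕ} {X : Fan n m} {α β α' β' : Finset (Fin m)} (h : Twin X α β)
    (e1 : α = α') (e2 : β = β') : Twin X α' β' := by
  subst e1; subst e2; exact h

/-- The two flag fans. -/
theorem exists_pair (j : ℕ) : ∃ X Y : Fan 3 (2 + (4 + (3 + j)) + 1 + 1 + 1),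
    X.faces = CL _ (EA (4 + (3 + j))) ∧ Y.faces = CL _ (EB (4 + (3 + j))) ∧ GradedIso X Y := by
  obtain ⟨S, hS⟩ := exists_polygon (3 + j)
  generalize hk : 4 + (3 + j) = k at *
  have h7 : 7 ≤ k := by omega
  clear hk
  have fac : ∀ a : ℕ, (ha : a + 1 < k) → IsFacet 2 S.faces {⟨a, by omega⟩, ⟨a + 1, ha⟩} := by
    intro a ha
    refine ⟨?_, ?_⟩
    · rw [hS]
      apply mem_CL_pair (cyc_symm k)
      left; rfl
    · rw [Finset.card_pair]
      intro h
      have := congrArg Fin.val h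
      simp at this
  have t0 := twin_prod (PN 1 le_rfl) S le_rfl (fac 1 (by omega)) (fac 4 (by omega))
    (disj_pair (by simp) (by simp) (by simp) (by simp))
  have t1 : Twin (Prod (PN 1 le_rfl) S) ({⟨3, by omega⟩, ⟨4, by omega⟩} : Finset (Fin (2 + k)))
      {⟨6, by omega⟩, ⟨7, by omega⟩} := by
    refine transport t0 ?_ ?_
    · rw [map_natAdd_pair]; rfl
    · rw [map_natAdd_pair]; rfl
  clear t0
  have f0 : (Prod (PN 1 le_rfl) S).faces = CL (2 + k) (EW k) := by
    rw [Prod_faces, hS]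
    exact join_EW k
  -- first blow-up
  have a02 : EW k 0 2 := by unfold EW; omega
  have m02 : ({⟨0, by omega⟩, ⟨2, by omega⟩} : Finset (Fin (2 + k))) ∈
      (Prod (PN 1 le_rfl) S).faces := by
    rw [f0]; exact mem_CL_pair (EW_symm k) a02
  have ne02 : (⟨0, by omega⟩ : Fin (2 + k)) ≠ ⟨2, by omega⟩ := by
    intro h
    have := congrArg Fin.val h
    simp at this
  have c02 : 2 ≤ ({⟨0, by omega⟩, ⟨2, by omega⟩} : Finset (Fin (2 + k))).card := by
    rw [Finset.card_pair ne02]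
  have f1 : (Stel (Prod (PN 1 le_rfl) S) _ m02 c02).faces = CL (2 + k + 1) (E1 k) := by
    rw [Stel_faces, f0]
    apply stel_sb (EW_symm k) ne02 a02
    · intro i hi h1 h2
      exact nW k i h7 hi
    · simp only; omega
  have t2 : Twin (Stel (Prod (PN 1 le_rfl) S) _ m02 c02)
      ({⟨3, by omega⟩, ⟨4, by omega⟩} : Finset (Fin (2 + k + 1))) {⟨6, by omega⟩, ⟨7, by omega⟩} := by
    refine transport (twin_stel t1 m02 c02 ?_ ?_ ?_ ?_) ?_ ?_
    · rw [f0]
      apply not_CL (a := ⟨2, by omega⟩) (b := ⟨4, by omega⟩) (by simp) (by simp) (by simp)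
      simp only; unfold EW cyc; omega
    · rw [f0]
      apply not_CL (a := ⟨2, by omega⟩) (b := ⟨7, by omega⟩) (by simp) (by simp) (by simp)
      simp only; unfold EW cyc; omega
    · exact disj_pair (by simp) (by simp) (by simp) (by simp)
    · exact disj_pair (by simp) (by simp) (by simp) (by simp)
    · rw [map_castSucc_pair]; rfl
    · rw [map_castSucc_pair]; rfl
  generalize Stel (Prod (PN 1 le_rfl) S) _ m02 c02 = Z1 at f1 t2
  -- second blow-up
  have a05 : E1 k 0 5 := E1_symm k _ _ ((n1_0 k 5 h7 (by omega)).2 (by omega))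
  have ne05 : (⟨0, by omega⟩ : Fin (2 + k + 1)) ≠ ⟨5, by omega⟩ := by
    intro h
    have := congrArg Fin.val h
    simp at this
  have m05 : ({⟨0, by omega⟩, ⟨5, by omega⟩} : Finset (Fin (2 + k + 1))) ∈ Z1.faces := by
    rw [f1]; exact mem_CL_pair (E1_symm k) a05
  have c05 : 2 ≤ ({⟨0, by omega⟩, ⟨5, by omega⟩} : Finset (Fin (2 + k + 1))).card := by
    rw [Finset.card_pair ne05]
  have f2 : (Stel Z1 _ m05 c05).faces = CL (2 + k + 1 + 1) (E2 k) := by
    rw [Stel_faces, f1]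
    apply stel_sb (E1_symm k) ne05 a05
    · intro i hi h1 h2
      simp only
      rw [n1_0 k i h7 hi, n1_5 k i h7 hi]
      omega
    · simp only; omega
  have t3 : Twin (Stel Z1 _ m05 c05)
      ({⟨3, by omega⟩, ⟨4, by omega⟩} : Finset (Fin (2 + k + 1 + 1)))
      {⟨6, by omega⟩, ⟨7, by omega⟩} := by
    refine transport (twin_stel t2 m05 c05 ?_ ?_ ?_ ?_) ?_ ?_
    · rw [f1]
      apply not_CL (a := ⟨5, by omega⟩) (b := ⟨3, by omega⟩) (by simp) (by simp) (by simp)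
      simp only
      rw [n1_3 k 5 h7 (by omega)]; omega
    · rw [f1]
      apply not_CL (a := ⟨5, by omega⟩) (b := ⟨7, by omega⟩) (by simp) (by simp) (by simp)
      simp only
      rw [n1_7 k 5 h7 (by omega)]; omega
    · exact disj_pair (by simp) (by simp) (by simp) (by simp)
    · exact disj_pair (by simp) (by simp) (by simp) (by simp)
    · rw [map_castSucc_pair]; rfl
    · rw [map_castSucc_pair]; rfl
  generalize Stel Z1 _ m05 c05 = Z2 at f2 t3
  refine ⟨Stel Z2 _ t3.ha t3.ca, Stel Z2 _ t3.hb t3.cb, ?_, ?_, gradedIso_stel Z2 t3⟩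
  · rw [Stel_faces, f2]
    apply stel_sb (E2_symm k)
    · intro h
      have := congrArg Fin.val h
      simp at this
    · exact (E2_4 k 3 h7 (by omega)).2 (by omega)
    · intro i hi h1 h2
      simp only at h1 h2 ⊢
      rw [E2_3 k i h7 hi, E2_4 k i h7 hi]
      omega
    · simp only; omega
  · rw [Stel_faces, f2]
    apply stel_sb (E2_symm k)
    · intro h
      have := congrArg Fin.val h
      simp at this
    · exact (E2_7 k 6 h7 (by omega)).2 (by omega)
    · intro i hi h1 h2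
      simp only at h1 h2 ⊢
      rw [E2_6 k i h7 hi, E2_7 k i h7 hi]
      omega
    · simp only; omega

end Pool.Agent.Helper22.FL
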