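import Pool.Agent.Helper22.BU.Defs

/-!
Products of fans and joins of complexes.
-/

namespace Pool.Agent.Helper22.FL

open Pool.Agent.Helper21.Toric Pool.Agent.Helper22.BU Finset

variable {n m n' m' : ℕ}

/-- the vertices of the first factor in a set of vertices of a join -/
def lft {m m' : ℕ} (σ : Finset (Fin (m + m'))) : Finset (Fin m) :=
  Finset.univ.filter fun i => Fin.castAdd m' i ∈ σ

/-- the vertices of the second factor in a set of vertices of a join -/
def rgt {m m' : ℕ} (σ : Finset (Fin (m + m'))) : Finset (Fin m') :=
  Finset.univ.filter fun j => Fin.natAdd m j ∈ σ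

/-- the join of two complexes; the vertices of the first one come first -/
def join {m m' : ℕ} (K : Set (Finset (Fin m))) (L : Set (Finset (Fin m'))) :
    Set (Finset (Fin (m + m'))) :=
  {σ | lft σ ∈ K ∧ rgt σ ∈ L}

lemma mem_lft {σ : Finset (Fin (m + m'))} {i : Fin m} : i ∈ lft σ ↔ Fin.castAdd m' i ∈ σ := by
  simp [lft]

lemma mem_rgt {σ : Finset (Fin (m + m'))} {j : Fin m'} : j ∈ rgt σ ↔ Fin.natAdd m j ∈ σ := by
  simp [rgt]

lemma castAdd_ne_natAdd (i : Fin m) (j : Fin m') : Fin.castAdd m' i ≠ Fin.natAdd m j := by
  intro h
  have := congrArg Fin.val h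
  simp at this
  omega

lemma lft_mono {σ τ : Finset (Fin (m + m'))} (h : σ ⊆ τ) : lft σ ⊆ lft τ := by
  intro i hi
  exact mem_lft.2 (h (mem_lft.1 hi))

lemma rgt_mono {σ τ : Finset (Fin (m + m'))} (h : σ ⊆ τ) : rgt σ ⊆ rgt τ := by
  intro i hi
  exact mem_rgt.2 (h (mem_rgt.1 hi))

/-- rays of the product -/
def pry (r : Fin m → Fin n → ℤ) (r' : Fin m' → Fin n' → ℤ) : Fin (m + m') → Fin (n + n') → ℤ :=
  Fin.addCases (fun i => Fin.append (r i) 0) (fun j => Fin.append 0 (r' j))

@[simp] lemma pry_left (r : Fin m → Fin n → ℤ) (r' : Fin m' → Fin n' → ℤ) (i : Fin m) :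
    pry r r' (Fin.castAdd m' i) = Fin.append (r i) 0 := by simp [pry]

@[simp] lemma pry_right (r : Fin m → Fin n → ℤ) (r' : Fin m' → Fin n' → ℤ) (j : Fin m') :
    pry r r' (Fin.natAdd m j) = Fin.append 0 (r' j) := by simp [pry]

lemma vec_pry (r : Fin m → Fin n → ℤ) (r' : Fin m' → Fin n' → ℤ) (c : Fin (m + m') → ℝ) :
    vec (pry r r') c = Fin.append (vec r (fun i => c (Fin.castAdd m' i)))
      (vec r' (fun j => c (Fin.natAdd m j))) := by
  ext k
  simp only [vec]
  rw [Fin.sum_univ_add]
  simp only [pry_left, pry_right]
  induction k using Fin.addCases with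
  | left k => simp [vec]
  | right k => simp [vec]

/-- concatenation of vectors -/
def appL (n n' : ℕ) : ((Fin n → ℤ) × (Fin n' → ℤ)) ≃ₗ[ℤ] (Fin (n + n') → ℤ) where
  toFun x := Fin.append x.1 x.2
  map_add' x y := by
    ext k
    induction k using Fin.addCases with
    | left k => simp
    | right k => simp
  map_smul' a x := by
    ext k
    induction k using Fin.addCases with
    | left k => simp
    | right k => simp
  invFun y := (fun i => y (Fin.castAdd n' i), fun j => y (Fin.natAdd n j))
  left_inv x := by
    ext k <;> simp
  right_inv y := by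
    ext k
    induction k using Fin.addCases with
    | left k => simp
    | right k => simp

lemma appL_apply (x : (Fin n → ℤ) × (Fin n' → ℤ)) : appL n n' x = Fin.append x.1 x.2 := rfl

/-- The fan of the product of two toric manifolds. -/
def Prod (X : Fan n m) (Z : Fan n' m') : Fan (n + n') (m + m') :=
  mkFan (pry X.ray Z.ray) (join X.faces Z.faces)
    (by
      rintro σ ⟨h1, h2⟩ τ hτ
      exact ⟨X.down_closed _ h1 _ (lft_mono hτ), Z.down_closed _ h2 _ (rgt_mono hτ)⟩)
    (by
      intro i
      induction i using Fin.addCases with
      | left i =>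
        have e1 : lft ({Fin.castAdd m' i} : Finset (Fin (m + m'))) = {i} := by
          ext k; simp [mem_lft]
        have e2 : rgt ({Fin.castAdd m' i} : Finset (Fin (m + m'))) = ∅ := by
          ext k
          simp only [mem_rgt, Finset.mem_singleton, Finset.notMem_empty, iff_false]
          exact (castAdd_ne_natAdd i k).symm
        refine ⟨?_, ?_⟩
        · rw [e1]; exact X.vertex_mem i
        · rw [e2]; exact Z.empty_mem
      | right j =>
        have e1 : lft ({Fin.natAdd m j} : Finset (Fin (m + m'))) = ∅ := by
          ext k
          simp only [mem_lft, Finset.mem_singleton, Finset.notMem_empty, iff_false]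
          exact castAdd_ne_natAdd k j
        have e2 : rgt ({Fin.natAdd m j} : Finset (Fin (m + m'))) = {j} := by
          ext k; simp [mem_rgt]
        refine ⟨?_, ?_⟩
        · rw [e1]; exact X.empty_mem
        · rw [e2]; exact Z.vertex_mem j)
    (by
      refine ⟨?_, ?_⟩
      · have : lft (∅ : Finset (Fin (m + m'))) = ∅ := by ext; simp [mem_lft]
        rw [this]; exact X.empty_mem
      · have : rgt (∅ : Finset (Fin (m + m'))) = ∅ := by ext; simp [mem_rgt]
        rw [this]; exact Z.empty_mem)
    (by
      rintro σ ⟨h1, h2⟩
      obtain ⟨b, f, hf, hb⟩ := X.smooth _ h1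
      obtain ⟨b', f', hf', hb'⟩ := Z.smooth _ h2
      refine ⟨((b.prod b').reindex finSumFinEquiv).map (appL n n'),
        Fin.addCases (fun i => Fin.castAdd n' (f i)) (fun j => Fin.natAdd n (f' j)), ?_, ?_⟩
      · intro i hi j hj hij
        induction i using Fin.addCases with
        | left i =>
          induction j using Fin.addCases with
          | left j =>
            simp only [Fin.addCases_left] at hij
            have h3 : f i = f j := Fin.castAdd_injective _ _ hij
            rw [hf (mem_lft.2 hi) (mem_lft.2 hj) h3]
          | right j =>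
            simp only [Fin.addCases_left, Fin.addCases_right] at hij
            exact absurd hij (castAdd_ne_natAdd _ _)
        | right i =>
          induction j using Fin.addCases with
          | left j =>
            simp only [Fin.addCases_left, Fin.addCases_right] at hij
            exact absurd hij.symm (castAdd_ne_natAdd _ _)
          | right j =>
            simp only [Fin.addCases_right] at hij
            have h3 : f' i = f' j := Fin.natAdd_injective _ _ hij
            rw [hf' (mem_rgt.2 hi) (mem_rgt.2 hj) h3]
      · intro i hi
        induction i using Fin.addCases with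
        | left i =>
          simp only [Fin.addCases_left]
          rw [Module.Basis.map_apply, Module.Basis.reindex_apply,
            finSumFinEquiv_symm_apply_castAdd, pry_left, appL_apply]
          rw [Module.Basis.prod_apply_inl_fst, Module.Basis.prod_apply_inl_snd,
            hb i (mem_lft.2 hi)]
        | right i =>
          simp only [Fin.addCases_right]
          rw [Module.Basis.map_apply, Module.Basis.reindex_apply,
            finSumFinEquiv_symm_apply_natAdd, pry_right, appL_apply]
          rw [Module.Basis.prod_apply_inr_fst, Module.Basis.prod_apply_inr_snd,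
            hb' i (mem_rgt.2 hi)])
    (by
      intro σ hσ τ hτ c d hc hcσ hd hdτ h
      rw [vec_pry, vec_pry] at h
      have h1 : vec X.ray (fun i => c (Fin.castAdd m' i)) = vec X.ray (fun i => d (Fin.castAdd m' i)) := by
        ext k
        have := congrFun h (Fin.castAdd n' k)
        simpa using this
      have h2 : vec Z.ray (fun i => c (Fin.natAdd m i)) = vec Z.ray (fun i => d (Fin.natAdd m i)) := by
        ext k
        have := congrFun h (Fin.natAdd n k)
        simpa using this
      have h3 := uniq hσ.1 hτ.1 (fun i => hc _) (fun i hi => hcσ _ (fun h => hi (mem_lft.2 h)))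
        (fun i => hd _) (fun i hi => hdτ _ (fun h => hi (mem_lft.2 h))) h1
      have h4 := uniq hσ.2 hτ.2 (fun i => hc _) (fun i hi => hcσ _ (fun h => hi (mem_rgt.2 h)))
        (fun i => hd _) (fun i hi => hdτ _ (fun h => hi (mem_rgt.2 h))) h2
      ext k
      induction k using Fin.addCases with
      | left k => exact congrFun h3 k
      | right k => exact congrFun h4 k)
    (by
      intro v
      obtain ⟨ρ, hρ, hv⟩ := X.complete (fun i => v (Fin.castAdd n' i))
      obtain ⟨ρ', hρ', hv'⟩ := Z.complete (fun i => v (Fin.natAdd n i))
      rw [mem_realCone] at hv hv'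
      obtain ⟨c, hc, hcρ, hv⟩ := hv
      obtain ⟨c', hc', hcρ', hv'⟩ := hv'
      have e1 : lft (ρ.map (Fin.castAddEmb m') ∪ ρ'.map (Fin.natAddEmb m)) = ρ := by
        ext k
        simp only [mem_lft, Finset.mem_union, Finset.mem_map]
        constructor
        · rintro (⟨i, hi, h⟩ | ⟨i, hi, h⟩)
          · rw [← Fin.castAdd_injective _ _ h]; exact hi
          · exact absurd h.symm (castAdd_ne_natAdd _ _)
        · intro h
          exact Or.inl ⟨k, h, rfl⟩
      have e2 : rgt (ρ.map (Fin.castAddEmb m') ∪ ρ'.map (Fin.natAddEmb m)) = ρ' := by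
        ext k
        simp only [mem_rgt, Finset.mem_union, Finset.mem_map]
        constructor
        · rintro (⟨i, hi, h⟩ | ⟨i, hi, h⟩)
          · exact absurd h (castAdd_ne_natAdd _ _)
          · rw [← Fin.natAdd_injective _ _ h]; exact hi
        · intro h
          exact Or.inr ⟨k, h, rfl⟩
      refine ⟨ρ.map (Fin.castAddEmb m') ∪ ρ'.map (Fin.natAddEmb m), ⟨?_, ?_⟩,
        Fin.addCases c c', ?_, ?_, ?_⟩
      · rw [e1]; exact hρ
      · rw [e2]; exact hρ'
      · intro i
        induction i using Fin.addCases with
        | left i => simp only [Fin.addCases_left]; exact hc i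
        | right i => simp only [Fin.addCases_right]; exact hc' i
      · intro i hi
        induction i using Fin.addCases with
        | left i =>
          simp only [Fin.addCases_left]
          apply hcρ
          intro h
          rw [← e1] at h
          exact hi (mem_lft.1 h)
        | right i =>
          simp only [Fin.addCases_right]
          apply hcρ'
          intro h
          rw [← e2] at h
          exact hi (mem_rgt.1 h)
      · rw [vec_pry]
        simp only [Fin.addCases_left, Fin.addCases_right]
        rw [← hv, ← hv']
        ext k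
        induction k using Fin.addCases with
        | left k => simp
        | right k => simp)

lemma Prod_faces (X : Fan n m) (Z : Fan n' m') : (Prod X Z).faces = join X.faces Z.faces := rfl

lemma Prod_ray (X : Fan n m) (Z : Fan n' m') : (Prod X Z).ray = pry X.ray Z.ray := rfl

end Pool.Agent.Helper22.FL
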