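import Pool.Agent.Helper22.FL.Ring
import Pool.Agent.Helper22.FL.Prod
import Pool.Agent.Helper22.BU.PN

/-!
Flag complexes given by graphs on initial segments of the natural numbers, and the fans used for the
examples.
-/

namespace Pool.Agent.Helper22.FL

open Pool.Agent.Helper21.Toric Pool.Agent.Helper22.BU Finset

variable {n m : ℕ}

/-- the clique complex of a graph on `{0, ..., m-1}` -/
def CL (m : ℕ) (E : ℕ → ℕ → Prop) : Set (Finset (Fin m)) :=
  {σ | ∀ i ∈ σ, ∀ j ∈ σ, i ≠ j → E i j}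

lemma stel_CL {E E' : ℕ → ℕ → Prop} (hs : ∀ i j, E i j → E j i) {p q : Fin m} (hE : E p q)
    (h1 : ∀ i j : ℕ, i < m → j < m → i ≠ j →
      (E' i j ↔ E i j ∧ ¬ ((i = p ∧ j = q) ∨ (i = q ∧ j = p))))
    (h2 : ∀ i < m, (E' m i ↔ (i = p ∨ E i p) ∧ (i = q ∨ E i q)))
    (h3 : ∀ i < m, (E' i m ↔ (i = p ∨ E i p) ∧ (i = q ∨ E i q))) (hpq : p ≠ q) :
    stel (CL m E) {p, q} = CL (m + 1) E' := by
  ext σ
  constructor
  · rintro ⟨ha, hb, hc⟩ i hi j hj hij
    have hl : ∀ i : Fin m, i.castSucc ∈ σ → Fin.last m ∈ σ → ((i : ℕ) = p ∨ E i p) ∧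
        ((i : ℕ) = q ∨ E i q) := by
      intro i hi hlast
      have h4 := hc hlast
      have hi' : i ∈ old σ ∪ {p, q} := Finset.mem_union_left _ (mem_old.2 hi)
      constructor
      · by_cases hp : i = p
        · left; rw [hp]
        · right; exact h4 i hi' p (by simp) hp
      · by_cases hq : i = q
        · left; rw [hq]
        · right; exact h4 i hi' q (by simp) hq
    induction i using Fin.lastCases with
    | last =>
      induction j using Fin.lastCases with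
      | last => exact absurd rfl hij
      | cast j =>
        simp only [Fin.val_last, Fin.val_castSucc]
        rw [h2 j j.2]
        exact hl j hj hi
    | cast i =>
      induction j using Fin.lastCases with
      | last =>
        simp only [Fin.val_last, Fin.val_castSucc]
        rw [h3 i i.2]
        exact hl i hi hj
      | cast j =>
        simp only [Fin.val_castSucc]
        have hne : i ≠ j := fun h => hij (by rw [h])
        rw [h1 i j i.2 j.2 (fun h => hne (Fin.ext h))]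
        refine ⟨ha i (mem_old.2 hi) j (mem_old.2 hj) hne, ?_⟩
        intro h
        apply hb
        intro x hx
        rw [Finset.mem_insert, Finset.mem_singleton] at hx
        rcases h with ⟨e1, e2⟩ | ⟨e1, e2⟩
        · rcases hx with rfl | rfl
          · rw [← Fin.ext e1]; exact mem_old.2 hi
          · rw [← Fin.ext e2]; exact mem_old.2 hj
        · rcases hx with rfl | rfl
          · rw [← Fin.ext e2]; exact mem_old.2 hj
          · rw [← Fin.ext e1]; exact mem_old.2 hi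
  · intro h
    have hold : old σ ∈ CL m E := by
      intro i hi j hj hij
      have h4 := h _ (mem_old.1 hi) _ (mem_old.1 hj) (fun h' => hij (Fin.castSucc_injective _ h'))
      simp only [Fin.val_castSucc] at h4
      exact ((h1 i j i.2 j.2 (fun h' => hij (Fin.ext h'))).1 h4).1
    refine ⟨hold, ?_, ?_⟩
    · intro hsub
      have hp : p ∈ old σ := hsub (by simp)
      have hq : q ∈ old σ := hsub (by simp)
      have h4 := h _ (mem_old.1 hp) _ (mem_old.1 hq) (fun h' => hpq (Fin.castSucc_injective _ h'))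
      simp only [Fin.val_castSucc] at h4
      exact ((h1 p q p.2 q.2 (fun h' => hpq (Fin.ext h'))).1 h4).2 (Or.inl ⟨rfl, rfl⟩)
    · intro hlast
      have hl : ∀ i ∈ old σ, (i = p ∨ E i p) ∧ (i = q ∨ E i q) := by
        intro i hi
        have h4 := h _ hlast _ (mem_old.1 hi) (Fin.castSucc_lt_last i).ne'
        simp only [Fin.val_castSucc, Fin.val_last] at h4
        have h5 := (h2 i i.2).1 h4
        refine ⟨h5.1.imp (fun h' => Fin.ext h') id, h5.2.imp (fun h' => Fin.ext h') id⟩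
      intro i hi j hj hij
      rw [Finset.mem_union, Finset.mem_insert, Finset.mem_singleton] at hi hj
      rcases hi with hi | hi | hi
      · rcases hj with hj | hj | hj
        · exact hold i hi j hj hij
        · subst hj; exact (hl i hi).1.resolve_left hij
        · subst hj; exact (hl i hi).2.resolve_left hij
      · subst hi
        rcases hj with hj | hj | hj
        · exact hs _ _ ((hl j hj).1.resolve_left (Ne.symm hij))
        · exact absurd hj.symm hij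
        · subst hj; exact hE
      · subst hi
        rcases hj with hj | hj | hj
        · exact hs _ _ ((hl j hj).2.resolve_left (Ne.symm hij))
        · subst hj; exact hs _ _ hE
        · exact absurd hj.symm hij

/-- adjacency in a polygon with `k` vertices -/
def cyc (k i j : ℕ) : Prop := j = i + 1 ∨ i = j + 1 ∨ (i = 0 ∧ j + 1 = k) ∨ (j = 0 ∧ i + 1 = k)

lemma cyc_symm (k : ℕ) (i j : ℕ) (h : cyc k i j) : cyc k j i := by
  unfold cyc at *; omega

/-- toric surfaces -/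
lemma exists_polygon (j : ℕ) : ∃ S : Fan 2 (4 + j), S.faces = CL (4 + j) (cyc (4 + j)) := by
  induction j with
  | zero =>
    have h1 : ({0, 2} : Finset (Fin 3)) ∈ (PN 2 (by norm_num)).faces := by
      change ({0, 2} : Finset (Fin 3)) ≠ Finset.univ
      decide
    refine ⟨Stel (PN 2 (by norm_num)) {0, 2} h1 (by decide), ?_⟩
    change stel {σ : Finset (Fin 3) | σ ≠ Finset.univ} {0, 2} = CL 4 (cyc 4)
    have key : ∀ σ : Finset (Fin (3+1)), decide (old σ ≠ univ ∧ ¬{0, 2} ⊆ old σ ∧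
        (Fin.last 3 ∈ σ → old σ ∪ {0, 2} ≠ univ)) = decide (∀ i ∈ σ, ∀ j ∈ σ, i ≠ j →
        (j:ℕ) = ↑i + 1 ∨ (i:ℕ) = ↑j + 1 ∨ (i:ℕ) = 0 ∧ (j:ℕ) + 1 = 4 ∨
        (j:ℕ) = 0 ∧ (i:ℕ) + 1 = 4) := by decide
    ext σ
    exact decide_eq_decide.1 (key σ)
  | succ j ih =>
    obtain ⟨S, hS⟩ := ih
    let p : Fin (4 + j) := ⟨0, by omega⟩
    let q : Fin (4 + j) := ⟨3 + j, by omega⟩
    have hpq : p ≠ q := by
      intro h
      have := congrArg Fin.val h
      have h3 : (0 : ℕ) = 3 + j := this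
      omega
    have hE : cyc (4 + j) p q := by
      change cyc (4 + j) 0 (3 + j)
      unfold cyc; omega
    have hface : ({p, q} : Finset (Fin (4 + j))) ∈ S.faces := by
      rw [hS]
      intro x hx y hy hxy
      rw [Finset.mem_insert, Finset.mem_singleton] at hx hy
      rcases hx with rfl | rfl <;> rcases hy with rfl | rfl
      · exact absurd rfl hxy
      · exact hE
      · exact cyc_symm _ _ _ hE
      · exact absurd rfl hxy
    refine ⟨Stel S {p, q} hface (by rw [Finset.card_pair hpq]), ?_⟩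
    rw [Stel_faces, hS]
    apply stel_CL (cyc_symm _) hE _ _ _ hpq
    · intro a b ha hb hab
      change cyc (4 + j + 1) a b ↔ cyc (4 + j) a b ∧ ¬ ((a = 0 ∧ b = 3 + j) ∨ (a = 3 + j ∧ b = 0))
      unfold cyc
      omega
    · intro a ha
      change cyc (4 + j + 1) (4 + j) a ↔ (a = 0 ∨ cyc (4 + j) a 0) ∧
        (a = 3 + j ∨ cyc (4 + j) a (3 + j))
      unfold cyc
      omega
    · intro a ha
      change cyc (4 + j + 1) a (4 + j) ↔ (a = 0 ∨ cyc (4 + j) a 0) ∧
        (a = 3 + j ∨ cyc (4 + j) a (3 + j))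
      unfold cyc
      omega

/-- the graph of the suspension of a polygon -/
def EW (k i j : ℕ) : Prop :=
  (2 ≤ i ∧ 2 ≤ j ∧ cyc k (i - 2) (j - 2)) ∨ (i < 2 ∧ 2 ≤ j) ∨ (j < 2 ∧ 2 ≤ i)

/-- the graph obtained by subdividing the edge `{p, q}` with common neighbours `c`, `d`; the new
vertex is `N` -/
def sb (N p q c d : ℕ) (E : ℕ → ℕ → Prop) (i j : ℕ) : Prop :=
  (i < N ∧ j < N ∧ E i j ∧ ¬ ((i = p ∧ j = q) ∨ (i = q ∧ j = p))) ∨
  (i = N ∧ (j = p ∨ j = q ∨ j = c ∨ j = d)) ∨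
  (j = N ∧ (i = p ∨ i = q ∨ i = c ∨ i = d))

lemma sb_symm {N p q c d : ℕ} {E : ℕ → ℕ → Prop} (hs : ∀ i j, E i j → E j i) (i j : ℕ)
    (h : sb N p q c d E i j) : sb N p q c d E j i := by
  rcases h with ⟨h1, h2, h3, h4⟩ | h | h
  · left
    refine ⟨h2, h1, hs _ _ h3, ?_⟩
    omega
  · exact Or.inr (Or.inr h)
  · exact Or.inr (Or.inl h)

lemma stel_sb {E : ℕ → ℕ → Prop} (hs : ∀ i j, E i j → E j i) {p q : Fin m} {c d : ℕ}
    (hpq : p ≠ q) (hE : E p q) (hcd : ∀ i < m, i ≠ p → i ≠ q → ((E i p ∧ E i q) ↔ (i = c ∨ i = d)))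
    (hcp : c ≠ p ∧ c ≠ q ∧ d ≠ p ∧ d ≠ q) :
    stel (CL m E) {p, q} = CL (m + 1) (sb m p q c d E) := by
  have key : ∀ i < m, ((i = p ∨ i = q ∨ i = c ∨ i = d) ↔ (i = p ∨ E i p) ∧ (i = q ∨ E i q)) := by
    intro i hi
    by_cases h1 : i = p
    · subst h1
      exact ⟨fun _ => ⟨Or.inl rfl, Or.inr hE⟩, fun _ => Or.inl rfl⟩
    · by_cases h2 : i = q
      · subst h2
        exact ⟨fun _ => ⟨Or.inr (hs _ _ hE), Or.inl rfl⟩, fun _ => Or.inr (Or.inl rfl)⟩
      · have h3 := hcd i hi h1 h2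
        constructor
        · intro h
          have h4 := h3.2 ((h.resolve_left h1).resolve_left h2)
          exact ⟨Or.inr h4.1, Or.inr h4.2⟩
        · rintro ⟨h4, h5⟩
          exact Or.inr (Or.inr (h3.1 ⟨h4.resolve_left h1, h5.resolve_left h2⟩))
  apply stel_CL hs hE _ _ _ hpq
  · intro i j hi hj hij
    constructor
    · rintro (h | h | h)
      · exact h.2.2
      · exact absurd h.1 hi.ne
      · exact absurd h.1 hj.ne
    · intro h
      exact Or.inl ⟨hi, hj, h⟩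
  · intro i hi
    rw [← key i hi]
    constructor
    · rintro (h | h | h)
      · exact absurd h.1 (lt_irrefl _)
      · exact h.2
      · exact absurd h.1 hi.ne
    · intro h
      exact Or.inr (Or.inl ⟨rfl, h⟩)
  · intro i hi
    rw [← key i hi]
    constructor
    · rintro (h | h | h)
      · exact absurd h.2.1 (lt_irrefl _)
      · exact absurd h.1 hi.ne
      · exact h.2
    · intro h
      exact Or.inr (Or.inr ⟨rfl, h⟩)

lemma EW_symm (k : ℕ) (i j : ℕ) (h : EW k i j) : EW k j i := by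
  unfold EW cyc at *; omega

/-- the suspension with the edge `{0, 2}` subdivided -/
def E1 (k : ℕ) : ℕ → ℕ → Prop := sb (2 + k) 0 2 3 (k + 1) (EW k)

/-- the same with the edge `{0, 5}` subdivided -/
def E2 (k : ℕ) : ℕ → ℕ → Prop := sb (2 + k + 1) 0 5 4 6 (E1 k)

/-- the first example -/
def EA (k : ℕ) : ℕ → ℕ → Prop := sb (2 + k + 1 + 1) 3 4 0 1 (E2 k)

/-- the second example -/
def EB (k : ℕ) : ℕ → ℕ → Prop := sb (2 + k + 1 + 1) 6 7 0 1 (E2 k)

lemma E1_symm (k : ℕ) (i j : ℕ) (h : E1 k i j) : E1 k j i := sb_symm (EW_symm k) i j h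

lemma E2_symm (k : ℕ) (i j : ℕ) (h : E2 k i j) : E2 k j i := sb_symm (E1_symm k) i j h

lemma mem_CL_pair {E : ℕ → ℕ → Prop} (hs : ∀ i j, E i j → E j i) {p q : Fin m} (h : E p q) :
    ({p, q} : Finset (Fin m)) ∈ CL m E := by
  intro x hx y hy hxy
  rw [Finset.mem_insert, Finset.mem_singleton] at hx hy
  rcases hx with rfl | rfl <;> rcases hy with rfl | rfl
  · exact absurd rfl hxy
  · exact h
  · exact hs _ _ h
  · exact absurd rfl hxy

lemma hu2 : ∀ ρ : Finset (Fin 2), ρ ≠ Finset.univ ↔ ¬ (0 ∈ ρ ∧ 1 ∈ ρ) := by decide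

lemma join_EW1 (k : ℕ) {σ : Finset (Fin (2 + k))}
    (h : σ ∈ join {σ : Finset (Fin 2) | σ ≠ Finset.univ} (CL k (cyc k))) :
    σ ∈ CL (2 + k) (EW k) := by
  obtain ⟨h1, h2⟩ := h
  intro i hi j hj hij
  have h1' : ¬ (0 ∈ lft σ ∧ 1 ∈ lft σ) := (hu2 _).1 h1
  by_cases hi2 : (i : ℕ) < 2
  · by_cases hj2 : (j : ℕ) < 2
    · exfalso
      apply h1'
      have hne : (i : ℕ) ≠ j := fun h => hij (Fin.ext h)
      have h0 : (i : ℕ) = 0 ∧ (j : ℕ) = 1 ∨ (i : ℕ) = 1 ∧ (j : ℕ) = 0 := by omega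
      rcases h0 with ⟨e1, e2⟩ | ⟨e1, e2⟩
      · refine ⟨mem_lft.2 ?_, mem_lft.2 ?_⟩
        · rw [show Fin.castAdd k (0 : Fin 2) = i from Fin.ext e1.symm]; exact hi
        · rw [show Fin.castAdd k (1 : Fin 2) = j from Fin.ext e2.symm]; exact hj
      · refine ⟨mem_lft.2 ?_, mem_lft.2 ?_⟩
        · rw [show Fin.castAdd k (0 : Fin 2) = j from Fin.ext e2.symm]; exact hj
        · rw [show Fin.castAdd k (1 : Fin 2) = i from Fin.ext e1.symm]; exact hi
    · right; left; omega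
  · by_cases hj2 : (j : ℕ) < 2
    · right; right; omega
    · left
      refine ⟨by omega, by omega, ?_⟩
      have hik : (i : ℕ) - 2 < k := by have := i.2; omega
      have hjk : (j : ℕ) - 2 < k := by have := j.2; omega
      have ei : Fin.natAdd 2 ⟨(i : ℕ) - 2, hik⟩ = i := Fin.ext (by
        rw [Fin.val_natAdd]; simp only; omega)
      have ej : Fin.natAdd 2 ⟨(j : ℕ) - 2, hjk⟩ = j := Fin.ext (by
        rw [Fin.val_natAdd]; simp only; omega)
      have m1 : (⟨(i : ℕ) - 2, hik⟩ : Fin k) ∈ rgt σ := mem_rgt.2 (by rw [ei]; exact hi)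
      have m2 : (⟨(j : ℕ) - 2, hjk⟩ : Fin k) ∈ rgt σ := mem_rgt.2 (by rw [ej]; exact hj)
      have m3 : (⟨(i : ℕ) - 2, hik⟩ : Fin k) ≠ ⟨(j : ℕ) - 2, hjk⟩ := fun h => hij (by
        rw [← ei, ← ej, h])
      exact h2 _ m1 _ m2 m3

lemma join_EW2 (k : ℕ) {σ : Finset (Fin (2 + k))} (h : σ ∈ CL (2 + k) (EW k)) :
    σ ∈ join {σ : Finset (Fin 2) | σ ≠ Finset.univ} (CL k (cyc k)) := by
  refine ⟨(hu2 _).2 ?_, ?_⟩
  · rintro ⟨h0, h1⟩
    have h2 := h _ (mem_lft.1 h0) _ (mem_lft.1 h1) (by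
      intro h'
      exact absurd (Fin.castAdd_injective _ _ h') (by decide))
    rw [Fin.val_castAdd, Fin.val_castAdd] at h2
    unfold EW at h2
    rcases h2 with h2 | h2 | h2
    · exact absurd h2.1 (by decide)
    · exact absurd h2.2 (by decide)
    · exact absurd h2.2 (by decide)
  · intro i hi j hj hij
    have h2 := h _ (mem_rgt.1 hi) _ (mem_rgt.1 hj) (fun h' => hij (Fin.natAdd_injective _ _ h'))
    rw [Fin.val_natAdd, Fin.val_natAdd] at h2
    unfold EW at h2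
    rw [Nat.add_sub_cancel_left, Nat.add_sub_cancel_left] at h2
    rcases h2 with h2 | h2 | h2
    · exact h2.2.2
    · omega
    · omega

lemma join_EW (k : ℕ) : join {σ : Finset (Fin 2) | σ ≠ Finset.univ} (CL k (cyc k)) =
    CL (2 + k) (EW k) :=
  Set.ext fun _ => ⟨join_EW1 k, join_EW2 k⟩

lemma nW (k i : ℕ) (hk : 7 ≤ k) (hi : i < 2 + k) :
    (EW k i 0 ∧ EW k i 2) ↔ (i = 3 ∨ i = k + 1) := by
  unfold EW cyc; omega

lemma n1_0 (k i : ℕ) (hk : 7 ≤ k) (hi : i < 2 + k + 1) :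
    E1 k i 0 ↔ (3 ≤ i) := by
  unfold E1 sb EW cyc; omega

lemma n1_5 (k i : ℕ) (hk : 7 ≤ k) (hi : i < 2 + k + 1) :
    E1 k i 5 ↔ (i = 0 ∨ i = 1 ∨ i = 4 ∨ i = 6) := by
  unfold E1 sb EW cyc; omega

lemma n1_3 (k i : ℕ) (hk : 7 ≤ k) (hi : i < 2 + k + 1) :
    E1 k i 3 ↔ (i = 0 ∨ i = 1 ∨ i = 2 ∨ i = 4 ∨ i = k + 2) := by
  unfold E1 sb EW cyc; omega

lemma n1_4 (k i : ℕ) (hk : 7 ≤ k) (hi : i < 2 + k + 1) :
    E1 k i 4 ↔ (i = 0 ∨ i = 1 ∨ i = 3 ∨ i = 5) := by
  unfold E1 sb EW cyc; omega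

lemma n1_6 (k i : ℕ) (hk : 7 ≤ k) (hi : i < 2 + k + 1) :
    E1 k i 6 ↔ (i = 0 ∨ i = 1 ∨ i = 5 ∨ i = 7) := by
  unfold E1 sb EW cyc; omega

lemma n1_7 (k i : ℕ) (hk : 7 ≤ k) (hi : i < 2 + k + 1) :
    E1 k i 7 ↔ (i = 0 ∨ i = 1 ∨ i = 6 ∨ i = 8) := by
  unfold E1 sb EW cyc; omega

end Pool.Agent.Helper22.FL
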