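import Pool.Agent.Helper22.FL.Prob2

/-!
Growing protected sets; the bound with free parameters.
-/

namespace Pool.Agent.Helper22.FL

open Pool.Agent.Helper21.Toric Pool.Agent.Helper22.BU Finset

variable {n m m' : ℕ}

lemma lam_nonneg (n : ℕ) : 0 ≤ lam n := by
  unfold lam
  have h1 : ((1 : ℝ) / 2) ^ n ≤ 1 := pow_le_one₀ (by norm_num) (by norm_num)
  have h2 : (1 / 2 : ℝ) ^ n / (n + 1) ≤ 1 := by
    apply div_le_one_of_le₀ _ (by positivity)
    have : (0 : ℝ) ≤ n := Nat.cast_nonneg _
    linarith
  linarith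

/-- A set of protected vertices grows during `u` steps. -/
theorem grow (hn : 3 ≤ n) {T T0 : ℕ} {ε α β e D : ℝ} (hα : 0 ≤ α) (hβ : 0 ≤ β) (he : 0 ≤ e)
    (hT0 : T0 ≤ T) (hε2 : ε ≤ 1 / 2) (w : ℕ)
    (hD : (1 + T) * (1 - (1 / 2) ^ n) ^ w + T * ε ≤ D)
    (hbase : ∀ (m : ℕ) (X : Fan n m) (P Q : Finset (Fin m)), n + 4 ≤ m → er n m ≤ ε →
      Good n X.faces (P ∪ Q) → Disjoint P Q → (P.Nonempty ∨ α = 0) → (P ∪ Q).card ≤ T0 →
      probRigid w m X.faces ≤ α * rr X.faces P + β * rr X.faces Q + e)
    (u : ℕ) : ∀ (m : ℕ) (X : Fan n m) (P Q : Finset (Fin m)), n + 4 ≤ m → er n m ≤ ε →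
      u + w ≤ T → Good n X.faces (P ∪ Q) → Disjoint P Q → (P.Nonempty ∨ α = 0) →
      (P ∪ Q).card + u ≤ T0 → probRigid (u + w) m X.faces ≤
        α * rr X.faces P + β * lam n ^ u * rr X.faces Q + e + u * (T * ε * D) := by
  have hq0 : (0 : ℝ) < (1 / 2) ^ n := by positivity
  have hq1 : ((1 : ℝ) / 2) ^ n ≤ 1 := pow_le_one₀ (by norm_num) (by norm_num)
  have hs0 : 0 ≤ 1 - ((1 : ℝ) / 2) ^ n := by linarith
  have hs1 : 1 - ((1 : ℝ) / 2) ^ n ≤ 1 := by linarith
  have hlam := lam_nonneg n
  induction u with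
  | zero =>
    intro m X P Q hm hε _ hG hd hP hc
    rw [Nat.zero_add]
    have := hbase m X P Q hm hε hG hd hP (by omega)
    simpa using this
  | succ u ih =>
    intro m X P Q hm hε huT hG hd hP hc
    classical
    have hm0 : 0 < m := by omega
    have hε0 : 0 ≤ ε := (er_nonneg n m).trans hε
    have hε' : er n (m + 1) ≤ ε := (er_mono n hm0 (Nat.le_succ m)).trans hε
    have hF := centres_pos hn X
    have hFr : (0 : ℝ) < (centres X.faces).card := by exact_mod_cast hF
    have hTε : 0 ≤ (T : ℝ) * ε := by positivity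
    have hD0 : 0 ≤ D := le_trans (by positivity) hD
    have hrP := rr_nonneg X.faces P
    have hrQ := rr_nonneg X.faces Q
    have hBsub : BB X.faces (P ∪ Q) ⊆ centres X.faces := Finset.filter_subset _ _
    have hu0 : (0 : ℝ) ≤ u := Nat.cast_nonneg _
    have hbl : 0 ≤ β * lam n ^ u := by positivity
    have hgg : ∀ σ, 0 ≤ gg n X.faces Q σ := by
      intro σ
      unfold gg
      split_ifs
      · exact rr_nonneg _ _
      · exact rr_nonneg _ _
      · exact le_rfl
    have hc0 : 0 ≤ α * rr X.faces P + e + u * (T * ε * D) := by positivity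
    have hpt : ∀ σ ∈ centres X.faces, probRigid (u + w) (m + 1) (stel X.faces σ) ≤
        (α * rr X.faces P + e + u * (T * ε * D)) + β * lam n ^ u * gg n X.faces Q σ +
        D * (if σ ∈ BB X.faces (P ∪ Q) then 1 else 0) +
        (if σ ∈ (∅ : Finset (Finset (Fin m))) then 1 else 0) +
        (if σ ∈ (∅ : Finset (Finset (Fin m))) then 1 else 0) := by
      intro σ hσ
      have hσ' := mem_centres.1 hσ
      rw [if_neg (Finset.notMem_empty _), add_zero, add_zero]
      have hg0 : 0 ≤ β * lam n ^ u * gg n X.faces Q σ := mul_nonneg hbl (hgg σ)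
      by_cases hu : Und X.faces (P ∪ Q) σ
      · have huP : Und X.faces P σ := fun v hv => hu v (Finset.mem_union_left _ hv)
        have huQ : Und X.faces Q σ := fun v hv => hu v (Finset.mem_union_right _ hv)
        have hB : σ ∉ BB X.faces (P ∪ Q) := by
          rw [BB, Finset.mem_filter]
          exact fun h => h.2 hu
        rw [if_neg hB, mul_zero, add_zero]
        have hαP : α * rr (stel X.faces σ) (P.map Fin.castSuccEmb) ≤ α * rr X.faces P := by
          rcases hP with hP | hP
          · exact mul_le_mul_of_nonneg_left (rr_keep hn X hP huP hσ) hα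
          · rw [hP]; simp
        have hP' : (P.map Fin.castSuccEmb).Nonempty ∨ α = 0 := by
          rcases hP with hP | hP
          · left; simpa using hP
          · right; exact hP
        by_cases hfac : IsFacet n X.faces σ
        · have e1 : P.map Fin.castSuccEmb ∪ insert (Fin.last m) (Q.map Fin.castSuccEmb) =
              insert (Fin.last m) ((P ∪ Q).map Fin.castSuccEmb) := by
            rw [Finset.union_insert, Finset.map_union]
          have hi := ih (m + 1) (Stel X σ hσ'.1 hσ'.2) (P.map Fin.castSuccEmb)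
            (insert (Fin.last m) (Q.map Fin.castSuccEmb)) (by omega) hε' (by omega)
            (by rw [e1]; exact good_new hG hσ hu hfac)
            (by
              rw [Finset.disjoint_insert_right]
              exact ⟨last_notMem_map _, by rwa [Finset.disjoint_map]⟩) hP'
            (by
              rw [e1, Finset.card_insert_of_notMem (last_notMem_map _), Finset.card_map]
              omega)
          rw [Stel_faces] at hi
          have e2 : gg n X.faces Q σ =
              rr (stel X.faces σ) (insert (Fin.last m) (Q.map Fin.castSuccEmb)) := by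
            unfold gg
            rw [if_pos huQ, if_pos hfac]
          rw [e2]
          linarith
        · have hi := ih (m + 1) (Stel X σ hσ'.1 hσ'.2) (P.map Fin.castSuccEmb)
            (Q.map Fin.castSuccEmb) (by omega) hε' (by omega)
            (by rw [← Finset.map_union]; exact good_keep hG hσ hu)
            (by rwa [Finset.disjoint_map]) hP'
            (by rw [← Finset.map_union, Finset.card_map]; omega)
          rw [Stel_faces] at hi
          have e2 : gg n X.faces Q σ = rr (stel X.faces σ) (Q.map Fin.castSuccEmb) := by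
            unfold gg
            rw [if_pos huQ, if_neg hfac]
          rw [e2]
          linarith
      · have hB : σ ∈ BB X.faces (P ∪ Q) := by
          rw [BB, Finset.mem_filter]
          exact ⟨hσ, hu⟩
        rw [if_pos hB]
        have h1 := (bounds hn (u + w) (m + 1) (Stel X σ hσ'.1 hσ'.2) (by omega)).1
        rw [Stel_faces] at h1
        have h2 : ((u + w : ℕ) : ℝ) ≤ T := by exact_mod_cast (by omega : u + w ≤ T)
        have h3 : (1 - ((1 : ℝ) / 2) ^ n) ^ (u + w) ≤ (1 - (1 / 2) ^ n) ^ w :=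
          pow_le_pow_of_le_one hs0 hs1 (Nat.le_add_left _ _)
        have h4 : (1 + ((u + w : ℕ) : ℝ)) * (1 - ((1 : ℝ) / 2) ^ n) ^ (u + w) ≤
            (1 + T) * (1 - (1 / 2) ^ n) ^ w :=
          mul_le_mul (by linarith) h3 (pow_nonneg hs0 _) (by positivity)
        have h5 : ((u + w : ℕ) : ℝ) * er n (m + 1) ≤ T * ε :=
          mul_le_mul h2 hε' (er_nonneg _ _) (Nat.cast_nonneg _)
        linarith
    have e : probRigid (u + 1 + w) m X.faces = (∑ σ ∈ centres X.faces,
        probRigid (u + w) (m + 1) (stel X.faces σ)) / ((centres X.faces).card : ℝ) := by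
      rw [show u + 1 + w = (u + w) + 1 by ring]
      rfl
    rw [e]
    refine (avg3 _ _ _ _ _ _ _ _ hF hBsub (Finset.empty_subset _) (Finset.empty_subset _)
      hpt).trans ?_
    have h7 := card_BB hn X hm0 hG.1 (T := T) (by omega) hε
    have h8 : D * ((BB X.faces (P ∪ Q)).card / (centres X.faces).card) ≤ D * (T * ε) :=
      mul_le_mul_of_nonneg_left h7 hD0
    have h9 := sum_gg hn X hm0 (hε.trans hε2) Q
    have h10 : (∑ σ ∈ centres X.faces, β * lam n ^ u * gg n X.faces Q σ) /
        ((centres X.faces).card : ℝ) ≤ β * lam n ^ (u + 1) * rr X.faces Q := by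
      rw [← Finset.mul_sum, div_le_iff₀ hFr]
      have h11 := mul_le_mul_of_nonneg_left h9 hbl
      refine h11.trans (le_of_eq ?_)
      rw [pow_succ]
      ring
    rw [Finset.card_empty, Nat.cast_zero, zero_div, add_zero, add_zero]
    push_cast
    linarith

/-- The three phases together. -/
theorem total (hn : 3 ≤ n) {ε : ℝ} (hε2 : ε ≤ 1 / 2) (w : ℕ) (X : Fan n m) (hm : n + 4 ≤ m)
    (hε : er n m ≤ ε) : probRigid (w + (w + w)) m X.faces ≤
      2 * ((w + 1) * lam n ^ w) + w * (3 * w * ε) ^ 2 +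
      2 * (w * (3 * w * ε * ((1 + 3 * w) * (1 - (1 / 2) ^ n) ^ w + 3 * w * ε))) := by
  have hq1 : ((1 : ℝ) / 2) ^ n ≤ 1 := pow_le_one₀ (by norm_num) (by norm_num)
  have hq0 : (0 : ℝ) < (1 / 2) ^ n := by positivity
  have hs0 : 0 ≤ 1 - ((1 : ℝ) / 2) ^ n := by linarith
  have hs1 : 1 - ((1 : ℝ) / 2) ^ n ≤ 1 := by linarith
  have hε0 : 0 ≤ ε := (er_nonneg n m).trans hε
  have hlam := lam_nonneg n
  have hw0 : (0 : ℝ) ≤ w := Nat.cast_nonneg _
  set D : ℝ := (1 + 3 * w) * (1 - (1 / 2) ^ n) ^ w + 3 * w * ε with hD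
  have hD0 : 0 ≤ D := by positivity
  have hT : ((3 * w : ℕ) : ℝ) = 3 * w := by push_cast; ring
  -- phase two or nothing
  have base1 : ∀ (m : ℕ) (X : Fan n m) (P Q : Finset (Fin m)), n + 4 ≤ m → er n m ≤ ε →
      Good n X.faces (P ∪ Q) → Disjoint P Q → (P.Nonempty ∨ (w : ℝ) + 1 = 0) →
      (P ∪ Q).card ≤ 3 * w → probRigid w m X.faces ≤
        (w + 1) * rr X.faces P + (w + 1) * rr X.faces Q + w * (3 * w * ε) ^ 2 := by
    intro m X P Q hm hε hG hd hP hc
    have hP' : P.Nonempty := by
      rcases hP with h | h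
      · exact h
      · exfalso; linarith
    have hrP := rr_nonneg X.faces P
    have hrQ := rr_nonneg X.faces Q
    rcases Q.eq_empty_or_nonempty with rfl | hQ
    · rw [rr_empty hn X]
      have h1 := prob_le_one w m X.faces
      have h2 : 0 ≤ (w + 1) * rr X.faces P := by positivity
      have h3 : 0 ≤ w * (3 * w * ε) ^ 2 := by positivity
      linarith
    · have h1 := phase2 hn w m X P Q hm hε (by omega : w ≤ 3 * w) hG hd hP' hQ hc
      rw [hT] at h1
      linarith
  have step1 := grow hn (T := 3 * w) (T0 := 3 * w) (ε := ε) (α := w + 1) (β := w + 1)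
    (e := w * (3 * w * ε) ^ 2) (D := D) (by positivity) (by positivity) (by positivity) le_rfl
    hε2 w (by rw [hT]) base1 w
  -- the first set
  have base2 : ∀ (m : ℕ) (X : Fan n m) (P Q : Finset (Fin m)), n + 4 ≤ m → er n m ≤ ε →
      Good n X.faces (P ∪ Q) → Disjoint P Q → (P.Nonempty ∨ (0 : ℝ) = 0) →
      (P ∪ Q).card ≤ 2 * w → probRigid (w + w) m X.faces ≤
        0 * rr X.faces P + (w + 1) * rr X.faces Q +
        ((w + 1) * lam n ^ w + w * (3 * w * ε) ^ 2 + w * (3 * w * ε * D)) := by
    intro m X P Q hm hε hG hd _ hc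
    have hrQ := rr_nonneg X.faces Q
    rw [zero_mul, zero_add]
    rcases Q.eq_empty_or_nonempty with rfl | hQ
    · rw [rr_empty hn X]
      have h1 := prob_le_one (w + w) m X.faces
      have h3 : 0 ≤ (w + 1) * lam n ^ w + w * (3 * w * ε) ^ 2 + w * (3 * w * ε * D) := by
        positivity
      linarith
    · have hQc : Q.card ≤ 2 * w := (Finset.card_le_card Finset.subset_union_right).trans hc
      have h1 := step1 m X Q ∅ hm hε (by omega)
        (by rw [Finset.union_empty]; exact good_mono hG Finset.subset_union_right)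
        (Finset.disjoint_empty_right _) (Or.inl hQ) (by rw [Finset.union_empty]; omega)
      rw [rr_empty hn X, hT] at h1
      linarith
  have step2 := grow hn (T := 3 * w) (T0 := 2 * w) (ε := ε) (α := 0) (β := w + 1)
    (e := (w + 1) * lam n ^ w + w * (3 * w * ε) ^ 2 + w * (3 * w * ε * D)) (D := D)
    le_rfl (by positivity) (by positivity) (by omega) hε2 (w + w)
    (by
      rw [hT, hD]
      have h1 : (1 - ((1 : ℝ) / 2) ^ n) ^ (w + w) ≤ (1 - (1 / 2) ^ n) ^ w :=
        pow_le_pow_of_le_one hs0 hs1 (Nat.le_add_left _ _)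
      have h2 : (1 + 3 * (w : ℝ)) * (1 - (1 / 2) ^ n) ^ (w + w) ≤
          (1 + 3 * w) * (1 - (1 / 2) ^ n) ^ w := mul_le_mul_of_nonneg_left h1 (by positivity)
      linarith) base2 w m X ∅ ∅ hm hε (by omega)
    (by rw [Finset.union_empty]; exact good_empty _) (Finset.disjoint_empty_right _)
    (Or.inr rfl) (by simp; omega)
  rw [rr_empty hn X, hT] at step2
  linarith

end Pool.Agent.Helper22.FL
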