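import Pool.Agent.Helper22.FL.Comm

/-!
The probability that the complex is rigid after random blow-ups.
-/

namespace Pool.Agent.Helper22.FL

open Pool.Agent.Helper21.Toric Pool.Agent.Helper22.BU Finset

variable {n m m' : ℕ}

open Classical in
/-- the faces with at least two vertices: the centres of the blow-ups -/
noncomputable def centres {m : ℕ} (K : Set (Finset (Fin m))) : Finset (Finset (Fin m)) :=
  Finset.univ.filter fun σ => σ ∈ K ∧ 2 ≤ σ.card

open Classical in
/-- the probability that a complex is rigid after `N` stellar subdivisions, each at a uniformly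
random face with at least two vertices -/
noncomputable def probRigid : ℕ → (m : ℕ) → Set (Finset (Fin m)) → ℝ
  | 0, _, K => if Rigid K then 1 else 0
  | N + 1, m, K => (∑ σ ∈ centres K, probRigid N (m + 1) (stel K σ)) / ((centres K).card : ℝ)

lemma mem_centres {K : Set (Finset (Fin m))} {σ : Finset (Fin m)} :
    σ ∈ centres K ↔ σ ∈ K ∧ 2 ≤ σ.card := by
  simp [centres]

lemma prob_nonneg (N : ℕ) : ∀ (m : ℕ) (K : Set (Finset (Fin m))), 0 ≤ probRigid N m K := by
  induction N with
  | zero =>
    intro m K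
    simp only [probRigid]
    split_ifs <;> norm_num
  | succ N ih =>
    intro m K
    simp only [probRigid]
    exact div_nonneg (Finset.sum_nonneg fun σ _ => ih _ _) (Nat.cast_nonneg _)

lemma prob_le_one (N : ℕ) : ∀ (m : ℕ) (K : Set (Finset (Fin m))), probRigid N m K ≤ 1 := by
  induction N with
  | zero =>
    intro m K
    simp only [probRigid]
    split_ifs <;> norm_num
  | succ N ih =>
    intro m K
    simp only [probRigid]
    apply div_le_one_of_le₀ _ (Nat.cast_nonneg _)
    calc ∑ σ ∈ centres K, probRigid N (m + 1) (stel K σ) ≤ ∑ σ ∈ centres K, (1 : ℝ) :=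
          Finset.sum_le_sum fun σ _ => ih _ _
      _ = _ := by simp

open Classical in
/-- the facets -/
noncomputable def facets (n : ℕ) {m : ℕ} (K : Set (Finset (Fin m))) : Finset (Finset (Fin m)) :=
  Finset.univ.filter fun σ => IsFacet n K σ

lemma mem_facets {K : Set (Finset (Fin m))} {σ : Finset (Fin m)} :
    σ ∈ facets n K ↔ IsFacet n K σ := by
  simp [facets]

lemma facets_sub (hn : 3 ≤ n) (K : Set (Finset (Fin m))) : facets n K ⊆ centres K := by
  intro σ hσ
  rw [mem_facets] at hσ
  rw [mem_centres]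
  exact ⟨hσ.1, by rw [hσ.2]; omega⟩

lemma card_vertices (X : Fan n m) : m ≤ (facets n X.faces).card * n := by
  have h1 : (Finset.univ : Finset (Fin m)) ⊆ (facets n X.faces).biUnion id := by
    intro i _
    obtain ⟨τ, h1, h2, h3⟩ := exists_facet (X.vertex_mem i)
    rw [Finset.mem_biUnion]
    exact ⟨τ, mem_facets.2 ⟨h1, h3⟩, h2 (Finset.mem_singleton_self i)⟩
  have h2 := Finset.card_le_card h1
  rw [Finset.card_univ, Fintype.card_fin] at h2
  refine h2.trans (Finset.card_biUnion_le_card_mul _ _ _ ?_)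
  intro τ hτ
  exact (mem_facets.1 hτ).2.le

lemma card_centres (X : Fan n m) : (centres X.faces).card ≤ (facets n X.faces).card * 2 ^ n := by
  have h1 : centres X.faces ⊆ (facets n X.faces).biUnion Finset.powerset := by
    intro σ hσ
    obtain ⟨τ, h1, h2, h3⟩ := exists_facet (mem_centres.1 hσ).1
    rw [Finset.mem_biUnion]
    exact ⟨τ, mem_facets.2 ⟨h1, h3⟩, Finset.mem_powerset.2 h2⟩
  refine (Finset.card_le_card h1).trans (Finset.card_biUnion_le_card_mul _ _ _ ?_)
  intro τ hτ
  rw [Finset.card_powerset, (mem_facets.1 hτ).2]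

/-- averages -/
lemma avg_le {ι : Type*} (S F D : Finset ι) (f : ι → ℝ) (a b q B : ℝ) (hS : 0 < S.card)
    (hF : F ⊆ S) (hq : q * S.card ≤ F.card) (hD : (D.card : ℝ) ≤ B) (hab : a ≤ b) (ha : 0 ≤ a)
    (h1 : ∀ σ ∈ S, f σ ≤ 1) (h2 : ∀ σ ∈ F, f σ ≤ a) (h3 : ∀ σ ∈ S, σ ∉ D → f σ ≤ b) :
    (∑ σ ∈ S, f σ) / (S.card : ℝ) ≤ q * a + (1 - q) * b + B / S.card := by
  classical
  have hSr : (0 : ℝ) < S.card := by exact_mod_cast hS
  have key : ∀ σ ∈ S, f σ ≤ b - (b - a) * (if σ ∈ F then 1 else 0) + (if σ ∈ D then 1 else 0) := by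
    intro σ hσ
    by_cases hF' : σ ∈ F
    · have := h2 σ hF'
      rw [if_pos hF']
      split_ifs <;> linarith
    · rw [if_neg hF']
      by_cases hD' : σ ∈ D
      · rw [if_pos hD']
        have := h1 σ hσ
        linarith
      · rw [if_neg hD']
        have := h3 σ hσ hD'
        linarith
  have hs := Finset.sum_le_sum key
  rw [Finset.sum_add_distrib, Finset.sum_sub_distrib, ← Finset.mul_sum] at hs
  simp only [Finset.sum_const, nsmul_eq_mul, Finset.sum_boole] at hs
  have e1 : S.filter (fun σ => σ ∈ F) = F := by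
    ext σ
    rw [Finset.mem_filter]
    exact ⟨fun h => h.2, fun h => ⟨hF h, h⟩⟩
  have e2 : ((S.filter (fun σ => σ ∈ D)).card : ℝ) ≤ B := by
    refine le_trans ?_ hD
    exact_mod_cast Finset.card_le_card (fun σ h => (Finset.mem_filter.1 h).2)
  rw [e1] at hs
  rw [div_le_iff₀ hSr]
  have e3 : B / (S.card : ℝ) * S.card = B := div_mul_cancel₀ _ hSr.ne'
  have e4 : (b - a) * (q * S.card) ≤ (b - a) * F.card :=
    mul_le_mul_of_nonneg_left hq (by linarith)
  nlinarith [hs, e2, e3, e4]

/-- error per step -/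
noncomputable def er (n m : ℕ) : ℝ := 2 ^ (n + 3) * n / m

lemma er_nonneg (n m : ℕ) : 0 ≤ er n m := by
  unfold er
  positivity

lemma er_mono (n : ℕ) {m m' : ℕ} (hm : 0 < m) (h : m ≤ m') : er n m' ≤ er n m := by
  unfold er
  apply div_le_div_of_nonneg_left (by positivity) (by exact_mod_cast hm) (by exact_mod_cast h)

lemma centres_pos (hn : 3 ≤ n) (X : Fan n m) : 0 < (centres X.faces).card := by
  obtain ⟨τ, h1, _, h3⟩ := exists_facet X.empty_mem
  exact Finset.card_pos.2 ⟨τ, facets_sub hn _ (mem_facets.2 ⟨h1, h3⟩)⟩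

lemma frac (X : Fan n m) :
    (1 / 2 : ℝ) ^ n * (centres X.faces).card ≤ (facets n X.faces).card := by
  have h := card_centres X
  have h' : ((centres X.faces).card : ℝ) ≤ (facets n X.faces).card * 2 ^ n := by exact_mod_cast h
  have h2 : (0 : ℝ) < (1 / 2 : ℝ) ^ n := by positivity
  calc (1 / 2 : ℝ) ^ n * (centres X.faces).card
      ≤ (1 / 2 : ℝ) ^ n * ((facets n X.faces).card * 2 ^ n) := mul_le_mul_of_nonneg_left h' h2.le
    _ = (facets n X.faces).card * ((1 / 2 : ℝ) * 2) ^ n := by rw [mul_pow]; ring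
    _ = (facets n X.faces).card := by norm_num

lemma er_bound (hn : 3 ≤ n) (X : Fan n m) (hm : 0 < m) :
    (2 : ℝ) ^ (n + 3) / (centres X.faces).card ≤ er n m := by
  have h1 := card_vertices X
  have h2 := Finset.card_le_card (facets_sub hn X.faces)
  have h3 : (m : ℝ) ≤ (centres X.faces).card * n := by
    have : m ≤ (centres X.faces).card * n := h1.trans (Nat.mul_le_mul_right _ h2)
    exact_mod_cast this
  have h4 : (0 : ℝ) < (centres X.faces).card := by exact_mod_cast centres_pos hn X
  have h5 : (0 : ℝ) < m := by exact_mod_cast hm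
  unfold er
  rw [div_le_div_iff₀ h4 h5]
  have h6 : (0 : ℝ) < (2 : ℝ) ^ (n + 3) := by positivity
  nlinarith [mul_le_mul_of_nonneg_left h3 h6.le]

lemma card_bad {T : Finset (Fin m)} {k : ℕ} (hT : T.card ≤ k)
    (D : Finset (Finset (Fin m))) (hD : ∀ σ ∈ D, σ ⊆ T) : D.card ≤ 2 ^ k := by
  have h1 : D ⊆ T.powerset := fun σ hσ => Finset.mem_powerset.2 (hD σ hσ)
  have h2 := Finset.card_le_card h1
  rw [Finset.card_powerset] at h2
  exact h2.trans (Nat.pow_le_pow_right (by norm_num) hT)

/-- the three bounds -/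
theorem bounds (hn : 3 ≤ n) (w : ℕ) : ∀ (m : ℕ) (X : Fan n m), n + 3 ≤ m →
    probRigid w m X.faces ≤ (1 + w) * (1 - (1 / 2) ^ n) ^ w + w * er n m ∧
    (∀ v, One n X.faces v → probRigid w m X.faces ≤ (1 - (1 / 2) ^ n) ^ w + w * er n m) ∧
    (∀ v v', n + 4 ≤ m → Two n X.faces v v' → probRigid w m X.faces ≤ w * er n m) := by
  have hq0 : (0 : ℝ) < (1 / 2) ^ n := by positivity
  have hq1 : ((1 : ℝ) / 2) ^ n ≤ 1 / 8 := by
    calc ((1 : ℝ) / 2) ^ n ≤ (1 / 2) ^ 3 := pow_le_pow_of_le_one (by norm_num) (by norm_num) hn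
      _ = 1 / 8 := by norm_num
  set q : ℝ := (1 / 2) ^ n with hq
  induction w with
  | zero =>
    intro m X hm
    refine ⟨?_, ?_, ?_⟩
    · have := prob_le_one 0 m X.faces
      simpa using this
    · intro v _
      have := prob_le_one 0 m X.faces
      simpa using this
    · intro v v' hm' h
      simp only [probRigid]
      rw [if_neg (not_rigid_two hn h hm')]
      simp
  | succ w ih =>
    intro m X hm
    have hm0 : 0 < m := by omega
    have hc := centres_pos hn X
    have hs0 : (0 : ℝ) ≤ (1 - q) ^ w := pow_nonneg (by linarith) _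
    have hw0 : (0 : ℝ) ≤ w := Nat.cast_nonneg _
    have he0 := er_nonneg n m
    have hmono : (w : ℝ) * er n (m + 1) ≤ w * er n m :=
      mul_le_mul_of_nonneg_left (er_mono n hm0 (Nat.le_succ m)) hw0
    have heb := er_bound hn X hm0
    have hfan : ∀ σ ∈ centres X.faces, ∃ Y : Fan n (m + 1), Y.faces = stel X.faces σ := by
      intro σ hσ
      rw [mem_centres] at hσ
      exact ⟨Stel X σ hσ.1 hσ.2, rfl⟩
    have hP0 : ∀ σ ∈ centres X.faces, probRigid w (m + 1) (stel X.faces σ) ≤
        (1 + w) * (1 - q) ^ w + w * er n m := by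
      intro σ hσ
      obtain ⟨Y, hY⟩ := hfan σ hσ
      rw [← hY]
      have := (ih (m + 1) Y (by omega)).1
      linarith
    have hP1 : ∀ σ ∈ centres X.faces, ∀ v, One n (stel X.faces σ) v →
        probRigid w (m + 1) (stel X.faces σ) ≤ (1 - q) ^ w + w * er n m := by
      intro σ hσ v hv
      obtain ⟨Y, hY⟩ := hfan σ hσ
      rw [← hY] at hv ⊢
      have := (ih (m + 1) Y (by omega)).2.1 v hv
      linarith
    have hP2 : ∀ σ ∈ centres X.faces, ∀ v v', Two n (stel X.faces σ) v v' →
        probRigid w (m + 1) (stel X.faces σ) ≤ w * er n m := by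
      intro σ hσ v v' hv
      obtain ⟨Y, hY⟩ := hfan σ hσ
      rw [← hY] at hv ⊢
      have := (ih (m + 1) Y (by omega)).2.2 v v' (by omega) hv
      linarith
    refine ⟨?_, ?_, ?_⟩
    · have := avg_le (centres X.faces) (facets n X.faces) ∅
        (fun σ => probRigid w (m + 1) (stel X.faces σ)) ((1 - q) ^ w + w * er n m)
        ((1 + w) * (1 - q) ^ w + w * er n m) q 0 hc (facets_sub hn _) (frac X) (by simp)
        (by nlinarith) (by positivity) (fun σ _ => prob_le_one _ _ _)
        (fun σ hσ => hP1 σ (facets_sub hn _ hσ) _ (one_new X (mem_facets.1 hσ)))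
        (fun σ hσ _ => hP0 σ hσ)
      rw [zero_div, add_zero] at this
      have e : probRigid (w + 1) m X.faces = (∑ σ ∈ centres X.faces,
        probRigid w (m + 1) (stel X.faces σ)) / ((centres X.faces).card : ℝ) := rfl
      rw [e]
      refine this.trans ?_
      rw [pow_succ]
      push_cast
      nlinarith [mul_nonneg hs0 hw0, mul_nonneg hs0 (by linarith : (0 : ℝ) ≤ 1 - 2 * q)]
    · intro v hv
      obtain ⟨T, hT1, hT2⟩ := one_small hv
      classical
      set D := (centres X.faces).filter fun σ => insert v σ ∈ X.faces with hD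
      have hDc : (D.card : ℝ) ≤ 2 ^ (n + 3) := by
        have h1 : D.card ≤ 2 ^ (n + 3) := card_bad (T := T) (by omega) D
          (fun σ hσ => hT2 σ (Finset.mem_filter.1 hσ).2)
        exact_mod_cast h1
      have := avg_le (centres X.faces) (facets n X.faces) D
        (fun σ => probRigid w (m + 1) (stel X.faces σ)) (w * er n m)
        ((1 - q) ^ w + w * er n m) q (2 ^ (n + 3)) hc (facets_sub hn _) (frac X) hDc
        (by linarith) (by positivity) (fun σ _ => prob_le_one _ _ _)
        (fun σ hσ => hP2 σ (facets_sub hn _ hσ) _ _ (two_new hv (mem_facets.1 hσ)))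
        (fun σ hσ hσD => by
          refine hP1 σ hσ _ (one_keep hv (mem_centres.1 hσ).1 (mem_centres.1 hσ).2 ?_)
          intro h
          exact hσD (Finset.mem_filter.2 ⟨hσ, h⟩))
      have e : probRigid (w + 1) m X.faces = (∑ σ ∈ centres X.faces,
        probRigid w (m + 1) (stel X.faces σ)) / ((centres X.faces).card : ℝ) := rfl
      rw [e]
      refine this.trans ?_
      rw [pow_succ (1 - q) w]
      push_cast
      nlinarith
    · intro v v' hm' hv
      obtain ⟨T, hT1, hT2⟩ := one_small (one_of_two hn hv)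
      obtain ⟨T', hT1', hT2'⟩ := two_small hv
      classical
      set D1 := (centres X.faces).filter fun σ => insert v σ ∈ X.faces with hD1
      set D2 := (centres X.faces).filter fun σ => insert v' σ ∈ X.faces with hD2
      have hDc : ((D1 ∪ D2).card : ℝ) ≤ 2 ^ (n + 3) := by
        have h1 : D1.card ≤ 2 ^ (n + 2) := card_bad (T := T') hT1' D1
          (fun σ hσ => hT2' σ (Finset.mem_filter.1 hσ).2)
        have h2 : D2.card ≤ 2 ^ (n + 2) := card_bad (T := T) (by omega) D2
          (fun σ hσ => hT2 σ (Finset.mem_filter.1 hσ).2)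
        have h3 : (D1 ∪ D2).card ≤ 2 ^ (n + 3) := by
          refine (Finset.card_union_le _ _).trans ?_
          have : 2 ^ (n + 3) = 2 ^ (n + 2) + 2 ^ (n + 2) := by ring
          omega
        exact_mod_cast h3
      have := avg_le (centres X.faces) (facets n X.faces) (D1 ∪ D2)
        (fun σ => probRigid w (m + 1) (stel X.faces σ)) (w * er n m)
        (w * er n m) q (2 ^ (n + 3)) hc (facets_sub hn _) (frac X) hDc
        le_rfl (by positivity) (fun σ _ => prob_le_one _ _ _)
        (fun σ hσ => hP2 σ (facets_sub hn _ hσ) _ _ (two_new (one_of_two hn hv) (mem_facets.1 hσ)))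
        (fun σ hσ hσD => by
          have h1 : insert v σ ∉ X.faces := fun h =>
            hσD (Finset.mem_union_left _ (Finset.mem_filter.2 ⟨hσ, h⟩))
          have h2 : insert v' σ ∉ X.faces := fun h =>
            hσD (Finset.mem_union_right _ (Finset.mem_filter.2 ⟨hσ, h⟩))
          exact hP2 σ hσ _ _ (two_keep hv (mem_centres.1 hσ).1 (mem_centres.1 hσ).2 h1 h2))
      have e : probRigid (w + 1) m X.faces = (∑ σ ∈ centres X.faces,
        probRigid w (m + 1) (stel X.faces σ)) / ((centres X.faces).card : ℝ) := rfl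
      rw [e]
      refine this.trans ?_
      push_cast
      nlinarith

/-- After `a` further blow-ups a bound for all fans with at least `m + a` rays applies. -/
lemma shift (a w : ℕ) (B : ℝ) (hB : 0 ≤ B) : ∀ (m : ℕ) (X : Fan n m),
    (∀ (Y : Fan n (m + a)), probRigid w (m + a) Y.faces ≤ B) →
    probRigid (a + w) m X.faces ≤ B := by
  induction a with
  | zero =>
    intro m X h
    rw [Nat.zero_add]
    exact h X
  | succ a ih =>
    intro m X h
    have e : probRigid (a + 1 + w) m X.faces = (∑ σ ∈ centres X.faces,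
        probRigid (a + w) (m + 1) (stel X.faces σ)) / ((centres X.faces).card : ℝ) := by
      rw [show a + 1 + w = (a + w) + 1 by ring]
      rfl
    rw [e]
    apply div_le_of_le_mul₀ (Nat.cast_nonneg _) hB
    have hσ : ∀ σ ∈ centres X.faces, probRigid (a + w) (m + 1) (stel X.faces σ) ≤ B := by
      intro σ hσ
      rw [mem_centres] at hσ
      apply ih (m + 1) (Stel X σ hσ.1 hσ.2)
      have e2 : m + 1 + a = m + (a + 1) := by ring
      rw [e2]
      exact h
    calc ∑ σ ∈ centres X.faces, probRigid (a + w) (m + 1) (stel X.faces σ)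
        ≤ ∑ σ ∈ centres X.faces, B := Finset.sum_le_sum hσ
      _ = B * (centres X.faces).card := by rw [Finset.sum_const, nsmul_eq_mul, mul_comm]

/-- the bound with a free parameter -/
theorem bound_param (hn : 3 ≤ n) (X : Fan n m) (a w : ℕ) (ha : n + 3 ≤ a) :
    probRigid (a + w) m X.faces ≤ (1 + w) * (1 - (1 / 2) ^ n) ^ w + w * (2 ^ (n + 3) * n / a) := by
  have hq1 : ((1 : ℝ) / 2) ^ n ≤ 1 := pow_le_one₀ (by norm_num) (by norm_num)
  have hs : (0 : ℝ) ≤ (1 - (1 / 2) ^ n) ^ w := pow_nonneg (by linarith) _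
  apply shift
  · positivity
  · intro Y
    refine ((bounds hn w (m + a) Y (by omega)).1).trans ?_
    have h1 : er n (m + a) ≤ er n a := er_mono n (by omega) (by omega)
    have h2 : (w : ℝ) * er n (m + a) ≤ w * er n a := mul_le_mul_of_nonneg_left h1 (Nat.cast_nonneg _)
    unfold er at h2 ⊢
    linarith

end Pool.Agent.Helper22.FL
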