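import Pool.Agent.Helper22.FL.Spread

/-!
The better bound for the probability.
-/

namespace Pool.Agent.Helper22.FL

open Pool.Agent.Helper21.Toric Pool.Agent.Helper22.BU Finset

variable {n m m' : ℕ}

/-- the fraction of the centres that touch all vertices of a set -/
noncomputable def rr {m : ℕ} (K : Set (Finset (Fin m))) (S : Finset (Fin m)) : ℝ :=
  ((DD K S).card : ℝ) / (centres K).card

lemma rr_nonneg (K : Set (Finset (Fin m))) (S : Finset (Fin m)) : 0 ≤ rr K S := by
  unfold rr; positivity

lemma rr_empty (hn : 3 ≤ n) (X : Fan n m) : rr X.faces ∅ = 1 := by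
  have h : (0 : ℝ) < (centres X.faces).card := by exact_mod_cast centres_pos hn X
  rw [rr, DD_empty, div_self h.ne']

lemma rr_keep (hn : 3 ≤ n) (X : Fan n m) {ρ S : Finset (Fin m)} (hS : S.Nonempty)
    (hu : Und X.faces S ρ) (hρ : ρ ∈ centres X.faces) :
    rr (stel X.faces ρ) (S.map Fin.castSuccEmb) ≤ rr X.faces S := by
  have h : (0 : ℝ) < (centres X.faces).card := by exact_mod_cast centres_pos hn X
  have h1 := card_DD_keep X.down_closed hS hu
  have h2 := card_centres_mono X.down_closed hρ
  unfold rr
  apply div_le_div₀ (Nat.cast_nonneg _) (by exact_mod_cast h1) h (by exact_mod_cast h2)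

open Classical in
/-- the new value of the fraction for a growing set -/
noncomputable def gg (n : ℕ) {m : ℕ} (K : Set (Finset (Fin m))) (Q ρ : Finset (Fin m)) : ℝ :=
  if Und K Q ρ then
    (if IsFacet n K ρ then rr (stel K ρ) (insert (Fin.last m) (Q.map Fin.castSuccEmb))
      else rr (stel K ρ) (Q.map Fin.castSuccEmb))
  else 0

/-- the contraction factor -/
noncomputable def lam (n : ℕ) : ℝ := 1 - (1 / 2) ^ n / (n + 1)

lemma sum_gg (hn : 3 ≤ n) (X : Fan n m) (hm : 0 < m) (hε : er n m ≤ 1 / 2) (Q : Finset (Fin m)) :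
    ∑ ρ ∈ centres X.faces, gg n X.faces Q ρ ≤
      lam n * rr X.faces Q * (centres X.faces).card := by
  classical
  have hF : (0 : ℝ) < (centres X.faces).card := by exact_mod_cast centres_pos hn X
  have hfr := frac X
  have hq0 : (0 : ℝ) < (1 / 2) ^ n := by positivity
  have hsub := facets_sub hn X.faces
  have hn1 : (0 : ℝ) < (n : ℝ) + 1 := by positivity
  have hf0 : (0 : ℝ) ≤ (facets n X.faces).card := Nat.cast_nonneg _
  have hfF : ((facets n X.faces).card : ℝ) ≤ (centres X.faces).card := by
    exact_mod_cast Finset.card_le_card hsub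
  set F : ℝ := ((centres X.faces).card : ℝ) with hFdef
  set f : ℝ := ((facets n X.faces).card : ℝ) with hfdef
  have hcardnon : (((centres X.faces).filter fun ρ => ρ ∉ facets n X.faces).card : ℝ) = F - f := by
    have h1 : (centres X.faces).filter (fun ρ => ρ ∉ facets n X.faces) =
        centres X.faces \ facets n X.faces := by
      ext ρ; simp [Finset.mem_sdiff]
    rw [h1, Finset.card_sdiff_of_subset hsub, Nat.cast_sub (Finset.card_le_card hsub)]
  rcases Q.eq_empty_or_nonempty with rfl | hQ
  · -- the empty set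
    rw [rr_empty hn X, mul_one]
    have hpt : ∀ ρ ∈ centres X.faces, gg n X.faces ∅ ρ ≤
        1 - (1 / 2) * (if ρ ∈ facets n X.faces then 1 else 0) := by
      intro ρ hρ
      have hρ' := mem_centres.1 hρ
      have hF' : F ≤ ((centres (stel X.faces ρ)).card : ℝ) := by
        rw [hFdef]
        exact_mod_cast card_centres_mono X.down_closed hρ
      unfold gg
      rw [if_pos (by intro v hv; exact absurd hv (Finset.notMem_empty v))]
      by_cases hfac : IsFacet n X.faces ρ
      · rw [if_pos hfac, if_pos (mem_facets.2 hfac), Finset.map_empty]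
        have h1 : ((DD (stel X.faces ρ) (insert (Fin.last m) ∅)).card : ℝ) ≤ 2 ^ (n + 3) := by
          have h2 := card_DD_first hfac
          have h3 : (DD (stel X.faces ρ) (insert (Fin.last m) ∅)).card ≤ 2 ^ (n + 3) :=
            h2.trans (Nat.pow_le_pow_right (by norm_num) (by omega))
          exact_mod_cast h3
        have h4 : rr (stel X.faces ρ) (insert (Fin.last m) ∅) ≤ 2 ^ (n + 3) / F := by
          unfold rr
          exact div_le_div₀ (by positivity) h1 hF hF'
        have h5 := er_bound hn X hm
        linarith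
      · rw [if_neg hfac, if_neg (fun h => hfac (mem_facets.1 h)), Finset.map_empty]
        have h1 : rr (stel X.faces ρ) ∅ ≤ 1 := by
          unfold rr
          rw [DD_empty]
          exact div_self_le_one _
        linarith
    refine (Finset.sum_le_sum hpt).trans ?_
    rw [Finset.sum_sub_distrib, ← Finset.mul_sum]
    simp only [Finset.sum_const, nsmul_eq_mul, mul_one, Finset.sum_boole]
    have e1 : (centres X.faces).filter (fun ρ => ρ ∈ facets n X.faces) = facets n X.faces := by
      ext ρ
      rw [Finset.mem_filter]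
      exact ⟨fun h => h.2, fun h => ⟨hsub h, h⟩⟩
    rw [e1]
    unfold lam
    have h6 : (1 / 2 : ℝ) ^ n / (n + 1) ≤ (1 / 2) ^ n * (1 / 2) := by
      rw [div_eq_mul_inv]
      apply mul_le_mul_of_nonneg_left _ hq0.le
      rw [one_div]
      apply inv_anti₀ (by norm_num)
      have : (3 : ℝ) ≤ n := by exact_mod_cast hn
      linarith
    nlinarith
  · -- nonempty sets
    set D : ℝ := ((DD X.faces Q).card : ℝ) with hDdef
    have hD0 : 0 ≤ D := Nat.cast_nonneg _
    have hr : rr X.faces Q = D / F := rfl
    have hpt : ∀ ρ ∈ centres X.faces, gg n X.faces Q ρ ≤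
        (if ρ ∈ facets n X.faces then ((((DD X.faces Q).filter fun σ => σ ⊆ ρ).card : ℝ)) / F
          else 0) + (if ρ ∉ facets n X.faces then D / F else 0) := by
      intro ρ hρ
      have hF' : F ≤ ((centres (stel X.faces ρ)).card : ℝ) := by
        rw [hFdef]
        exact_mod_cast card_centres_mono X.down_closed hρ
      unfold gg
      by_cases hu : Und X.faces Q ρ
      · rw [if_pos hu]
        by_cases hfac : IsFacet n X.faces ρ
        · rw [if_pos hfac, if_pos (mem_facets.2 hfac), if_neg (by
            rw [not_not]; exact mem_facets.2 hfac), add_zero]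
          unfold rr
          exact div_le_div₀ (Nat.cast_nonneg _) (by exact_mod_cast card_DD_new hQ hu hfac) hF hF'
        · rw [if_neg hfac, if_neg (fun h => hfac (mem_facets.1 h)),
            if_pos (fun h => hfac (mem_facets.1 h)), zero_add]
          exact rr_keep hn X hQ hu hρ
      · rw [if_neg hu]
        split_ifs <;> positivity
    refine (Finset.sum_le_sum hpt).trans ?_
    rw [Finset.sum_add_distrib, ← Finset.sum_filter, ← Finset.sum_filter, Finset.sum_const,
      nsmul_eq_mul, hcardnon]
    have e1 : (centres X.faces).filter (fun ρ => ρ ∈ facets n X.faces) = facets n X.faces := by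
      ext ρ
      rw [Finset.mem_filter]
      exact ⟨fun h => h.2, fun h => ⟨hsub h, h⟩⟩
    rw [e1, ← Finset.sum_div]
    have h1 : ∑ ρ ∈ facets n X.faces, ((((DD X.faces Q).filter fun σ => σ ⊆ ρ).card : ℝ)) ≤
        D * (n / (n + 1) * f) := by
      have h2 : ∑ ρ ∈ facets n X.faces, ((DD X.faces Q).filter fun σ => σ ⊆ ρ).card =
          ∑ σ ∈ DD X.faces Q, ((facets n X.faces).filter fun ρ => σ ⊆ ρ).card := by
        simp only [Finset.card_filter]
        exact Finset.sum_comm
      have h3 : ∀ σ ∈ DD X.faces Q, (((facets n X.faces).filter fun ρ => σ ⊆ ρ).card : ℝ) ≤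
          n / (n + 1) * f := by
        intro σ hσ
        have h4 : σ.Nonempty := by
          rw [← Finset.card_pos]
          have := (mem_centres.1 (mem_DD.1 hσ).1).2
          omega
        have h5 := frac_facets X h4
        have h6 : (((facets n X.faces).filter fun ρ => σ ⊆ ρ).card : ℝ) * (n + 1) ≤ n * f := by
          rw [hfdef]
          exact_mod_cast h5
        rw [div_mul_eq_mul_div, le_div_iff₀ hn1]
        exact h6
      calc ∑ ρ ∈ facets n X.faces, ((((DD X.faces Q).filter fun σ => σ ⊆ ρ).card : ℝ))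
          = ((∑ ρ ∈ facets n X.faces, ((DD X.faces Q).filter fun σ => σ ⊆ ρ).card : ℕ) : ℝ) := by
            push_cast; rfl
        _ = ∑ σ ∈ DD X.faces Q, (((facets n X.faces).filter fun ρ => σ ⊆ ρ).card : ℝ) := by
            rw [h2]; push_cast; rfl
        _ ≤ ∑ σ ∈ DD X.faces Q, (n / (n + 1) * f : ℝ) := Finset.sum_le_sum h3
        _ = D * (n / (n + 1) * f) := by rw [Finset.sum_const, nsmul_eq_mul]
    have h7 : (∑ ρ ∈ facets n X.faces, ((((DD X.faces Q).filter fun σ => σ ⊆ ρ).card : ℝ))) / F ≤
        D * (n / (n + 1) * f) / F := div_le_div_of_nonneg_right h1 hF.le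
    rw [hr]
    have h8 : D * (n / (n + 1) * f) / F + (F - f) * (D / F) = D / F * (F - f / (n + 1)) := by
      field_simp
      ring
    have h9 : D / F * (F - f / (n + 1)) ≤ lam n * (D / F) * F := by
      have h10 : (1 / 2 : ℝ) ^ n / (n + 1) * F ≤ f / (n + 1) := by
        rw [div_mul_eq_mul_div]
        exact div_le_div_of_nonneg_right hfr hn1.le
      have h11 : 0 ≤ D / F := by positivity
      unfold lam
      nlinarith [mul_le_mul_of_nonneg_left h10 h11]
    linarith

open Classical in
/-- the centres touching some vertex of `S` -/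
noncomputable def BB {m : ℕ} (K : Set (Finset (Fin m))) (S : Finset (Fin m)) :
    Finset (Finset (Fin m)) :=
  (centres K).filter fun σ => ¬ Und K S σ

lemma card_BB (hn : 3 ≤ n) (X : Fan n m) (hm : 0 < m) {S : Finset (Fin m)}
    (hS : ∀ v ∈ S, One n X.faces v) {T : ℕ} (hT : S.card ≤ T) {ε : ℝ} (hε : er n m ≤ ε) :
    ((BB X.faces S).card : ℝ) / (centres X.faces).card ≤ T * ε := by
  classical
  have hF : (0 : ℝ) < (centres X.faces).card := by exact_mod_cast centres_pos hn X
  have h1 : BB X.faces S ⊆ S.biUnion fun v => (centres X.faces).filter fun σ =>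
      insert v σ ∈ X.faces := by
    intro σ hσ
    rw [BB, Finset.mem_filter] at hσ
    obtain ⟨h1, h2⟩ := hσ
    unfold Und at h2
    push Not at h2
    obtain ⟨v, hv, h3⟩ := h2
    rw [Finset.mem_biUnion]
    exact ⟨v, hv, Finset.mem_filter.2 ⟨h1, h3⟩⟩
  have h2 : (BB X.faces S).card ≤ S.card * 2 ^ (n + 3) := by
    refine (Finset.card_le_card h1).trans (Finset.card_biUnion_le_card_mul _ _ _ ?_)
    intro v hv
    obtain ⟨T', hT1, hT2⟩ := one_small (hS v hv)
    exact card_bad (k := n + 3) (by omega) _ (fun σ hσ => hT2 σ (Finset.mem_filter.1 hσ).2)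
  have h3 : ((BB X.faces S).card : ℝ) ≤ T * 2 ^ (n + 3) := by
    have : (BB X.faces S).card ≤ T * 2 ^ (n + 3) := h2.trans (Nat.mul_le_mul_right _ hT)
    exact_mod_cast this
  have h4 := er_bound hn X hm
  calc ((BB X.faces S).card : ℝ) / (centres X.faces).card
      ≤ T * 2 ^ (n + 3) / (centres X.faces).card := div_le_div_of_nonneg_right h3 hF.le
    _ = T * (2 ^ (n + 3) / (centres X.faces).card) := by rw [mul_div_assoc]
    _ ≤ T * ε := mul_le_mul_of_nonneg_left (h4.trans hε) (Nat.cast_nonneg _)

/-- averages with three indicator functions -/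
lemma avg3 {ι : Type*} [DecidableEq ι] (S A B E : Finset ι) (f g : ι → ℝ) (c a : ℝ)
    (hS : 0 < S.card)
    (hA : A ⊆ S) (hB : B ⊆ S) (hE : E ⊆ S)
    (h : ∀ σ ∈ S, f σ ≤ c + g σ + a * (if σ ∈ A then 1 else 0) + (if σ ∈ B then 1 else 0) +
      (if σ ∈ E then 1 else 0)) :
    (∑ σ ∈ S, f σ) / (S.card : ℝ) ≤ c + (∑ σ ∈ S, g σ) / (S.card : ℝ) +
      a * (A.card / S.card) + B.card / S.card + E.card / S.card := by
  have hSr : (0 : ℝ) < S.card := by exact_mod_cast hS
  have hs := Finset.sum_le_sum h
  have hfil : ∀ A : Finset ι, A ⊆ S → S.filter (fun σ => σ ∈ A) = A := by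
    intro A hA
    ext σ
    rw [Finset.mem_filter]
    exact ⟨fun h => h.2, fun h => ⟨hA h, h⟩⟩
  rw [Finset.sum_add_distrib, Finset.sum_add_distrib, Finset.sum_add_distrib,
    Finset.sum_add_distrib, ← Finset.mul_sum] at hs
  simp only [Finset.sum_const, nsmul_eq_mul, Finset.sum_boole] at hs
  rw [hfil A hA, hfil B hB, hfil E hE] at hs
  rw [div_le_iff₀ hSr]
  refine hs.trans (le_of_eq ?_)
  field_simp

/-- the last phase -/
theorem phase2 (hn : 3 ≤ n) {T : ℕ} {ε : ℝ} (w : ℕ) : ∀ (m : ℕ) (X : Fan n m)
    (P Q : Finset (Fin m)), n + 4 ≤ m → er n m ≤ ε → w ≤ T → Good n X.faces (P ∪ Q) →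
    Disjoint P Q → P.Nonempty → Q.Nonempty → (P ∪ Q).card ≤ T →
    probRigid w m X.faces ≤ w * (rr X.faces P + rr X.faces Q) + w * (T * ε) ^ 2 := by
  induction w with
  | zero =>
    intro m X P Q hm hε _ hG hd hP hQ _
    obtain ⟨v, hv⟩ := hP
    obtain ⟨v', hv'⟩ := hQ
    have hne : v ≠ v' := fun h => Finset.disjoint_left.1 hd hv (h ▸ hv')
    have hnr : ¬ Rigid X.faces := by
      rcases hG.2 v (Finset.mem_union_left _ hv) v' (Finset.mem_union_right _ hv') hne with h | h
      · exact not_rigid_two hn h hm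
      · exact not_rigid_two hn h hm
    simp only [probRigid]
    rw [if_neg hnr]
    simp
  | succ w ih =>
    intro m X P Q hm hε hw hG hd hP hQ hc
    classical
    have hm0 : 0 < m := by omega
    have hε0 : 0 ≤ ε := (er_nonneg n m).trans hε
    have hε' : er n (m + 1) ≤ ε := (er_mono n hm0 (Nat.le_succ m)).trans hε
    have hF := centres_pos hn X
    have hw0 : (0 : ℝ) ≤ w := Nat.cast_nonneg _
    have hwT : (w : ℝ) ≤ T := by exact_mod_cast (by omega : w ≤ T)
    have hTε : 0 ≤ (T : ℝ) * ε := by positivity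
    have hrP := rr_nonneg X.faces P
    have hrQ := rr_nonneg X.faces Q
    have hBsub : BB X.faces (P ∪ Q) ⊆ centres X.faces := Finset.filter_subset _ _
    have hpt : ∀ σ ∈ centres X.faces, probRigid w (m + 1) (stel X.faces σ) ≤
        (w * (rr X.faces P + rr X.faces Q) + w * (T * ε) ^ 2) + 0 +
        (T * ε) * (if σ ∈ BB X.faces (P ∪ Q) then 1 else 0) +
        (if σ ∈ DD X.faces P then 1 else 0) + (if σ ∈ DD X.faces Q then 1 else 0) := by
      intro σ hσ
      have hσ' := mem_centres.1 hσ
      have hi1 : (0 : ℝ) ≤ if σ ∈ DD X.faces P then 1 else 0 := by split_ifs <;> norm_num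
      have hi2 : (0 : ℝ) ≤ if σ ∈ DD X.faces Q then 1 else 0 := by split_ifs <;> norm_num
      have hi3 : (0 : ℝ) ≤ if σ ∈ BB X.faces (P ∪ Q) then 1 else 0 := by split_ifs <;> norm_num
      have hc0 : 0 ≤ w * (rr X.faces P + rr X.faces Q) + w * (T * ε) ^ 2 := by positivity
      by_cases hu : Und X.faces (P ∪ Q) σ
      · have huP : Und X.faces P σ := fun v hv => hu v (Finset.mem_union_left _ hv)
        have huQ : Und X.faces Q σ := fun v hv => hu v (Finset.mem_union_right _ hv)
        have hi := ih (m + 1) (Stel X σ hσ'.1 hσ'.2) (P.map Fin.castSuccEmb)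
          (Q.map Fin.castSuccEmb) (by omega) hε' (by omega)
          (by rw [← Finset.map_union]; exact good_keep hG hσ hu)
          (by rwa [Finset.disjoint_map]) (by simpa using hP) (by simpa using hQ)
          (by rw [← Finset.map_union, Finset.card_map]; exact hc)
        rw [Stel_faces] at hi
        have h1 := rr_keep hn X hP huP hσ
        have h2 := rr_keep hn X hQ huQ hσ
        have h3 : w * (rr (stel X.faces σ) (P.map Fin.castSuccEmb) +
            rr (stel X.faces σ) (Q.map Fin.castSuccEmb)) ≤
            w * (rr X.faces P + rr X.faces Q) :=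
          mul_le_mul_of_nonneg_left (add_le_add h1 h2) hw0
        have h4 : 0 ≤ (T * ε) * (if σ ∈ BB X.faces (P ∪ Q) then (1 : ℝ) else 0) :=
          mul_nonneg hTε hi3
        linarith
      · have hB : σ ∈ BB X.faces (P ∪ Q) := by
          rw [BB, Finset.mem_filter]
          exact ⟨hσ, hu⟩
        rw [if_pos hB]
        by_cases hDP : σ ∈ DD X.faces P
        · rw [if_pos hDP]
          have := prob_le_one w (m + 1) (stel X.faces σ)
          linarith
        · by_cases hDQ : σ ∈ DD X.faces Q
          · rw [if_pos hDQ]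
            have := prob_le_one w (m + 1) (stel X.faces σ)
            linarith
          · have h1 : ∃ v ∈ P, insert v σ ∉ X.faces := by
              by_contra hcon
              push Not at hcon
              exact hDP (mem_DD.2 ⟨hσ, hcon⟩)
            have h2 : ∃ v ∈ Q, insert v σ ∉ X.faces := by
              by_contra hcon
              push Not at hcon
              exact hDQ (mem_DD.2 ⟨hσ, hcon⟩)
            obtain ⟨v, hv, hv1⟩ := h1
            obtain ⟨v', hv', hv1'⟩ := h2
            have hne : v ≠ v' := fun h => Finset.disjoint_left.1 hd hv (h ▸ hv')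
            have h5 : probRigid w (m + 1) (stel X.faces σ) ≤ w * er n (m + 1) := by
              rcases hG.2 v (Finset.mem_union_left _ hv) v' (Finset.mem_union_right _ hv') hne
                with h | h
              · exact (bounds hn w (m + 1) (Stel X σ hσ'.1 hσ'.2) (by omega)).2.2 _ _ (by omega)
                  (two_keep h hσ'.1 hσ'.2 hv1 hv1')
              · exact (bounds hn w (m + 1) (Stel X σ hσ'.1 hσ'.2) (by omega)).2.2 _ _ (by omega)
                  (two_keep h hσ'.1 hσ'.2 hv1' hv1)
            have h6 : (w : ℝ) * er n (m + 1) ≤ T * ε :=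
              mul_le_mul hwT hε' (er_nonneg _ _) (Nat.cast_nonneg _)
            linarith
    have e : probRigid (w + 1) m X.faces = (∑ σ ∈ centres X.faces,
      probRigid w (m + 1) (stel X.faces σ)) / ((centres X.faces).card : ℝ) := rfl
    rw [e]
    refine (avg3 _ _ _ _ _ (fun _ => 0) _ _ hF hBsub (DD_sub _ _) (DD_sub _ _) hpt).trans ?_
    have h7 := card_BB hn X hm0 hG.1 hc hε
    have h8 : (T * ε) * ((BB X.faces (P ∪ Q)).card / (centres X.faces).card) ≤
        (T * ε) * (T * ε) := mul_le_mul_of_nonneg_left h7 hTε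
    rw [Finset.sum_const_zero, zero_div]
    change _ + 0 + _ + rr X.faces P + rr X.faces Q ≤ _
    push_cast
    nlinarith

end Pool.Agent.Helper22.FL
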