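import Pool.Agent.Helper22.FL.Prod
import Pool.Agent.Helper22.BU.Swap

/-!
The cohomology rings of products.
-/

namespace Pool.Agent.Helper22.FL

open Pool.Agent.Helper21.Toric Pool.Agent.Helper22.BU Finset

variable {n m n' m' n2 m2 : ℕ}

/-- the pull-back from the first factor -/
noncomputable def polL (m m' : ℕ) : MvPolynomial (Fin m) ℤ →ₐ[ℤ] MvPolynomial (Fin (m + m')) ℤ :=
  MvPolynomial.rename (Fin.castAdd m')

/-- the pull-back from the second factor -/
noncomputable def polR (m m' : ℕ) : MvPolynomial (Fin m') ℤ →ₐ[ℤ] MvPolynomial (Fin (m + m')) ℤ :=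
  MvPolynomial.rename (Fin.natAdd m)

lemma prod_nonface {X : Fan n m} {σ : Finset (Fin m)} (h : σ ∉ X.faces) :
    (∏ i ∈ σ, MvPolynomial.X i : MvPolynomial (Fin m) ℤ) ∈ relIdeal X :=
  Ideal.mem_sup_left (Ideal.subset_span ⟨σ, h, rfl⟩)

lemma polL_rel (X : Fan n m) (Z : Fan n' m') {q : MvPolynomial (Fin m) ℤ} (hq : q ∈ relIdeal X) :
    polL m m' q ∈ relIdeal (Prod X Z) := by
  have h : relIdeal X ≤ (relIdeal (Prod X Z)).comap (polL m m').toRingHom := by
    refine sup_le ?_ ?_
    · rw [Ideal.span_le]
      rintro q ⟨σ, hσ, rfl⟩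
      rw [SetLike.mem_coe, Ideal.mem_comap]
      have h1 : σ.map (Fin.castAddEmb m') ∉ (Prod X Z).faces := by
        rintro ⟨h1, _⟩
        apply hσ
        have : lft (σ.map (Fin.castAddEmb m')) = σ := by
          ext k
          simp [mem_lft]
        rwa [this] at h1
      have h2 := prod_nonface h1
      rw [Finset.prod_map] at h2
      have h3 : (polL m m').toRingHom (∏ i ∈ σ, MvPolynomial.X i) =
          ∏ x ∈ σ, MvPolynomial.X ((Fin.castAddEmb m') x) := by
        rw [map_prod]
        apply Finset.prod_congr rfl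
        intro i _
        exact MvPolynomial.rename_X _ _
      rw [h3]
      exact h2
    · rw [Ideal.span_le]
      rintro q ⟨j, rfl⟩
      rw [SetLike.mem_coe, Ideal.mem_comap]
      apply Ideal.mem_sup_right
      apply Ideal.subset_span
      refine ⟨Fin.castAdd n' j, ?_⟩
      simp only
      rw [Fin.sum_univ_add]
      simp only [Prod_ray, pry_left, pry_right, Fin.append_left, Pi.zero_apply, map_zero, zero_mul,
        Finset.sum_const_zero, add_zero]
      rw [map_sum]
      apply Finset.sum_congr rfl
      intro i _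
      rw [map_mul]
      congr 1
      · exact (MvPolynomial.rename_C _ _).symm
      · exact (MvPolynomial.rename_X _ _).symm
  exact h hq

lemma polR_rel (X : Fan n m) (Z : Fan n' m') {q : MvPolynomial (Fin m') ℤ} (hq : q ∈ relIdeal Z) :
    polR m m' q ∈ relIdeal (Prod X Z) := by
  have h : relIdeal Z ≤ (relIdeal (Prod X Z)).comap (polR m m').toRingHom := by
    refine sup_le ?_ ?_
    · rw [Ideal.span_le]
      rintro q ⟨σ, hσ, rfl⟩
      rw [SetLike.mem_coe, Ideal.mem_comap]
      have h1 : σ.map (Fin.natAddEmb m) ∉ (Prod X Z).faces := by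
        rintro ⟨_, h1⟩
        apply hσ
        have : rgt (σ.map (Fin.natAddEmb m)) = σ := by
          ext k
          simp [mem_rgt]
        rwa [this] at h1
      have h2 := prod_nonface h1
      rw [Finset.prod_map] at h2
      have h3 : (polR m m').toRingHom (∏ i ∈ σ, MvPolynomial.X i) =
          ∏ x ∈ σ, MvPolynomial.X ((Fin.natAddEmb m) x) := by
        rw [map_prod]
        apply Finset.prod_congr rfl
        intro i _
        exact MvPolynomial.rename_X _ _
      rw [h3]
      exact h2
    · rw [Ideal.span_le]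
      rintro q ⟨j, rfl⟩
      rw [SetLike.mem_coe, Ideal.mem_comap]
      apply Ideal.mem_sup_right
      apply Ideal.subset_span
      refine ⟨Fin.natAdd n j, ?_⟩
      simp only
      rw [Fin.sum_univ_add]
      simp only [Prod_ray, pry_left, pry_right, Fin.append_right, Pi.zero_apply, map_zero, zero_mul,
        Finset.sum_const_zero, zero_add]
      rw [map_sum]
      apply Finset.sum_congr rfl
      intro i _
      rw [map_mul]
      congr 1
      · exact (MvPolynomial.rename_C _ _).symm
      · exact (MvPolynomial.rename_X _ _).symm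
  exact h hq

/-- pull-back in cohomology from the first factor -/
noncomputable def inL (X : Fan n m) (Z : Fan n' m') : Coh X →+* Coh (Prod X Z) :=
  Ideal.Quotient.lift (relIdeal X)
    ((Ideal.Quotient.mk (relIdeal (Prod X Z))).comp (polL m m').toRingHom)
    (fun q hq => by
      rw [RingHom.comp_apply, Ideal.Quotient.eq_zero_iff_mem]
      exact polL_rel X Z hq)

/-- pull-back in cohomology from the second factor -/
noncomputable def inR (X : Fan n m) (Z : Fan n' m') : Coh Z →+* Coh (Prod X Z) :=
  Ideal.Quotient.lift (relIdeal Z)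
    ((Ideal.Quotient.mk (relIdeal (Prod X Z))).comp (polR m m').toRingHom)
    (fun q hq => by
      rw [RingHom.comp_apply, Ideal.Quotient.eq_zero_iff_mem]
      exact polR_rel X Z hq)

lemma inL_mk (X : Fan n m) (Z : Fan n' m') (q : MvPolynomial (Fin m) ℤ) :
    inL X Z (Ideal.Quotient.mk (relIdeal X) q) =
      Ideal.Quotient.mk (relIdeal (Prod X Z)) (polL m m' q) := rfl

lemma inR_mk (X : Fan n m) (Z : Fan n' m') (q : MvPolynomial (Fin m') ℤ) :
    inR X Z (Ideal.Quotient.mk (relIdeal Z) q) =
      Ideal.Quotient.mk (relIdeal (Prod X Z)) (polR m m' q) := rfl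

/-- the polynomials used for the map of products -/
noncomputable def gen (m' : ℕ) (l : Fin m → MvPolynomial (Fin m2) ℤ) :
    Fin (m + m') → MvPolynomial (Fin (m2 + m')) ℤ :=
  Fin.addCases (fun i => polL m2 m' (l i)) (fun j => MvPolynomial.X (Fin.natAdd m2 j))

/-- the map on polynomials -/
noncomputable def gmap (m' : ℕ) (l : Fin m → MvPolynomial (Fin m2) ℤ) :
    MvPolynomial (Fin (m + m')) ℤ →ₐ[ℤ] MvPolynomial (Fin (m2 + m')) ℤ :=
  MvPolynomial.aeval (gen m' l)

lemma gmap_left (l : Fin m → MvPolynomial (Fin m2) ℤ) (i : Fin m) :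
    gmap m' l (MvPolynomial.X (Fin.castAdd m' i)) = polL m2 m' (l i) := by
  simp [gmap, gen]

lemma gmap_right (l : Fin m → MvPolynomial (Fin m2) ℤ) (j : Fin m') :
    gmap m' l (MvPolynomial.X (Fin.natAdd m j)) = MvPolynomial.X (Fin.natAdd m2 j) := by
  simp [gmap, gen]

lemma gmap_polL (l : Fin m → MvPolynomial (Fin m2) ℤ) (q : MvPolynomial (Fin m) ℤ) :
    gmap m' l (polL m m' q) = polL m2 m' (MvPolynomial.aeval l q) := by
  have h : (gmap m' l).comp (polL m m') = (polL m2 m').comp (MvPolynomial.aeval l) := by
    apply MvPolynomial.algHom_ext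
    intro i
    rw [AlgHom.comp_apply, AlgHom.comp_apply, MvPolynomial.aeval_X, polL, MvPolynomial.rename_X]
    exact gmap_left l i
  exact congrArg (fun f => f q) h

lemma gmap_polR (l : Fin m → MvPolynomial (Fin m2) ℤ) (q : MvPolynomial (Fin m') ℤ) :
    gmap m' l (polR m m' q) = polR m2 m' q := by
  have h : (gmap m' l).comp (polR m m') = polR m2 m' := by
    apply MvPolynomial.algHom_ext
    intro i
    rw [AlgHom.comp_apply, polR, MvPolynomial.rename_X, polR, MvPolynomial.rename_X]
    exact gmap_right l i
  exact congrArg (fun f => f q) h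

lemma gmap_homog {l : Fin m → MvPolynomial (Fin m2) ℤ} (hl : ∀ i, (l i).IsHomogeneous 1) {k : ℕ}
    {q : MvPolynomial (Fin (m + m')) ℤ} (hq : q.IsHomogeneous k) :
    (gmap m' l q).IsHomogeneous k := by
  have h := MvPolynomial.IsHomogeneous.aeval (φ := q) (m := k) (n := 1) hq (gen m' l) ?_
  · rwa [one_mul] at h
  · intro i
    induction i using Fin.addCases with
    | left i =>
      rw [gen, Fin.addCases_left]
      exact (hl i).rename_isHomogeneous
    | right i =>
      rw [gen, Fin.addCases_right]
      exact MvPolynomial.isHomogeneous_X _ _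

/-- relations of the product go to relations -/
lemma gmap_rel (X : Fan n m) (Y : Fan n2 m2) (Z : Fan n' m') {l : Fin m → MvPolynomial (Fin m2) ℤ}
    (hl : ∀ q ∈ relIdeal X, MvPolynomial.aeval l q ∈ relIdeal Y)
    {q : MvPolynomial (Fin (m + m')) ℤ} (hq : q ∈ relIdeal (Prod X Z)) :
    gmap m' l q ∈ relIdeal (Prod Y Z) := by
  have h : relIdeal (Prod X Z) ≤ (relIdeal (Prod Y Z)).comap (gmap m' l).toRingHom := by
    refine sup_le ?_ ?_
    · rw [Ideal.span_le]
      rintro q ⟨σ, hσ, rfl⟩
      rw [SetLike.mem_coe, Ideal.mem_comap]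
      have hsplit : (∏ i ∈ σ, MvPolynomial.X i : MvPolynomial (Fin (m + m')) ℤ) =
          polL m m' (∏ i ∈ lft σ, MvPolynomial.X i) * polR m m' (∏ j ∈ rgt σ, MvPolynomial.X j) := by
        have e1 : σ = (lft σ).map (Fin.castAddEmb m') ∪ (rgt σ).map (Fin.natAddEmb m) := by
          ext k
          induction k using Fin.addCases with
          | left k =>
            rw [← mem_lft, Finset.mem_union]
            constructor
            · intro h
              exact Or.inl (Finset.mem_map.2 ⟨k, h, rfl⟩)
            · rintro (h | h)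
              · obtain ⟨i, hi, h⟩ := Finset.mem_map.1 h
                rw [← Fin.castAdd_injective _ _ h]; exact hi
              · obtain ⟨i, hi, h⟩ := Finset.mem_map.1 h
                exact absurd h.symm (castAdd_ne_natAdd _ _)
          | right k =>
            rw [← mem_rgt, Finset.mem_union]
            constructor
            · intro h
              exact Or.inr (Finset.mem_map.2 ⟨k, h, rfl⟩)
            · rintro (h | h)
              · obtain ⟨i, hi, h⟩ := Finset.mem_map.1 h
                exact absurd h (castAdd_ne_natAdd _ _)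
              · obtain ⟨i, hi, h⟩ := Finset.mem_map.1 h
                rw [← Fin.natAdd_injective _ _ h]; exact hi
        conv_lhs => rw [e1]
        rw [Finset.prod_union, Finset.prod_map, Finset.prod_map, map_prod, map_prod]
        · congr 1
          · apply Finset.prod_congr rfl
            intro i _
            exact (MvPolynomial.rename_X _ _).symm
          · apply Finset.prod_congr rfl
            intro i _
            exact (MvPolynomial.rename_X _ _).symm
        · rw [Finset.disjoint_left]
          intro a ha hb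
          obtain ⟨i, _, h1⟩ := Finset.mem_map.1 ha
          obtain ⟨j, _, h2⟩ := Finset.mem_map.1 hb
          exact castAdd_ne_natAdd i j (h1.trans h2.symm)
      rw [hsplit, map_mul]
      have h1 : (gmap m' l).toRingHom (polL m m' (∏ i ∈ lft σ, MvPolynomial.X i)) =
          polL m2 m' (MvPolynomial.aeval l (∏ i ∈ lft σ, MvPolynomial.X i)) := gmap_polL l _
      have h2 : (gmap m' l).toRingHom (polR m m' (∏ i ∈ rgt σ, MvPolynomial.X i)) =
          polR m2 m' (∏ i ∈ rgt σ, MvPolynomial.X i) := gmap_polR l _
      rw [h1, h2]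
      by_cases hX : lft σ ∈ X.faces
      · have hZ : rgt σ ∉ Z.faces := fun h => hσ ⟨hX, h⟩
        exact Ideal.mul_mem_left _ _ (polR_rel Y Z (prod_nonface hZ))
      · exact Ideal.mul_mem_right _ _ (polL_rel Y Z (hl _ (prod_nonface hX)))
    · rw [Ideal.span_le]
      rintro q ⟨j, rfl⟩
      rw [SetLike.mem_coe, Ideal.mem_comap]
      induction j using Fin.addCases with
      | left j =>
        have h1 : ∑ i, MvPolynomial.C ((Prod X Z).ray i (Fin.castAdd n' j)) * MvPolynomial.X i =
            polL m m' (∑ i, MvPolynomial.C (X.ray i j) * MvPolynomial.X i) := by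
          rw [Fin.sum_univ_add]
          simp only [Prod_ray, pry_left, pry_right, Fin.append_left, Pi.zero_apply, map_zero,
            zero_mul, Finset.sum_const_zero, add_zero]
          rw [map_sum]
          apply Finset.sum_congr rfl
          intro i _
          rw [map_mul]
          congr 1
          · exact (MvPolynomial.rename_C _ _).symm
          · exact (MvPolynomial.rename_X _ _).symm
        simp only
        rw [h1]
        have h2 : (gmap m' l).toRingHom (polL m m' (∑ i, MvPolynomial.C (X.ray i j) *
            MvPolynomial.X i)) = polL m2 m' (MvPolynomial.aeval l (∑ i, MvPolynomial.C (X.ray i j) *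
            MvPolynomial.X i)) := gmap_polL l _
        rw [h2]
        exact polL_rel Y Z (hl _ (Ideal.mem_sup_right (Ideal.subset_span ⟨j, rfl⟩)))
      | right j =>
        have h1 : ∑ i, MvPolynomial.C ((Prod X Z).ray i (Fin.natAdd n j)) * MvPolynomial.X i =
            polR m m' (∑ i, MvPolynomial.C (Z.ray i j) * MvPolynomial.X i) := by
          rw [Fin.sum_univ_add]
          simp only [Prod_ray, pry_left, pry_right, Fin.append_right, Pi.zero_apply, map_zero,
            zero_mul, Finset.sum_const_zero, zero_add]
          rw [map_sum]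
          apply Finset.sum_congr rfl
          intro i _
          rw [map_mul]
          congr 1
          · exact (MvPolynomial.rename_C _ _).symm
          · exact (MvPolynomial.rename_X _ _).symm
        simp only
        rw [h1]
        have h2 : (gmap m' l).toRingHom (polR m m' (∑ i, MvPolynomial.C (Z.ray i j) *
            MvPolynomial.X i)) = polR m2 m' (∑ i, MvPolynomial.C (Z.ray i j) *
            MvPolynomial.X i) := gmap_polR l _
        rw [h2]
        exact polR_rel Y Z (Ideal.mem_sup_right (Ideal.subset_span ⟨j, rfl⟩))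
  exact h hq

/-- linear forms representing an isomorphism -/
lemma exists_lin {X : Fan n m} {Y : Fan n2 m2} (e : Coh X ≃+* Coh Y)
    (he : ∀ k a, a ∈ piece X k → e a ∈ piece Y k) :
    ∃ l : Fin m → MvPolynomial (Fin m2) ℤ, (∀ i, (l i).IsHomogeneous 1) ∧
      ∀ q, Ideal.Quotient.mk (relIdeal Y) (MvPolynomial.aeval l q) =
        e (Ideal.Quotient.mk (relIdeal X) q) := by
  have h : ∀ i : Fin m, ∃ p : MvPolynomial (Fin m2) ℤ, p.IsHomogeneous 1 ∧
      Ideal.Quotient.mk (relIdeal Y) p = e (Ideal.Quotient.mk (relIdeal X) (MvPolynomial.X i)) := by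
    intro i
    exact he 1 _ ⟨MvPolynomial.X i, MvPolynomial.isHomogeneous_X _ _, rfl⟩
  choose l hl1 hl2 using h
  refine ⟨l, hl1, ?_⟩
  intro q
  have h1 : (Ideal.Quotient.mk (relIdeal Y)).comp (MvPolynomial.aeval l).toRingHom =
      (e : Coh X →+* Coh Y).comp (Ideal.Quotient.mk (relIdeal X)) := by
    apply MvPolynomial.ringHom_ext
    · intro a
      simp
    · intro i
      simp only [RingHom.comp_apply]
      have : (MvPolynomial.aeval l).toRingHom (MvPolynomial.X i : MvPolynomial (Fin m) ℤ) = l i :=
        MvPolynomial.aeval_X _ _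
      rw [this, hl2]
      rfl
  exact congrArg (fun f => f q) h1

/-- Products with a common factor: isomorphic rings. -/
theorem gradedIso_prod {X : Fan n m} {Y : Fan n2 m2} (Z : Fan n' m') (h : GradedIso X Y) :
    GradedIso (Prod X Z) (Prod Y Z) := by
  obtain ⟨e, he⟩ := h
  obtain ⟨l, hl1, hl2⟩ := exists_lin e (fun k a h => (he k a).1 h)
  obtain ⟨l', hl1', hl2'⟩ := exists_lin e.symm (fun k a h => by
    rw [he k (e.symm a), e.apply_symm_apply]; exact h)
  have hrel : ∀ q ∈ relIdeal X, MvPolynomial.aeval l q ∈ relIdeal Y := by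
    intro q hq
    rw [← Ideal.Quotient.eq_zero_iff_mem, hl2, Ideal.Quotient.eq_zero_iff_mem.2 hq, map_zero]
  have hrel' : ∀ q ∈ relIdeal Y, MvPolynomial.aeval l' q ∈ relIdeal X := by
    intro q hq
    rw [← Ideal.Quotient.eq_zero_iff_mem, hl2', Ideal.Quotient.eq_zero_iff_mem.2 hq, map_zero]
  -- the two maps
  let F : Coh (Prod X Z) →+* Coh (Prod Y Z) := Ideal.Quotient.lift (relIdeal (Prod X Z))
    ((Ideal.Quotient.mk (relIdeal (Prod Y Z))).comp (gmap m' l).toRingHom)
    (fun q hq => by
      rw [RingHom.comp_apply, Ideal.Quotient.eq_zero_iff_mem]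
      exact gmap_rel X Y Z hrel hq)
  let G : Coh (Prod Y Z) →+* Coh (Prod X Z) := Ideal.Quotient.lift (relIdeal (Prod Y Z))
    ((Ideal.Quotient.mk (relIdeal (Prod X Z))).comp (gmap m' l').toRingHom)
    (fun q hq => by
      rw [RingHom.comp_apply, Ideal.Quotient.eq_zero_iff_mem]
      exact gmap_rel Y X Z hrel' hq)
  have hF : ∀ q, F (Ideal.Quotient.mk _ q) = Ideal.Quotient.mk _ (gmap m' l q) := fun _ => rfl
  have hG : ∀ q, G (Ideal.Quotient.mk _ q) = Ideal.Quotient.mk _ (gmap m' l' q) := fun _ => rfl
  have hGF : G.comp F = RingHom.id _ := by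
    apply Ideal.Quotient.ringHom_ext
    apply MvPolynomial.ringHom_ext
    · intro a
      simp
    · intro i
      simp only [RingHom.comp_apply, RingHom.id_apply]
      rw [hF, hG]
      induction i using Fin.addCases with
      | left i =>
        have hli : Ideal.Quotient.mk (relIdeal Y) (l i) =
            e (Ideal.Quotient.mk (relIdeal X) (MvPolynomial.X i)) := by
          have := hl2 (MvPolynomial.X i)
          rwa [MvPolynomial.aeval_X] at this
        rw [gmap_left, gmap_polL, ← inL_mk, hl2', hli, e.symm_apply_apply, inL_mk, polL,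
          MvPolynomial.rename_X]
      | right i =>
        rw [gmap_right, gmap_right]
  have hFG : F.comp G = RingHom.id _ := by
    apply Ideal.Quotient.ringHom_ext
    apply MvPolynomial.ringHom_ext
    · intro a
      simp
    · intro i
      simp only [RingHom.comp_apply, RingHom.id_apply]
      rw [hG, hF]
      induction i using Fin.addCases with
      | left i =>
        have hli : Ideal.Quotient.mk (relIdeal X) (l' i) =
            e.symm (Ideal.Quotient.mk (relIdeal Y) (MvPolynomial.X i)) := by
          have := hl2' (MvPolynomial.X i)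
          rwa [MvPolynomial.aeval_X] at this
        rw [gmap_left, gmap_polL, ← inL_mk, hl2, hli, e.apply_symm_apply, inL_mk, polL,
          MvPolynomial.rename_X]
      | right i =>
        rw [gmap_right, gmap_right]
  refine ⟨RingEquiv.ofRingHom F G hFG hGF, ?_⟩
  intro k a
  constructor
  · rintro ⟨q, hq, rfl⟩
    exact ⟨gmap m' l q, gmap_homog hl1 hq, rfl⟩
  · rintro ⟨q, hq, h'⟩
    refine ⟨gmap m' l' q, gmap_homog hl1' hq, ?_⟩
    have h1 : G (F a) = a := congrArg (fun f => f a) hGF
    have h2 : F a = Ideal.Quotient.mk _ q := h'.symm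
    rw [← h1, h2]
    rfl

end Pool.Agent.Helper22.FL
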