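import Pool.Agent.Helper22.FL.Stel
import Pool.Agent.Helper22.BU.Ring

/-!
The cohomology rings of the blow-ups along two homologous orbit closures with the same link and
trivial normal bundles are isomorphic.
-/

namespace Pool.Agent.Helper22.FL

open Pool.Agent.Helper21.Toric Pool.Agent.Helper22.BU Finset

variable {n m : ℕ}

section ring
variable {A : Type*} [CommRing A]

lemma prod_sub_orth {ι : Type*} [DecidableEq ι] (x : ι → A) (e : A) {S : Finset ι}
    (hS : S.Nonempty) (h : ∀ i ∈ S, e * x i = 0) :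
    ∏ i ∈ S, (x i - e) = ∏ i ∈ S, x i + (-e) ^ S.card := by
  induction hS using Finset.Nonempty.cons_induction with
  | singleton a => simp [sub_eq_add_neg]
  | cons a s ha hs ih =>
    rw [Finset.prod_cons, Finset.prod_cons, Finset.card_cons,
      ih (fun i hi => h i (Finset.mem_cons_of_mem hi))]
    obtain ⟨b, hb⟩ := hs
    have h1 : e * ∏ i ∈ s, x i = 0 := by
      rw [← Finset.mul_prod_erase s x hb, ← mul_assoc, h b (Finset.mem_cons_of_mem hb), zero_mul]
    have h2 : x a * (-e) ^ s.card = 0 := by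
      have hc : s.card = (s.card - 1) + 1 := by
        have : 0 < s.card := Finset.card_pos.2 ⟨b, hb⟩
        omega
      rw [hc, pow_succ]
      have h3 := h a (Finset.mem_cons_self a s)
      have h4 : x a * ((-e) ^ (s.card - 1) * -e) = -((-e) ^ (s.card - 1) * (e * x a)) := by ring
      rw [h4, h3, mul_zero, neg_zero]
    have h5 : (x a - e) * (∏ i ∈ s, x i + (-e) ^ s.card) =
        x a * ∏ i ∈ s, x i + x a * (-e) ^ s.card - e * ∏ i ∈ s, x i + (-e) ^ (s.card + 1) := by
      ring
    rw [h5, h1, h2]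
    ring

end ring

section
variable (X : Fan n m) {β : Finset (Fin m)} (hβ : β ∈ X.faces) (h2 : 2 ≤ β.card)

/-- class of a variable in the ring of the blow-up -/
noncomputable def cls (i : Fin (m + 1)) : Coh (Stel X β hβ h2) :=
  Ideal.Quotient.mk (relIdeal (Stel X β hβ h2)) (MvPolynomial.X i)

/-- pull-backs of the old classes -/
noncomputable def pxs (i : Fin m) : Coh (Stel X β hβ h2) :=
  cls X hβ h2 i.castSucc + if i ∈ β then cls X hβ h2 (Fin.last m) else 0

lemma cls_nonface {σ : Finset (Fin (m + 1))} (h : σ ∉ stel X.faces β) :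
    ∏ i ∈ σ, cls X hβ h2 i = 0 := by
  have h1 := mon_nonface (Stel X β hβ h2) (σ := σ) h
  rw [mon, map_prod] at h1
  exact h1

lemma cls_linear (u : Fin n → ℤ) :
    ∑ i, (ipz u (X.ray i) : Coh (Stel X β hβ h2)) * pxs X hβ h2 i = 0 := by
  have h1 : Ideal.Quotient.mk (relIdeal (Stel X β hβ h2))
      (∑ i, MvPolynomial.C (ipz u ((Stel X β hβ h2).ray i)) * MvPolynomial.X i) = 0 := by
    rw [Ideal.Quotient.eq_zero_iff_mem]
    exact linear_mem _ u
  rw [Fin.sum_univ_castSucc, Stel_ray, bray_last] at h1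
  simp only [bray_cast] at h1
  have h2' : ipz u (∑ i ∈ β, X.ray i) = ∑ i ∈ β, ipz u (X.ray i) := by
    have := ipz_sum u X.ray (fun i => if i ∈ β then 1 else 0)
    simp only [ite_smul, one_smul, zero_smul, ite_mul, one_mul, zero_mul] at this
    rw [← Finset.sum_filter, ← Finset.sum_filter] at this
    simpa using this
  rw [h2', map_add, map_sum, map_mul] at h1
  have h3 : ∀ i, Ideal.Quotient.mk (relIdeal (Stel X β hβ h2))
      (MvPolynomial.C (ipz u (X.ray i)) * MvPolynomial.X i.castSucc) =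
      (ipz u (X.ray i) : Coh (Stel X β hβ h2)) * cls X hβ h2 i.castSucc := by
    intro i
    rw [map_mul, cls]
    simp
  have h4 : Ideal.Quotient.mk (relIdeal (Stel X β hβ h2))
      (MvPolynomial.C (∑ i ∈ β, ipz u (X.ray i))) =
      ∑ i ∈ β, (ipz u (X.ray i) : Coh (Stel X β hβ h2)) := by
    simp
  rw [h4, Finset.sum_congr rfl (fun i _ => h3 i), Finset.sum_mul] at h1
  simp only [pxs, mul_add, Finset.sum_add_distrib]
  refine Eq.trans ?_ h1
  congr 1
  simp only [mul_ite, mul_zero]
  rw [← Finset.sum_filter]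
  simp only [Finset.filter_mem_eq_inter, Finset.univ_inter]
  rfl

lemma last_mul_out {j : Fin m} (hj : j ∉ β) (hj' : insert j β ∉ X.faces) :
    cls X hβ h2 (Fin.last m) * pxs X hβ h2 j = 0 := by
  rw [pxs, if_neg hj, add_zero]
  have h1 : ({Fin.last m, j.castSucc} : Finset (Fin (m + 1))) ∉ stel X.faces β := by
    rintro ⟨_, _, h3⟩
    apply hj'
    have h4 : old ({Fin.last m, j.castSucc} : Finset (Fin (m + 1))) = {j} := by
      ext i; simp [mem_old]
    have h5 := h3 (by simp)
    rw [h4] at h5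
    exact h5
  have h3 := cls_nonface X hβ h2 h1
  rwa [Finset.prod_pair (Fin.castSucc_lt_last j).ne'] at h3

/-- the normal bundle is trivial -/
def Triv (X : Fan n m) (β : Finset (Fin m)) : Prop :=
  ∀ i ∈ β, ∃ u : Fin n → ℤ, ipz u (X.ray i) = 1 ∧
    ∀ j, j ≠ i → insert j β ∈ X.faces → ipz u (X.ray j) = 0

lemma last_mul_in (ht : Triv X β) {j : Fin m} (hj : j ∈ β) :
    cls X hβ h2 (Fin.last m) * pxs X hβ h2 j = 0 := by
  obtain ⟨u, hu, hu'⟩ := ht j hj
  have h1 : cls X hβ h2 (Fin.last m) *
      ∑ i, (ipz u (X.ray i) : Coh (Stel X β hβ h2)) * pxs X hβ h2 i = 0 := by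
    rw [cls_linear, mul_zero]
  rw [Finset.mul_sum, Finset.sum_eq_single j] at h1
  · rw [hu] at h1
    simpa using h1
  · intro i _ hij
    by_cases hi : insert i β ∈ X.faces
    · rw [hu' i hij hi]; simp
    · have hiβ : i ∉ β := by
        intro h
        apply hi
        rw [Finset.insert_eq_of_mem h]
        exact hβ
      rw [mul_left_comm, last_mul_out X hβ h2 hiβ hi, mul_zero]
  · intro h; exact absurd (Finset.mem_univ j) h

lemma last_mul_prod (ht : Triv X β) {S : Finset (Fin m)} (hS : S ∪ β ∉ X.faces) :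
    cls X hβ h2 (Fin.last m) * ∏ i ∈ S, pxs X hβ h2 i = 0 := by
  have hfac : ∀ i ∈ S, cls X hβ h2 (Fin.last m) * pxs X hβ h2 i = 0 →
      cls X hβ h2 (Fin.last m) * ∏ i ∈ S, pxs X hβ h2 i = 0 := by
    intro i hi h
    rw [← Finset.mul_prod_erase S _ hi, ← mul_assoc, h, zero_mul]
  by_cases hall : ∀ i ∈ S, i ∉ β ∧ insert i β ∈ X.faces
  · have h1 : insert (Fin.last m) (S.map Fin.castSuccEmb) ∉ stel X.faces β := by
      rintro ⟨_, _, h3⟩
      rw [old_insert] at h3
      exact hS (h3 (Finset.mem_insert_self _ _))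
    have h3 := cls_nonface X hβ h2 h1
    rw [Finset.prod_insert (last_notMem_map S), Finset.prod_map] at h3
    refine Eq.trans ?_ h3
    congr 1
    apply Finset.prod_congr rfl
    intro i hi
    rw [pxs, if_neg (hall i hi).1, add_zero]
    rfl
  · push Not at hall
    obtain ⟨i, hi, h⟩ := hall
    by_cases hiβ : i ∈ β
    · exact hfac i hi (last_mul_in X hβ h2 ht hiβ)
    · exact hfac i hi (last_mul_out X hβ h2 hiβ (h hiβ))

/-- the product formula -/
lemma prod_split (S T : Finset (Fin m))
    (hT : ∀ i ∈ T, cls X hβ h2 (Fin.last m) * pxs X hβ h2 i = 0) (hne : (S ∩ T).Nonempty) :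
    ∏ i ∈ S, (pxs X hβ h2 i - if i ∈ T then cls X hβ h2 (Fin.last m) else 0) =
      ∏ i ∈ S, pxs X hβ h2 i +
        (- cls X hβ h2 (Fin.last m)) ^ (S ∩ T).card * ∏ i ∈ S \ T, pxs X hβ h2 i := by
  have e1 : ∏ i ∈ S, (pxs X hβ h2 i - if i ∈ T then cls X hβ h2 (Fin.last m) else 0) =
      (∏ i ∈ S \ T, (pxs X hβ h2 i - if i ∈ T then cls X hβ h2 (Fin.last m) else 0)) *
      ∏ i ∈ S ∩ T, (pxs X hβ h2 i - if i ∈ T then cls X hβ h2 (Fin.last m) else 0) := by
    rw [← Finset.prod_sdiff (Finset.inter_subset_left : S ∩ T ⊆ S), Finset.sdiff_inter_self_left]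
  have e2 : ∏ i ∈ S, pxs X hβ h2 i = (∏ i ∈ S \ T, pxs X hβ h2 i) * ∏ i ∈ S ∩ T, pxs X hβ h2 i := by
    rw [← Finset.prod_sdiff (Finset.inter_subset_left : S ∩ T ⊆ S), Finset.sdiff_inter_self_left]
  have e3 : ∏ i ∈ S ∩ T, (pxs X hβ h2 i - if i ∈ T then cls X hβ h2 (Fin.last m) else 0) =
      ∏ i ∈ S ∩ T, (pxs X hβ h2 i - cls X hβ h2 (Fin.last m)) := by
    apply Finset.prod_congr rfl
    intro i hi
    rw [if_pos (Finset.mem_inter.1 hi).2]
  have e4 : ∏ i ∈ S \ T, (pxs X hβ h2 i - if i ∈ T then cls X hβ h2 (Fin.last m) else 0) =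
      ∏ i ∈ S \ T, pxs X hβ h2 i := by
    apply Finset.prod_congr rfl
    intro i hi
    rw [if_neg (Finset.mem_sdiff.1 hi).2, sub_zero]
  rw [e1, e3, e4, prod_sub_orth _ _ hne (fun i hi => hT i (Finset.mem_inter.1 hi).2), e2]
  ring

lemma prod_split' (S T : Finset (Fin m)) (hne : ¬ (S ∩ T).Nonempty) :
    ∏ i ∈ S, (pxs X hβ h2 i - if i ∈ T then cls X hβ h2 (Fin.last m) else 0) =
      ∏ i ∈ S, pxs X hβ h2 i := by
  apply Finset.prod_congr rfl
  intro i hi
  rw [if_neg (fun h => hne ⟨i, Finset.mem_inter.2 ⟨hi, h⟩⟩), sub_zero]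

lemma pxs_sub (i : Fin m) : cls X hβ h2 i.castSucc =
    pxs X hβ h2 i - if i ∈ β then cls X hβ h2 (Fin.last m) else 0 := by
  rw [pxs]; ring

lemma cls_map (S : Finset (Fin m)) :
    ∏ i ∈ S.map Fin.castSuccEmb, cls X hβ h2 i = ∏ i ∈ S, cls X hβ h2 i.castSucc := by
  rw [Finset.prod_map]; rfl

lemma pow_mul_zero {A : Type*} [CommRing A] {e z : A} {k : ℕ} (hk : k ≠ 0) (h : e * z = 0) :
    (-e) ^ k * z = 0 := by
  obtain ⟨j, rfl⟩ := Nat.exists_eq_succ_of_ne_zero hk
  rw [pow_succ, mul_assoc, neg_mul, h, neg_zero, mul_zero]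

/-- pull-back of the Stanley-Reisner relations -/
lemma pxs_nonface (ht : Triv X β) {σ : Finset (Fin m)} (h : σ ∉ X.faces) :
    ∏ i ∈ σ, pxs X hβ h2 i = 0 := by
  have h1 : σ.map Fin.castSuccEmb ∉ stel X.faces β := by
    rintro ⟨h1, _, _⟩
    rw [old_map] at h1
    exact h h1
  have h3 := cls_nonface X hβ h2 h1
  rw [cls_map] at h3
  simp_rw [pxs_sub] at h3
  by_cases hne : (σ ∩ β).Nonempty
  · rw [prod_split X hβ h2 σ β (fun i hi => last_mul_in X hβ h2 ht hi) hne] at h3
    have h4 : cls X hβ h2 (Fin.last m) * ∏ i ∈ σ \ β, pxs X hβ h2 i = 0 := by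
      apply last_mul_prod X hβ h2 ht
      intro h5
      apply h
      apply X.down_closed _ h5
      intro i hi
      by_cases hiβ : i ∈ β
      · exact Finset.mem_union_right _ hiβ
      · exact Finset.mem_union_left _ (Finset.mem_sdiff.2 ⟨hi, hiβ⟩)
    rw [pow_mul_zero (Finset.card_ne_zero.2 hne) h4, add_zero] at h3
    exact h3
  · rw [prod_split' X hβ h2 σ β hne] at h3
    exact h3

/-- the relation of the exceptional class -/
lemma pxs_center (ht : Triv X β) :
    ∏ i ∈ β, pxs X hβ h2 i + (- cls X hβ h2 (Fin.last m)) ^ β.card = 0 := by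
  have h1 : β.map Fin.castSuccEmb ∉ stel X.faces β := by
    rintro ⟨_, h2, _⟩
    rw [old_map] at h2
    exact h2 (Finset.Subset.refl _)
  have h3 := cls_nonface X hβ h2 h1
  rw [cls_map] at h3
  simp_rw [pxs_sub] at h3
  have hne : (β ∩ β).Nonempty := by
    rw [Finset.inter_self, ← Finset.card_pos]; omega
  rw [prod_split X hβ h2 β β (fun i hi => last_mul_in X hβ h2 ht hi) hne] at h3
  simpa using h3

/-- the pull-back of rings -/
noncomputable def pulls : MvPolynomial (Fin m) ℤ →+* Coh (Stel X β hβ h2) :=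
  MvPolynomial.eval₂Hom (Int.castRingHom _) (pxs X hβ h2)

lemma pulls_rel (ht : Triv X β) (q : MvPolynomial (Fin m) ℤ) (hq : q ∈ relIdeal X) :
    pulls X hβ h2 q = 0 := by
  have h : relIdeal X ≤ RingHom.ker (pulls X hβ h2) := by
    refine sup_le ?_ ?_
    · rw [Ideal.span_le]
      rintro q ⟨σ, hσ, rfl⟩
      rw [SetLike.mem_coe, RingHom.mem_ker, map_prod]
      have := pxs_nonface X hβ h2 ht hσ
      simpa [pulls] using this
    · rw [Ideal.span_le]
      rintro q ⟨j, rfl⟩
      rw [SetLike.mem_coe, RingHom.mem_ker, map_sum]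
      have h1 := cls_linear X hβ h2 (Pi.single j 1)
      have h2 : ∀ i, ipz (Pi.single j 1) (X.ray i) = X.ray i j := by
        intro i
        simp [ipz, Pi.single_apply]
      simp_rw [h2] at h1
      refine Eq.trans (Finset.sum_congr rfl fun i _ => ?_) h1
      rw [map_mul]
      congr 1
      · exact (MvPolynomial.eval₂Hom_C _ _ _).trans (eq_intCast _ _)
      · exact MvPolynomial.eval₂Hom_X' _ _ _
  exact h hq

lemma pulls_mon (ht : Triv X β) {σ σ' : Finset (Fin m)} (h : mon X σ = mon X σ') :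
    ∏ i ∈ σ, pxs X hβ h2 i = ∏ i ∈ σ', pxs X hβ h2 i := by
  rw [mon, mon, Ideal.Quotient.eq] at h
  have h1 := pulls_rel X hβ h2 ht _ h
  rw [map_sub, map_prod, map_prod, sub_eq_zero] at h1
  simpa [pulls] using h1

end

/-- Two orbit closures with the same link, trivial normal bundles, and the same class. -/
structure Twin (X : Fan n m) (α β : Finset (Fin m)) : Prop where
  ha : α ∈ X.faces
  hb : β ∈ X.faces
  ca : 2 ≤ α.card
  cb : 2 ≤ β.card
  card : α.card = β.card
  out1 : ∀ i ∈ β, i ∉ α ∧ insert i α ∉ X.faces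
  out2 : ∀ i ∈ α, i ∉ β ∧ insert i β ∉ X.faces
  link : ∀ ρ, Disjoint ρ α → Disjoint ρ β → (ρ ∪ α ∈ X.faces ↔ ρ ∪ β ∈ X.faces)
  triv1 : Triv X α
  triv2 : Triv X β
  cls : mon X α = mon X β

lemma Twin.symm {X : Fan n m} {α β : Finset (Fin m)} (h : Twin X α β) : Twin X β α where
  ha := h.hb
  hb := h.ha
  ca := h.cb
  cb := h.ca
  card := h.card.symm
  out1 := h.out2
  out2 := h.out1
  link := fun ρ h1 h2 => (h.link ρ h2 h1).symm
  triv1 := h.triv2
  triv2 := h.triv1
  cls := h.cls.symm

section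
variable (X : Fan n m) {α β : Finset (Fin m)}

lemma mk_substs_cast (hβ : β ∈ X.faces) (h2 : 2 ≤ β.card) (i : Fin m) :
    Ideal.Quotient.mk (relIdeal (Stel X β hβ h2)) (subst α β (MvPolynomial.X i.castSucc)) =
      pxs X hβ h2 i - if i ∈ α then cls X hβ h2 (Fin.last m) else 0 := by
  rw [subst_cast, map_sub, map_add, pxs]
  congr 1
  · congr 1
    split_ifs
    · rfl
    · exact map_zero _
  · split_ifs
    · rfl
    · exact map_zero _

/-- The substitution carries the relations of one blow-up to relations of the other. -/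
theorem substs_rel (h : Twin X α β) {q : MvPolynomial (Fin (m + 1)) ℤ}
    (hq : q ∈ relIdeal (Stel X α h.ha h.ca)) :
    subst α β q ∈ relIdeal (Stel X β h.hb h.cb) := by
  have hout : ∀ i ∈ α, cls X h.hb h.cb (Fin.last m) * pxs X h.hb h.cb i = 0 := fun i hi =>
    last_mul_out X h.hb h.cb (h.out2 i hi).1 (h.out2 i hi).2
  -- the key vanishing
  have hkey : ∀ S : Finset (Fin m), Disjoint S α → S ∪ α ∉ X.faces →
      cls X h.hb h.cb (Fin.last m) * ∏ i ∈ S, pxs X h.hb h.cb i = 0 := by
    intro S hS hSα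
    by_cases hSβ : Disjoint S β
    · exact last_mul_prod X h.hb h.cb h.triv2 (fun h' => hSα ((h.link S hS hSβ).2 h'))
    · rw [Finset.not_disjoint_iff] at hSβ
      obtain ⟨i, hi, hiβ⟩ := hSβ
      rw [← Finset.mul_prod_erase S _ hi, ← mul_assoc, last_mul_in X h.hb h.cb h.triv2 hiβ, zero_mul]
  let f : MvPolynomial (Fin (m + 1)) ℤ →+* Coh (Stel X β h.hb h.cb) :=
    (Ideal.Quotient.mk (relIdeal (Stel X β h.hb h.cb))).comp (subst α β).toRingHom
  have hf : ∀ q, f q = Ideal.Quotient.mk (relIdeal (Stel X β h.hb h.cb)) (subst α β q) :=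
    fun _ => rfl
  have hfl : f (MvPolynomial.X (Fin.last m)) = cls X h.hb h.cb (Fin.last m) := by
    rw [hf, subst_last]; rfl
  have hfc : ∀ i : Fin m, f (MvPolynomial.X i.castSucc) =
      pxs X h.hb h.cb i - if i ∈ α then cls X h.hb h.cb (Fin.last m) else 0 := by
    intro i
    rw [hf, mk_substs_cast]
  have hle : relIdeal (Stel X α h.ha h.ca) ≤ RingHom.ker f := by
    refine sup_le ?_ ?_
    · rw [Ideal.span_le]
      rintro q ⟨σ, hσ, rfl⟩
      rw [SetLike.mem_coe, RingHom.mem_ker, map_prod]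
      -- product over the old part divides the product
      have hdiv : ∀ S : Finset (Fin m), S ⊆ old σ →
          (∏ i ∈ S, f (MvPolynomial.X i.castSucc)) = 0 → ∏ i ∈ σ, f (MvPolynomial.X i) = 0 := by
        intro S hS h0
        have hsub : S.map Fin.castSuccEmb ⊆ σ := by
          intro i hi
          obtain ⟨j, hj, rfl⟩ := Finset.mem_map.1 hi
          exact mem_old.1 (hS hj)
        rw [← Finset.prod_sdiff hsub, Finset.prod_map]
        rw [show ∏ x ∈ S, f (MvPolynomial.X (Fin.castSuccEmb x)) = 0 from h0, mul_zero]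
      by_cases h1 : α ⊆ old σ
      · apply hdiv α h1
        simp_rw [hfc]
        have hne : (α ∩ α).Nonempty := by
          rw [Finset.inter_self, ← Finset.card_pos]
          have := h.ca
          omega
        rw [prod_split X h.hb h.cb α α hout hne, pulls_mon X h.hb h.cb h.triv2 h.cls]
        have := pxs_center X h.hb h.cb h.triv2
        simpa [h.card] using this
      · by_cases h2 : old σ ∈ X.faces
        · -- the new vertex belongs to σ
          have h3 : Fin.last m ∈ σ ∧ old σ ∪ α ∉ X.faces := by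
            by_contra hcon
            apply hσ
            refine ⟨h2, h1, ?_⟩
            intro hl
            by_contra h4
            exact hcon ⟨hl, h4⟩
          have e0 : ∏ i ∈ σ, f (MvPolynomial.X i) =
              cls X h.hb h.cb (Fin.last m) * ∏ i ∈ old σ, f (MvPolynomial.X i.castSucc) := by
            conv_lhs => rw [eq_of_last_mem h3.1]
            rw [Finset.prod_insert (last_notMem_map _), hfl, Finset.prod_map]
            rfl
          rw [e0]
          simp_rw [hfc]
          have hS : Disjoint (old σ \ α) α := Finset.sdiff_disjoint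
          have hSα : old σ \ α ∪ α ∉ X.faces := by
            rw [Finset.sdiff_union_self_eq_union]
            exact h3.2
          by_cases hne : (old σ ∩ α).Nonempty
          · rw [prod_split X h.hb h.cb _ _ hout hne, mul_add, mul_left_comm, hkey _ hS hSα,
              mul_zero, add_zero]
            obtain ⟨i, hi⟩ := hne
            rw [Finset.mem_inter] at hi
            rw [← Finset.mul_prod_erase _ _ hi.1, ← mul_assoc, hout i hi.2, zero_mul]
          · rw [prod_split' X h.hb h.cb _ _ hne]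
            have : old σ \ α = old σ := by
              rw [Finset.sdiff_eq_self_iff_disjoint, Finset.disjoint_iff_inter_eq_empty]
              rwa [Finset.not_nonempty_iff_eq_empty] at hne
            rw [this] at hS hSα
            exact hkey _ hS hSα
        · apply hdiv (old σ) (Finset.Subset.refl _)
          simp_rw [hfc]
          by_cases hne : (old σ ∩ α).Nonempty
          · rw [prod_split X h.hb h.cb _ _ hout hne, pxs_nonface X h.hb h.cb h.triv2 h2, zero_add]
            apply pow_mul_zero (Finset.card_ne_zero.2 hne)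
            apply hkey _ Finset.sdiff_disjoint
            rw [Finset.sdiff_union_self_eq_union]
            intro h'
            exact h2 (X.down_closed _ h' _ Finset.subset_union_left)
          · rw [prod_split' X h.hb h.cb _ _ hne, pxs_nonface X h.hb h.cb h.triv2 h2]
    · rw [Ideal.span_le]
      rintro q ⟨j, rfl⟩
      rw [SetLike.mem_coe, RingHom.mem_ker, map_sum]
      have h1 := cls_linear X h.hb h.cb (Pi.single j 1)
      have h2 : ∀ i, ipz (Pi.single j 1) (X.ray i) = X.ray i j := by
        intro i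
        simp [ipz, Pi.single_apply]
      simp_rw [h2] at h1
      rw [Fin.sum_univ_castSucc, Stel_ray, bray_last]
      simp only [bray_cast, map_mul, hfc, hfl, Finset.sum_apply]
      have h3 : ∀ a : ℤ, f (MvPolynomial.C a) = (a : Coh (Stel X β h.hb h.cb)) := by
        intro a
        simp [f]
      simp only [h3, mul_sub, Finset.sum_sub_distrib, h1, zero_sub]
      push_cast
      rw [Finset.sum_mul]
      simp only [mul_ite, mul_zero]
      rw [← Finset.sum_filter]
      simp only [Finset.filter_mem_eq_inter, Finset.univ_inter]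
      rw [neg_add_eq_zero]
  have := hle hq
  rw [RingHom.mem_ker, hf, Ideal.Quotient.eq_zero_iff_mem] at this
  exact this

/-- The cohomology rings of the blow-ups along twin orbit closures are isomorphic. -/
theorem gradedIso_stel (h : Twin X α β) :
    GradedIso (Stel X α h.ha h.ca) (Stel X β h.hb h.cb) := by
  let e : MvPolynomial (Fin (m + 1)) ℤ ≃+* MvPolynomial (Fin (m + 1)) ℤ :=
    { (subst α β).toRingHom with
      invFun := subst β α
      left_inv := subst_subst α β
      right_inv := subst_subst β α }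
  have he : ∀ q, e q = subst α β q := fun _ => rfl
  have hmap : relIdeal (Stel X β h.hb h.cb) =
      (relIdeal (Stel X α h.ha h.ca)).map (e : _ →+* _) := by
    apply le_antisymm
    · intro q hq
      have h1 := substs_rel X h.symm hq
      have h2 : q = (e : MvPolynomial (Fin (m + 1)) ℤ →+* _) (subst β α q) := by
        rw [RingEquiv.coe_toRingHom, he, subst_subst]
      rw [h2]
      exact Ideal.mem_map_of_mem _ h1
    · rw [Ideal.map_le_iff_le_comap]
      intro q hq
      exact substs_rel X h hq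
  refine ⟨Ideal.quotientEquiv _ _ e hmap, ?_⟩
  intro k a
  constructor
  · rintro ⟨q, hq, rfl⟩
    exact ⟨subst α β q, subst_homog _ _ hq, rfl⟩
  · rintro ⟨q, hq, h'⟩
    refine ⟨subst β α q, subst_homog _ _ hq, ?_⟩
    apply (Ideal.quotientEquiv _ _ e hmap).injective
    rw [← h', Ideal.quotientEquiv_mk, he, subst_subst]

end

end Pool.Agent.Helper22.FL
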