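import Pool.Agent.Helper22.FL.Prob

/-!
Protected sets of exceptional vertices.
-/

namespace Pool.Agent.Helper22.FL

open Pool.Agent.Helper21.Toric Pool.Agent.Helper22.BU Finset

variable {n m m' : ℕ}

/-- a set of exceptional vertices any two of which come from a double point blow-up -/
def Good (n : ℕ) {m : ℕ} (K : Set (Finset (Fin m))) (S : Finset (Fin m)) : Prop :=
  (∀ v ∈ S, One n K v) ∧ ∀ v ∈ S, ∀ w ∈ S, v ≠ w → Two n K v w ∨ Two n K w v

/-- the subdivision of `σ` does not touch the vertices in `S` -/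
def Und {m : ℕ} (K : Set (Finset (Fin m))) (S : Finset (Fin m)) (σ : Finset (Fin m)) : Prop :=
  ∀ v ∈ S, insert v σ ∉ K

lemma good_empty (K : Set (Finset (Fin m))) : Good n K ∅ :=
  ⟨fun v hv => absurd hv (Finset.notMem_empty v), fun v hv => absurd hv (Finset.notMem_empty v)⟩

lemma good_keep {K : Set (Finset (Fin m))} {S : Finset (Fin m)} (h : Good n K S)
    {σ : Finset (Fin m)} (hσ : σ ∈ centres K) (hu : Und K S σ) :
    Good n (stel K σ) (S.map Fin.castSuccEmb) := by
  rw [mem_centres] at hσ
  refine ⟨?_, ?_⟩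
  · intro v hv
    obtain ⟨v0, hv0, rfl⟩ := Finset.mem_map.1 hv
    exact one_keep (h.1 v0 hv0) hσ.1 hσ.2 (hu v0 hv0)
  · intro v hv w hw hne
    obtain ⟨v0, hv0, rfl⟩ := Finset.mem_map.1 hv
    obtain ⟨w0, hw0, rfl⟩ := Finset.mem_map.1 hw
    have hne0 : v0 ≠ w0 := fun h => hne (by rw [h])
    rcases h.2 v0 hv0 w0 hw0 hne0 with h1 | h1
    · exact Or.inl (two_keep h1 hσ.1 hσ.2 (hu v0 hv0) (hu w0 hw0))
    · exact Or.inr (two_keep h1 hσ.1 hσ.2 (hu w0 hw0) (hu v0 hv0))

lemma good_new {X : Fan n m} {S : Finset (Fin m)} (h : Good n X.faces S)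
    {σ : Finset (Fin m)} (hσ : σ ∈ centres X.faces) (hu : Und X.faces S σ)
    (hf : IsFacet n X.faces σ) :
    Good n (stel X.faces σ) (insert (Fin.last m) (S.map Fin.castSuccEmb)) := by
  have hk := good_keep h hσ hu
  refine ⟨?_, ?_⟩
  · intro v hv
    rw [Finset.mem_insert] at hv
    rcases hv with rfl | hv
    · exact one_new X hf
    · exact hk.1 v hv
  · intro v hv w hw hne
    rw [Finset.mem_insert] at hv hw
    rcases hv with rfl | hv
    · rcases hw with rfl | hw
      · exact absurd rfl hne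
      · obtain ⟨w0, hw0, rfl⟩ := Finset.mem_map.1 hw
        exact Or.inr (two_new (h.1 w0 hw0) hf)
    · rcases hw with rfl | hw
      · obtain ⟨v0, hv0, rfl⟩ := Finset.mem_map.1 hv
        exact Or.inl (two_new (h.1 v0 hv0) hf)
      · exact hk.2 v hv w hw hne

lemma good_mono {K : Set (Finset (Fin m))} {S T : Finset (Fin m)} (h : Good n K S) (hT : T ⊆ S) :
    Good n K T :=
  ⟨fun v hv => h.1 v (hT hv), fun v hv w hw => h.2 v (hT hv) w (hT hw)⟩

open Classical in
/-- the centres that touch all vertices in `S` -/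
noncomputable def DD {m : ℕ} (K : Set (Finset (Fin m))) (S : Finset (Fin m)) :
    Finset (Finset (Fin m)) :=
  (centres K).filter fun σ => ∀ v ∈ S, insert v σ ∈ K

lemma mem_DD {K : Set (Finset (Fin m))} {S σ : Finset (Fin m)} :
    σ ∈ DD K S ↔ σ ∈ centres K ∧ ∀ v ∈ S, insert v σ ∈ K := by
  simp [DD]

lemma DD_empty (K : Set (Finset (Fin m))) : DD K ∅ = centres K := by
  ext σ
  simp [mem_DD]

lemma DD_sub (K : Set (Finset (Fin m))) (S : Finset (Fin m)) : DD K S ⊆ centres K :=
  fun _ h => (mem_DD.1 h).1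

/-- A face of the subdivided complex that touches an untouched vertex is old. -/
lemma old_of_touch {K : Set (Finset (Fin m))} (hK : ∀ σ ∈ K, ∀ τ, τ ⊆ σ → τ ∈ K)
    {ρ : Finset (Fin m)} {v : Fin m} (hv : insert v ρ ∉ K)
    {σ : Finset (Fin (m + 1))} (h : insert v.castSucc σ ∈ stel K ρ) : Fin.last m ∉ σ := by
  intro hl
  have h1 := h.2.2 (Finset.mem_insert_of_mem hl)
  apply hv
  apply hK _ h1
  intro i hi
  rw [Finset.mem_insert] at hi
  rw [Finset.mem_union]
  rcases hi with rfl | hi
  · left
    rw [mem_old]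
    exact Finset.mem_insert_self _ _
  · right; exact hi

lemma old_insert_cast (v : Fin m) (σ : Finset (Fin (m + 1))) :
    old (insert v.castSucc σ) = insert v (old σ) := by
  ext i
  simp [mem_old]

lemma old_card {σ : Finset (Fin (m + 1))} (h : Fin.last m ∉ σ) : (old σ).card = σ.card := by
  conv_rhs => rw [eq_of_last_notMem h]
  rw [Finset.card_map]

lemma old_inj {σ τ : Finset (Fin (m + 1))} (h : Fin.last m ∉ σ) (h' : Fin.last m ∉ τ)
    (he : old σ = old τ) : σ = τ := by
  rw [eq_of_last_notMem h, eq_of_last_notMem h', he]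

/-- The number of centres touching all vertices of a fixed nonempty set does not grow. -/
lemma card_DD_keep {K : Set (Finset (Fin m))} (hK : ∀ σ ∈ K, ∀ τ, τ ⊆ σ → τ ∈ K)
    {ρ S : Finset (Fin m)} (hS : S.Nonempty) (hu : Und K S ρ) :
    (DD (stel K ρ) (S.map Fin.castSuccEmb)).card ≤ (DD K S).card := by
  obtain ⟨v0, hv0⟩ := hS
  have hl : ∀ σ ∈ DD (stel K ρ) (S.map Fin.castSuccEmb), Fin.last m ∉ σ := by
    intro σ hσ
    rw [mem_DD] at hσ
    exact old_of_touch hK (hu v0 hv0) (hσ.2 _ (Finset.mem_map_of_mem _ hv0))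
  apply Finset.card_le_card_of_injOn old
  · intro σ hσ
    rw [Finset.mem_coe] at hσ ⊢
    have h1 := hl σ hσ
    rw [mem_DD, mem_centres] at hσ ⊢
    refine ⟨⟨hσ.1.1.1, ?_⟩, ?_⟩
    · rw [old_card h1]; exact hσ.1.2
    · intro v hv
      have h2 := (hσ.2 _ (Finset.mem_map_of_mem _ hv)).1
      change old (insert v.castSucc σ) ∈ K at h2
      rwa [old_insert_cast] at h2
  · intro σ hσ τ hτ h
    exact old_inj (hl σ hσ) (hl τ hτ) h

open Classical in
/-- The centres touching all vertices of `S` and the new exceptional vertex. -/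
lemma card_DD_new {X : Fan n m} {ρ S : Finset (Fin m)} (hS : S.Nonempty)
    (hu : Und X.faces S ρ) (hρ : IsFacet n X.faces ρ) :
    (DD (stel X.faces ρ) (insert (Fin.last m) (S.map Fin.castSuccEmb))).card ≤
      ((DD X.faces S).filter fun σ => σ ⊆ ρ).card := by
  obtain ⟨v0, hv0⟩ := hS
  have hK := X.down_closed
  have hl : ∀ σ ∈ DD (stel X.faces ρ) (insert (Fin.last m) (S.map Fin.castSuccEmb)),
      Fin.last m ∉ σ := by
    intro σ hσ
    rw [mem_DD] at hσ
    exact old_of_touch hK (hu v0 hv0) (hσ.2 _ (Finset.mem_insert_of_mem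
      (Finset.mem_map_of_mem _ hv0)))
  apply Finset.card_le_card_of_injOn old
  · intro σ hσ
    rw [Finset.mem_coe] at hσ ⊢
    have h1 := hl σ hσ
    rw [Finset.mem_filter]
    rw [mem_DD, mem_centres] at hσ ⊢
    refine ⟨⟨⟨hσ.1.1.1, ?_⟩, ?_⟩, ?_⟩
    · rw [old_card h1]; exact hσ.1.2
    · intro v hv
      have h2 := (hσ.2 _ (Finset.mem_insert_of_mem (Finset.mem_map_of_mem _ hv))).1
      change old (insert v.castSucc σ) ∈ X.faces at h2
      rwa [old_insert_cast] at h2
    · have h2 := (hσ.2 _ (Finset.mem_insert_self _ _)).2.2 (Finset.mem_insert_self _ _)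
      rw [last_mem_insert] at h2
      exact sub_of_facet hρ h2
  · intro σ hσ τ hτ h
    exact old_inj (hl σ hσ) (hl τ hτ) h

lemma card_DD_first {X : Fan n m} {ρ : Finset (Fin m)} (hρ : IsFacet n X.faces ρ) :
    (DD (stel X.faces ρ) {Fin.last m}).card ≤ 2 ^ (n + 1) := by
  obtain ⟨T, hT1, hT2⟩ := one_small (one_new X hρ)
  apply card_bad hT1
  intro σ hσ
  rw [mem_DD] at hσ
  exact hT2 σ (hσ.2 _ (Finset.mem_singleton_self _))

/-- Subdivisions do not decrease the number of centres. -/
lemma card_centres_mono {K : Set (Finset (Fin m))} (hK : ∀ σ ∈ K, ∀ τ, τ ⊆ σ → τ ∈ K)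
    {ρ : Finset (Fin m)} (hρ : ρ ∈ centres K) :
    (centres K).card ≤ (centres (stel K ρ)).card := by
  classical
  rw [mem_centres] at hρ
  have hne : ρ.Nonempty := by
    rw [← Finset.card_pos]; omega
  obtain ⟨x, hx⟩ := hne
  let f : Finset (Fin m) → Finset (Fin (m + 1)) := fun σ =>
    if ρ ⊆ σ then insert (Fin.last m) ((σ.erase x).map Fin.castSuccEmb)
    else σ.map Fin.castSuccEmb
  apply Finset.card_le_card_of_injOn f
  · intro σ hσ
    rw [Finset.mem_coe, mem_centres] at hσ ⊢
    simp only [f]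
    split_ifs with h
    · refine ⟨⟨?_, ?_, fun _ => ?_⟩, ?_⟩
      · rw [old_insert]; exact hK _ hσ.1 _ (Finset.erase_subset _ _)
      · rw [old_insert]
        intro h1
        exact Finset.notMem_erase x σ (h1 hx)
      · rw [old_insert]
        exact hK _ hσ.1 _ (Finset.union_subset (Finset.erase_subset _ _) h)
      · rw [Finset.card_insert_of_notMem (last_notMem_map _), Finset.card_map,
          Finset.card_erase_add_one (h hx)]
        exact hσ.2
    · refine ⟨⟨?_, ?_, fun h1 => absurd h1 (last_notMem_map _)⟩, ?_⟩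
      · rw [old_map]; exact hσ.1
      · rw [old_map]; exact h
      · rw [Finset.card_map]; exact hσ.2
  · intro σ hσ τ hτ h
    simp only [f] at h
    split_ifs at h with h1 h2 h2
    · have h3 := congrArg old h
      rw [old_insert, old_insert] at h3
      rw [← Finset.insert_erase (h1 hx), h3, Finset.insert_erase (h2 hx)]
    · have h3 : Fin.last m ∈ τ.map Fin.castSuccEmb := by
        rw [← h]; exact Finset.mem_insert_self _ _
      exact absurd h3 (last_notMem_map _)
    · have h3 : Fin.last m ∈ σ.map Fin.castSuccEmb := by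
        rw [h]; exact Finset.mem_insert_self _ _
      exact absurd h3 (last_notMem_map _)
    · exact Finset.map_injective _ h

open Classical in
/-- At most a fraction `n / (n + 1)` of the facets contains a given nonempty face. -/
lemma frac_facets (X : Fan n m) {σ : Finset (Fin m)} (hσ : σ.Nonempty) :
    ((facets n X.faces).filter fun τ => σ ⊆ τ).card * (n + 1) ≤ n * (facets n X.faces).card := by
  obtain ⟨x, hx⟩ := hσ
  set T := (facets n X.faces).filter fun τ => σ ⊆ τ with hT
  have hex : ∀ τ : Finset (Fin m), ∃ y : Fin m, τ ∈ T → y ∉ τ ∧ insert y (τ.erase x) ∈ X.faces := by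
    intro τ
    by_cases h : τ ∈ T
    · rw [hT, Finset.mem_filter, mem_facets] at h
      obtain ⟨y, h1, h2, _⟩ := exists_opp X h.1 (h.2 hx)
      exact ⟨y, fun _ => ⟨h1, h2⟩⟩
    · exact ⟨x, fun h' => absurd h' h⟩
  choose y hy using hex
  set f : Finset (Fin m) → Finset (Fin m) := fun τ => insert (y τ) (τ.erase x) with hf
  have himg : T.image f ⊆ (facets n X.faces) \ T := by
    intro τ' hτ'
    obtain ⟨τ, hτ, rfl⟩ := Finset.mem_image.1 hτ'
    obtain ⟨h1, h2⟩ := hy τ hτ
    have h3 := hτ
    rw [hT, Finset.mem_filter, mem_facets] at h3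
    have hxτ : x ∈ τ := h3.2 hx
    have hxy : x ≠ y τ := fun h => h1 (h ▸ hxτ)
    rw [Finset.mem_sdiff, mem_facets]
    refine ⟨⟨h2, ?_⟩, ?_⟩
    · rw [Finset.card_insert_of_notMem (fun h => h1 (Finset.mem_of_mem_erase h)),
        Finset.card_erase_add_one hxτ]
      exact h3.1.2
    · intro h
      rw [hT, Finset.mem_filter] at h
      have h4 := h.2 hx
      rw [Finset.mem_insert] at h4
      rcases h4 with h4 | h4
      · exact hxy h4
      · exact Finset.notMem_erase x τ h4
  have hcard : T.card ≤ n * (T.image f).card := by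
    apply Finset.card_le_mul_card_image
    intro a ha
    have ha2 : a.card = n := by
      have := himg ha
      rw [Finset.mem_sdiff, mem_facets] at this
      exact this.1.2
    have hsub : (T.filter fun τ => f τ = a) ⊆ a.image (fun z => insert x (a.erase z)) := by
      intro τ hτ
      rw [Finset.mem_filter] at hτ
      obtain ⟨h1, h2⟩ := hy τ hτ.1
      have h3 := hτ.1
      rw [hT, Finset.mem_filter, mem_facets] at h3
      have hxτ : x ∈ τ := h3.2 hx
      rw [Finset.mem_image]
      refine ⟨y τ, ?_, ?_⟩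
      · rw [← hτ.2]; exact Finset.mem_insert_self _ _
      · rw [← hτ.2]
        simp only [hf]
        rw [Finset.erase_insert (fun h => h1 (Finset.mem_of_mem_erase h)),
          Finset.insert_erase hxτ]
    calc (T.filter fun τ => f τ = a).card ≤ (a.image (fun z => insert x (a.erase z))).card :=
          Finset.card_le_card hsub
      _ ≤ a.card := Finset.card_image_le
      _ = n := ha2
  have h1 : (T.image f).card ≤ (facets n X.faces).card - T.card := by
    refine (Finset.card_le_card himg).trans ?_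
    rw [Finset.card_sdiff_of_subset (Finset.filter_subset _ _)]
  have h2 : T.card ≤ (facets n X.faces).card := Finset.card_le_card (Finset.filter_subset _ _)
  have h3 : n * (T.image f).card ≤ n * ((facets n X.faces).card - T.card) :=
    Nat.mul_le_mul_left _ h1
  have h4 : n * ((facets n X.faces).card - T.card) + n * T.card = n * (facets n X.faces).card := by
    rw [← Nat.mul_add, Nat.sub_add_cancel h2]
  nlinarith

end Pool.Agent.Helper22.FL
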