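import Pool.Agent.Helper22.BU.Blow

/-!
Stellar subdivision of a fan at an arbitrary cone of dimension at least two: the fan of the blow-up
along the closure of an orbit.
-/

namespace Pool.Agent.Helper22.FL

open Pool.Agent.Helper21.Toric Pool.Agent.Helper22.BU Finset

variable {n m : ℕ}

/-- The complex of the blow-up along the orbit closure of the cone `α` (stellar subdivision of `α`
with the new vertex `Fin.last m`): its faces are the faces of `K` not containing `α`, and the sets
consisting of the new vertex and of a set `ρ` of old vertices with `α ⊄ ρ` and `ρ ∪ α ∈ K`. -/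
def stel {m : ℕ} (K : Set (Finset (Fin m))) (α : Finset (Fin m)) : Set (Finset (Fin (m + 1))) :=
  {σ | old σ ∈ K ∧ ¬ α ⊆ old σ ∧ (Fin.last m ∈ σ → old σ ∪ α ∈ K)}

/-- the support of the pushed coefficients is a face of the old complex -/
lemma push_supp' {K : Set (Finset (Fin m))} {α : Finset (Fin m)}
    {σ : Finset (Fin (m + 1))} (hσ : σ ∈ stel K α) :
    ∃ ρ ∈ K, ∀ c : Fin (m + 1) → ℝ, (∀ i, i ∉ σ → c i = 0) → ∀ i, i ∉ ρ → push α c i = 0 := by
  obtain ⟨h1, h2, h3⟩ := hσ
  by_cases hl : Fin.last m ∈ σ
  · refine ⟨old σ ∪ α, h3 hl, ?_⟩
    intro c hc i hi
    rw [Finset.mem_union, not_or] at hi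
    simp only [push, if_neg hi.2, add_zero]
    apply hc
    intro h
    exact hi.1 (mem_old.2 h)
  · refine ⟨old σ, h1, ?_⟩
    intro c hc i hi
    simp only [push]
    rw [hc _ (fun h => hi (mem_old.2 h)), hc _ hl]
    simp

/-- smoothness for a face containing the new ray -/
lemma smooth_new' (X : Fan n m) {α : Finset (Fin m)}
    {σ : Finset (Fin (m + 1))} (hσ : σ ∈ stel X.faces α) (hl : Fin.last m ∈ σ) :
    ∃ (b : Module.Basis (Fin n) ℤ (Fin n → ℤ)) (f : Fin (m + 1) → Fin n),
      Set.InjOn f σ ∧ ∀ i ∈ σ, b (f i) = bray X.ray α i := by
  obtain ⟨h1, h2, h3⟩ := hσ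
  obtain ⟨i0, hi0, hi0'⟩ := Finset.not_subset.1 h2
  obtain ⟨b, f, hf, hb⟩ := X.smooth _ (h3 hl)
  have hF : i0 ∈ old σ ∪ α := Finset.mem_union_right _ hi0
  -- the transvection
  set w : Fin n → ℤ := ∑ i ∈ α.erase i0, X.ray i with hw
  have hcw : b.coord (f i0) w = 0 := by
    rw [hw, map_sum]
    apply Finset.sum_eq_zero
    intro i hi
    rw [Finset.mem_erase] at hi
    have hiF : i ∈ old σ ∪ α := Finset.mem_union_right _ hi.2
    rw [← hb i hiF, Module.Basis.coord_apply, Module.Basis.repr_self, Finsupp.single_apply, if_neg]
    intro h
    exact hi.1 (hf hiF hF h)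
  let φ : (Fin n → ℤ) ≃ₗ[ℤ] (Fin n → ℤ) :=
    LinearEquiv.ofLinearMap (LinearMap.id + (b.coord (f i0)).smulRight w)
      (LinearMap.id - (b.coord (f i0)).smulRight w)
      (by
        ext1 j
        refine LinearMap.ext fun x => ?_
        simp only [LinearMap.comp_apply, LinearMap.add_apply, LinearMap.sub_apply,
          LinearMap.id_apply, LinearMap.smulRight_apply, map_sub, map_smul, hcw]
        simp)
      (by
        ext1 j
        refine LinearMap.ext fun x => ?_
        simp only [LinearMap.comp_apply, LinearMap.add_apply, LinearMap.sub_apply,
          LinearMap.id_apply, LinearMap.smulRight_apply, map_add, map_smul, hcw]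
        simp)
  have hφ : ∀ x, φ x = x + b.coord (f i0) x • w := fun x => by simp [φ]
  have hmem : ∀ {i : Fin m}, i.castSucc ∈ σ → i ∈ old σ ∪ α := fun {i} hi =>
    Finset.mem_union_left _ (mem_old.2 hi)
  refine ⟨b.map φ, Fin.snoc (α := fun _ => Fin n) f (f i0), ?_, ?_⟩
  · intro i hi j hj hij
    induction i using Fin.lastCases with
    | last =>
      induction j using Fin.lastCases with
      | last => rfl
      | cast j =>
        simp only [Fin.snoc_last, Fin.snoc_castSucc] at hij
        have := hf hF (hmem hj) hij
        subst this
        exact absurd (mem_old.2 hj) hi0'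
    | cast i =>
      induction j using Fin.lastCases with
      | last =>
        simp only [Fin.snoc_last, Fin.snoc_castSucc] at hij
        have := hf (hmem hi) hF hij
        subst this
        exact absurd (mem_old.2 hi) hi0'
      | cast j =>
        simp only [Fin.snoc_castSucc] at hij
        rw [hf (hmem hi) (hmem hj) hij]
  · intro i hi
    induction i using Fin.lastCases with
    | last =>
      rw [Fin.snoc_last, Module.Basis.map_apply, hφ, bray_last, Module.Basis.coord_apply,
        Module.Basis.repr_self, Finsupp.single_eq_same, one_smul, hb i0 hF, hw,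
        Finset.add_sum_erase _ _ hi0]
    | cast i =>
      rw [Fin.snoc_castSucc, Module.Basis.map_apply, hφ, bray_cast, Module.Basis.coord_apply,
        Module.Basis.repr_self, Finsupp.single_apply, if_neg, zero_smul, add_zero, hb i (hmem hi)]
      intro h
      have := hf (hmem hi) hF h
      subst this
      exact hi0' (mem_old.2 hi)

lemma not_sub_of_card {α ρ : Finset (Fin m)} (h : ρ.card < α.card) : ¬ α ⊆ ρ := by
  intro h'
  exact absurd (Finset.card_le_card h') (not_le.2 h)

/-- The fan of the blow-up of the toric manifold of `X` along the orbit closure of `α`. -/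
def Stel (X : Fan n m) (α : Finset (Fin m)) (hα : α ∈ X.faces) (h2 : 2 ≤ α.card) :
    Fan n (m + 1) :=
  mkFan (bray X.ray α) (stel X.faces α)
    (by
      rintro σ ⟨h1, h2, h3⟩ ρ hρ
      have hsub : old ρ ⊆ old σ := by
        intro i hi
        exact mem_old.2 (hρ (mem_old.1 hi))
      exact ⟨X.down_closed _ h1 _ hsub, fun h => h2 (h.trans hsub),
        fun h => X.down_closed _ (h3 (hρ h)) _ (Finset.union_subset_union_left hsub)⟩)
    (by
      intro i
      induction i using Fin.lastCases with
      | last =>
        have h0 : old ({Fin.last m} : Finset (Fin (m + 1))) = ∅ := by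
          ext i; simp [mem_old]
        refine ⟨?_, ?_, ?_⟩
        · rw [h0]; exact X.empty_mem
        · rw [h0]
          exact not_sub_of_card (by rw [Finset.card_empty]; omega)
        · intro _
          rw [h0, Finset.empty_union]
          exact hα
      | cast i =>
        have h0 : old ({i.castSucc} : Finset (Fin (m + 1))) = {i} := by
          ext j; simp [mem_old]
        refine ⟨?_, ?_, ?_⟩
        · rw [h0]; exact X.vertex_mem i
        · rw [h0]
          exact not_sub_of_card (by rw [Finset.card_singleton]; omega)
        · intro h
          rw [Finset.mem_singleton] at h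
          exact absurd h.symm (Fin.castSucc_lt_last i).ne)
    (by
      have h0 : old (∅ : Finset (Fin (m + 1))) = ∅ := by
        ext i; simp [mem_old]
      refine ⟨?_, ?_, ?_⟩
      · rw [h0]; exact X.empty_mem
      · rw [h0]
        exact not_sub_of_card (by rw [Finset.card_empty]; omega)
      · intro h; simp at h)
    (by
      intro σ hσ
      by_cases hl : Fin.last m ∈ σ
      · exact smooth_new' X hσ hl
      · obtain ⟨b, f, hf, hb⟩ := X.smooth (old σ) hσ.1
        have hn : 0 < n := by
          have := card_le hα
          omega
        refine ⟨b, Fin.snoc (α := fun _ => Fin n) f ⟨0, hn⟩, ?_, ?_⟩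
        · intro i hi j hj hij
          induction i using Fin.lastCases with
          | last => exact absurd hi hl
          | cast i =>
            induction j using Fin.lastCases with
            | last => exact absurd hj hl
            | cast j =>
              simp only [Fin.snoc_castSucc] at hij
              rw [hf (mem_old.2 hi) (mem_old.2 hj) hij]
        · intro i hi
          induction i using Fin.lastCases with
          | last => exact absurd hi hl
          | cast i =>
            rw [Fin.snoc_castSucc, bray_cast, hb i (mem_old.2 hi)])
    (by
      intro σ hσ ρ hρ c d hc hcσ hd hdρ h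
      rw [vec_push, vec_push] at h
      obtain ⟨σ0, hσ0, hs⟩ := push_supp' hσ
      obtain ⟨ρ0, hρ0, hr⟩ := push_supp' hρ
      have hp : push α c = push α d :=
        uniq hσ0 hρ0 (push_nonneg hc) (hs c hcσ) (push_nonneg hd) (hr d hdρ) h
      obtain ⟨i, hi, hi'⟩ := Finset.not_subset.1 hσ.2.1
      obtain ⟨j, hj, hj'⟩ := Finset.not_subset.1 hρ.2.1
      have h1 := congrFun hp i
      have h2 := congrFun hp j
      simp only [push, if_pos hi, if_pos hj] at h1 h2
      rw [hcσ _ (fun h => hi' (mem_old.2 h))] at h1
      rw [hdρ _ (fun h => hj' (mem_old.2 h))] at h2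
      have h3 := hd i.castSucc
      have h4 := hc j.castSucc
      have hl : c (Fin.last m) = d (Fin.last m) := by linarith
      ext k
      induction k using Fin.lastCases with
      | last => exact hl
      | cast k =>
        have h5 := congrFun hp k
        simp only [push, hl] at h5
        linarith)
    (by
      intro v
      obtain ⟨ρ, hρ, hv⟩ := X.complete v
      rw [mem_realCone] at hv
      obtain ⟨c, hc, hcρ, hv⟩ := hv
      by_cases hs : α ⊆ ρ
      · have hne : α.Nonempty := by
          rw [← Finset.card_pos]; omega
        obtain ⟨i0, hi0, hmin⟩ := Finset.exists_min_image α c hne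
        refine ⟨insert (Fin.last m) ((ρ.erase i0).map Fin.castSuccEmb), ?_,
          Fin.snoc (α := fun _ => ℝ) (fun i => if i ∈ α then c i - c i0 else c i) (c i0), ?_, ?_, ?_⟩
        · refine ⟨?_, ?_, ?_⟩
          · rw [old_insert]
            exact X.down_closed _ hρ _ (Finset.erase_subset _ _)
          · rw [old_insert]
            intro h
            exact Finset.notMem_erase i0 ρ (h hi0)
          · intro _
            rw [old_insert]
            refine X.down_closed _ hρ _ (Finset.union_subset (Finset.erase_subset _ _) hs)
        · intro i
          induction i using Fin.lastCases with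
          | last => rw [Fin.snoc_last]; exact hc _
          | cast i =>
            rw [Fin.snoc_castSucc]
            split_ifs with h
            · have := hmin i h
              linarith
            · exact hc i
        · intro i hi
          induction i using Fin.lastCases with
          | last => simp at hi
          | cast i =>
            rw [Fin.snoc_castSucc]
            have hi2 : i ∉ ρ.erase i0 := by
              intro h
              apply hi
              simp only [Finset.mem_insert, Finset.mem_map]
              exact Or.inr ⟨i, h, rfl⟩
            split_ifs with h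
            · have : i = i0 := by
                by_contra hne
                exact hi2 (Finset.mem_erase.2 ⟨hne, hs h⟩)
              rw [this, sub_self]
            · apply hcρ
              intro hiρ
              exact hi2 (Finset.mem_erase.2 ⟨fun h' => h (h' ▸ hi0), hiρ⟩)
        · rw [vec_push, hv]
          congr 1
          ext i
          simp only [push, Fin.snoc_castSucc, Fin.snoc_last]
          split_ifs with h
          · ring
          · ring
      · refine ⟨ρ.map Fin.castSuccEmb, ?_, Fin.snoc (α := fun _ => ℝ) c 0, ?_, ?_, ?_⟩
        · refine ⟨?_, ?_, ?_⟩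
          · rw [old_map]; exact hρ
          · rw [old_map]; exact hs
          · intro h; exact absurd h (last_notMem_map ρ)
        · intro i
          induction i using Fin.lastCases with
          | last => rw [Fin.snoc_last]
          | cast i => rw [Fin.snoc_castSucc]; exact hc _
        · intro i hi
          induction i using Fin.lastCases with
          | last => rw [Fin.snoc_last]
          | cast i =>
            rw [Fin.snoc_castSucc]
            apply hcρ
            intro h
            apply hi
            simp [h]
        · rw [vec_push, hv]
          congr 1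
          ext i
          simp [push])

lemma Stel_faces (X : Fan n m) (α : Finset (Fin m)) (hα : α ∈ X.faces) (h2 : 2 ≤ α.card) :
    (Stel X α hα h2).faces = stel X.faces α := rfl

lemma Stel_ray (X : Fan n m) (α : Finset (Fin m)) (hα : α ∈ X.faces) (h2 : 2 ≤ α.card) :
    (Stel X α hα h2).ray = bray X.ray α := rfl

end Pool.Agent.Helper22.FL
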