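import Pool.Agent.Helper22.FL.Graph
import Pool.Agent.Helper22.FL.ProdRing

/-!
Twin orbit closures in products and in blow-ups.
-/

namespace Pool.Agent.Helper22.FL

open Pool.Agent.Helper21.Toric Pool.Agent.Helper22.BU Finset

variable {n m n' m' : ℕ}

section
variable {A : Type*} [CommRing A]

lemma prod_add_dvd {ι : Type*} [DecidableEq ι] (x : ι → A) (e : A) (S : Finset ι) :
    ∃ t, ∏ i ∈ S, (x i + e) = ∏ i ∈ S, x i + e * t := by
  induction S using Finset.induction_on with
  | empty => exact ⟨0, by simp⟩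
  | insert a s ha ih =>
    obtain ⟨t, ht⟩ := ih
    rw [Finset.prod_insert ha, Finset.prod_insert ha, ht]
    exact ⟨x a * t + ∏ i ∈ s, x i + e * t, by ring⟩

end

section
variable (X : Fan n m) {β : Finset (Fin m)} (hβ : β ∈ X.faces) (h2 : 2 ≤ β.card)

/-- pull-back of the Stanley-Reisner relations, general centre -/
lemma pxs_nonface_gen {σ : Finset (Fin m)} (h : σ ∉ X.faces) :
    ∏ i ∈ σ, pxs X hβ h2 i = 0 := by
  have h1 : σ.map Fin.castSuccEmb ∉ stel X.faces β := by
    rintro ⟨h1, _, _⟩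
    rw [old_map] at h1
    exact h h1
  have h3 := cls_nonface X hβ h2 h1
  rw [cls_map, ← Finset.prod_sdiff (Finset.inter_subset_left : σ ∩ β ⊆ σ),
    Finset.sdiff_inter_self_left] at h3
  have h4 : insert (Fin.last m) ((σ \ β).map Fin.castSuccEmb) ∉ stel X.faces β := by
    rintro ⟨_, _, h5⟩
    have h6 := h5 (Finset.mem_insert_self _ _)
    rw [old_insert, Finset.sdiff_union_self_eq_union] at h6
    exact h (X.down_closed _ h6 _ Finset.subset_union_left)
  have h5 := cls_nonface X hβ h2 h4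
  rw [Finset.prod_insert (last_notMem_map _), cls_map] at h5
  rw [← Finset.prod_sdiff (Finset.inter_subset_left : σ ∩ β ⊆ σ), Finset.sdiff_inter_self_left]
  have e1 : ∏ i ∈ σ \ β, pxs X hβ h2 i = ∏ i ∈ σ \ β, cls X hβ h2 i.castSucc := by
    apply Finset.prod_congr rfl
    intro i hi
    rw [pxs, if_neg (Finset.mem_sdiff.1 hi).2, add_zero]
  have e2 : ∏ i ∈ σ ∩ β, pxs X hβ h2 i =
      ∏ i ∈ σ ∩ β, (cls X hβ h2 i.castSucc + cls X hβ h2 (Fin.last m)) := by
    apply Finset.prod_congr rfl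
    intro i hi
    rw [pxs, if_pos (Finset.mem_inter.1 hi).2]
  obtain ⟨t, ht⟩ := prod_add_dvd (fun i : Fin m => cls X hβ h2 i.castSucc)
    (cls X hβ h2 (Fin.last m)) (σ ∩ β)
  rw [e1, e2, ht, mul_add, h3, zero_add, mul_left_comm, ← mul_assoc, h5, zero_mul]

lemma pulls_rel_gen (q : MvPolynomial (Fin m) ℤ) (hq : q ∈ relIdeal X) :
    pulls X hβ h2 q = 0 := by
  have h : relIdeal X ≤ RingHom.ker (pulls X hβ h2) := by
    refine sup_le ?_ ?_
    · rw [Ideal.span_le]
      rintro q ⟨σ, hσ, rfl⟩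
      rw [SetLike.mem_coe, RingHom.mem_ker, map_prod]
      have := pxs_nonface_gen X hβ h2 hσ
      simpa [pulls] using this
    · rw [Ideal.span_le]
      rintro q ⟨j, rfl⟩
      rw [SetLike.mem_coe, RingHom.mem_ker, map_sum]
      have h1 := cls_linear X hβ h2 (Pi.single j 1)
      have h2 : ∀ i, ipz (Pi.single j 1) (X.ray i) = X.ray i j := by
        intro i
        simp [ipz, Pi.single_apply]
      simp_rw [h2] at h1
      refine Eq.trans (Finset.sum_congr rfl fun i _ => ?_) h1
      rw [map_mul]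
      congr 1
      · exact (MvPolynomial.eval₂Hom_C _ _ _).trans (eq_intCast _ _)
      · exact MvPolynomial.eval₂Hom_X' _ _ _
  exact h hq

lemma pulls_mon_gen {σ σ' : Finset (Fin m)} (h : mon X σ = mon X σ') :
    ∏ i ∈ σ, pxs X hβ h2 i = ∏ i ∈ σ', pxs X hβ h2 i := by
  rw [mon, mon, Ideal.Quotient.eq] at h
  have h1 := pulls_rel_gen X hβ h2 _ h
  rw [map_sub, map_prod, map_prod, sub_eq_zero] at h1
  simpa [pulls] using h1

lemma mon_map_stel {σ : Finset (Fin m)} (h : Disjoint σ β) :
    mon (Stel X β hβ h2) (σ.map Fin.castSuccEmb) = ∏ i ∈ σ, pxs X hβ h2 i := by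
  rw [mon, map_prod, Finset.prod_map]
  apply Finset.prod_congr rfl
  intro i hi
  rw [pxs, if_neg (Finset.disjoint_left.1 h hi), add_zero]
  rfl

end

lemma old_union (σ τ : Finset (Fin (m + 1))) : old (σ ∪ τ) = old σ ∪ old τ := by
  ext i; simp [mem_old]

lemma disj_old {σ : Finset (Fin (m + 1))} {α : Finset (Fin m)}
    (h : Disjoint σ (α.map Fin.castSuccEmb)) : Disjoint (old σ) α := by
  rw [Finset.disjoint_left] at h ⊢
  intro i hi hiα
  exact h (mem_old.1 hi) (Finset.mem_map_of_mem _ hiα)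

/-- half of the transfer of the link condition -/
lemma link_iff (X : Fan n m) {α γ : Finset (Fin m)} (h : γ ∪ α ∉ X.faces)
    (ρ : Finset (Fin (m + 1))) : ρ ∪ α.map Fin.castSuccEmb ∈ stel X.faces γ ↔
      Fin.last m ∉ ρ ∧ old ρ ∪ α ∈ X.faces := by
  constructor
  · rintro ⟨h1, h2, h3⟩
    rw [old_union, old_map] at h1
    refine ⟨?_, h1⟩
    intro hl
    have h4 := h3 (Finset.mem_union_left _ hl)
    rw [old_union, old_map] at h4
    apply h
    apply X.down_closed _ h4
    intro i hi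
    rw [Finset.mem_union] at hi
    rcases hi with hi | hi
    · exact Finset.mem_union_right _ hi
    · exact Finset.mem_union_left _ (Finset.mem_union_right _ hi)
  · rintro ⟨h1, h2⟩
    refine ⟨?_, ?_, ?_⟩
    · rw [old_union, old_map]; exact h2
    · rw [old_union, old_map]
      intro hs
      apply h
      exact X.down_closed _ h2 _ (Finset.union_subset hs Finset.subset_union_right)
    · intro hl
      rw [Finset.mem_union] at hl
      rcases hl with hl | hl
      · exact absurd hl h1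
      · exact absurd hl (last_notMem_map _)

lemma triv_stel (X : Fan n m) {α γ : Finset (Fin m)} (hγ : γ ∈ X.faces) (h2 : 2 ≤ γ.card)
    (h : γ ∪ α ∉ X.faces) (ht : Triv X α) :
    Triv (Stel X γ hγ h2) (α.map Fin.castSuccEmb) := by
  intro i hi
  obtain ⟨i, hi0, rfl⟩ := Finset.mem_map.1 hi
  obtain ⟨u, hu, hu'⟩ := ht i hi0
  refine ⟨u, ?_, ?_⟩
  · change ipz u (bray X.ray γ i.castSucc) = 1
    rw [bray_cast]
    exact hu
  · intro j hj hjf
    have h3 : ({j} : Finset (Fin (m + 1))) ∪ α.map Fin.castSuccEmb ∈ stel X.faces γ := hjf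
    rw [link_iff X h] at h3
    induction j using Fin.lastCases with
    | last => exact absurd (Finset.mem_singleton_self _) h3.1
    | cast j =>
      rw [Stel_ray, bray_cast]
      apply hu' j
      · intro h'
        apply hj
        rw [h']
        rfl
      · have h4 : old ({j.castSucc} : Finset (Fin (m + 1))) = {j} := by
          ext k; simp [mem_old]
        have h5 := h3.2
        rw [h4] at h5
        exact h5

/-- Twins stay twins when a centre away from their stars is blown up. -/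
theorem twin_stel {X : Fan n m} {α β γ : Finset (Fin m)} (h : Twin X α β) (hγ : γ ∈ X.faces)
    (h2 : 2 ≤ γ.card) (ha : γ ∪ α ∉ X.faces) (hb : γ ∪ β ∉ X.faces) (da : Disjoint α γ)
    (db : Disjoint β γ) :
    Twin (Stel X γ hγ h2) (α.map Fin.castSuccEmb) (β.map Fin.castSuccEmb) := by
  have hface : ∀ {δ : Finset (Fin m)}, δ ∈ X.faces → γ ∪ δ ∉ X.faces →
      δ.map Fin.castSuccEmb ∈ stel X.faces γ := by
    intro δ hδ hγδ
    have := (link_iff X hγδ ∅).2 ⟨by simp, by
      have : old (∅ : Finset (Fin (m + 1))) = ∅ := by ext; simp [mem_old]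
      rw [this, Finset.empty_union]; exact hδ⟩
    rwa [Finset.empty_union] at this
  have hout : ∀ {δ ε : Finset (Fin m)}, (∀ i ∈ ε, i ∉ δ ∧ insert i δ ∉ X.faces) →
      ∀ i ∈ ε.map Fin.castSuccEmb, i ∉ δ.map Fin.castSuccEmb ∧
        insert i (δ.map Fin.castSuccEmb) ∉ stel X.faces γ := by
    intro δ ε hh i hi
    obtain ⟨i, hi0, rfl⟩ := Finset.mem_map.1 hi
    refine ⟨?_, ?_⟩
    · rw [Finset.mem_map']
      exact (hh i hi0).1
    · rintro ⟨h3, _, _⟩
      apply (hh i hi0).2
      have : old (insert (Fin.castSuccEmb i) (δ.map Fin.castSuccEmb)) = insert i δ := by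
        ext k; simp [mem_old]
      rwa [this] at h3
  exact {
    ha := hface h.ha ha
    hb := hface h.hb hb
    ca := by rw [Finset.card_map]; exact h.ca
    cb := by rw [Finset.card_map]; exact h.cb
    card := by rw [Finset.card_map, Finset.card_map]; exact h.card
    out1 := hout h.out1
    out2 := hout h.out2
    link := by
      intro ρ h3 h4
      rw [Stel_faces, link_iff X ha, link_iff X hb, h.link _ (disj_old h3) (disj_old h4)]
    triv1 := triv_stel X hγ h2 ha h.triv1
    triv2 := triv_stel X hγ h2 hb h.triv2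
    cls := by
      rw [mon_map_stel X hγ h2 da, mon_map_stel X hγ h2 db]
      exact pulls_mon_gen X hγ h2 h.cls }

section
variable (P : Fan n m) (S : Fan n' m')

lemma lft_map_nat (τ : Finset (Fin m')) : lft (τ.map (Fin.natAddEmb m)) = ∅ := by
  ext k
  simp only [mem_lft, Finset.mem_map, Finset.notMem_empty, iff_false]
  rintro ⟨j, _, hj⟩
  exact castAdd_ne_natAdd k j hj.symm

lemma rgt_map_nat (τ : Finset (Fin m')) : rgt (τ.map (Fin.natAddEmb m)) = τ := by
  ext k
  simp [mem_rgt]

lemma lft_union (σ τ : Finset (Fin (m + m'))) : lft (σ ∪ τ) = lft σ ∪ lft τ := by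
  ext i; simp [mem_lft]

lemma rgt_union (σ τ : Finset (Fin (m + m'))) : rgt (σ ∪ τ) = rgt σ ∪ rgt τ := by
  ext i; simp [mem_rgt]

lemma facet_max {S : Fan n' m'} {τ ρ : Finset (Fin m')} (hτ : IsFacet n' S.faces τ)
    (h : ρ ∪ τ ∈ S.faces) : ρ ⊆ τ := by
  have h1 : τ = ρ ∪ τ := Finset.eq_of_subset_of_card_le Finset.subset_union_right (by
    rw [hτ.2]; exact card_le h)
  rw [h1]
  exact Finset.subset_union_left

lemma face_iff {τ : Finset (Fin m')} (hτ : IsFacet n' S.faces τ) {ρ : Finset (Fin (m + m'))}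
    (hd : Disjoint ρ (τ.map (Fin.natAddEmb m))) :
    ρ ∪ τ.map (Fin.natAddEmb m) ∈ (Prod P S).faces ↔ lft ρ ∈ P.faces ∧ rgt ρ = ∅ := by
  rw [Prod_faces]
  constructor
  · rintro ⟨h1, h2⟩
    rw [lft_union, lft_map_nat, Finset.union_empty] at h1
    rw [rgt_union, rgt_map_nat] at h2
    refine ⟨h1, ?_⟩
    have h3 := facet_max hτ h2
    rw [Finset.eq_empty_iff_forall_notMem]
    intro j hj
    exact (Finset.disjoint_left.1 hd (mem_rgt.1 hj)) (Finset.mem_map_of_mem _ (h3 hj))
  · rintro ⟨h1, h2⟩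
    refine ⟨?_, ?_⟩
    · rw [lft_union, lft_map_nat, Finset.union_empty]; exact h1
    · rw [rgt_union, rgt_map_nat, h2, Finset.empty_union]; exact hτ.1

lemma ipz_append_left (v : Fin n' → ℤ) (w : Fin n → ℤ) :
    ipz (Fin.append (0 : Fin n → ℤ) v) (Fin.append w 0) = 0 := by
  unfold ipz
  rw [Fin.sum_univ_add]
  simp

lemma ipz_append_right (v w : Fin n' → ℤ) :
    ipz (Fin.append (0 : Fin n → ℤ) v) (Fin.append 0 w) = ipz v w := by
  unfold ipz
  rw [Fin.sum_univ_add]
  simp

lemma triv_prod {τ : Finset (Fin m')} (hτ : IsFacet n' S.faces τ) :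
    Triv (Prod P S) (τ.map (Fin.natAddEmb m)) := by
  intro i hi
  obtain ⟨i, hi0, rfl⟩ := Finset.mem_map.1 hi
  obtain ⟨v, hv⟩ := exists_dual hτ.1 hi0
  refine ⟨Fin.append 0 v, ?_, ?_⟩
  · change ipz (Fin.append 0 v) (pry P.ray S.ray (Fin.natAdd m i)) = 1
    rw [pry_right, ipz_append_right, hv i hi0, if_pos rfl]
  · intro j hj hjf
    rw [Prod_ray]
    induction j using Fin.addCases with
    | left j => rw [pry_left, ipz_append_left]
    | right j =>
      rw [pry_right, ipz_append_right]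
      have hjτ : j ∈ τ := by
        obtain ⟨_, h2⟩ := hjf
        have h3 : rgt (insert (Fin.natAdd m j) (τ.map (Fin.natAddEmb m))) = {j} ∪ τ := by
          ext k; simp [mem_rgt]
        rw [h3] at h2
        exact facet_max hτ h2 (Finset.mem_singleton_self j)
      rw [hv j hjτ, if_neg]
      intro h
      apply hj
      rw [h]
      rfl

lemma mon_map_prod (τ : Finset (Fin m')) :
    mon (Prod P S) (τ.map (Fin.natAddEmb m)) = inR P S (mon S τ) := by
  rw [mon, mon, inR_mk, Finset.prod_map]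
  congr 1
  rw [map_prod]
  apply Finset.prod_congr rfl
  intro i _
  exact (MvPolynomial.rename_X _ _).symm

/-- The fibres over two fixed points in a product are twins. -/
theorem twin_prod (hn : 2 ≤ n') {τ τ' : Finset (Fin m')} (hτ : IsFacet n' S.faces τ)
    (hτ' : IsFacet n' S.faces τ') (hd : Disjoint τ τ') :
    Twin (Prod P S) (τ.map (Fin.natAddEmb m)) (τ'.map (Fin.natAddEmb m)) := by
  have hface : ∀ {δ : Finset (Fin m')}, IsFacet n' S.faces δ →
      δ.map (Fin.natAddEmb m) ∈ (Prod P S).faces := by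
    intro δ hδ
    refine ⟨?_, ?_⟩
    · rw [lft_map_nat]; exact P.empty_mem
    · rw [rgt_map_nat]; exact hδ.1
  have hout : ∀ {δ ε : Finset (Fin m')}, IsFacet n' S.faces δ → Disjoint δ ε →
      ∀ i ∈ ε.map (Fin.natAddEmb m), i ∉ δ.map (Fin.natAddEmb m) ∧
        insert i (δ.map (Fin.natAddEmb m)) ∉ (Prod P S).faces := by
    intro δ ε hδ hdis i hi
    obtain ⟨i, hi0, rfl⟩ := Finset.mem_map.1 hi
    have hiδ : i ∉ δ := fun h => Finset.disjoint_left.1 hdis h hi0
    refine ⟨?_, ?_⟩
    · rw [Finset.mem_map']; exact hiδ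
    · rintro ⟨_, h2⟩
      have h3 : rgt (insert ((Fin.natAddEmb m) i) (δ.map (Fin.natAddEmb m))) = {i} ∪ δ := by
        ext k; simp [mem_rgt]
      rw [h3] at h2
      exact hiδ (facet_max hδ h2 (Finset.mem_singleton_self i))
  exact {
    ha := hface hτ
    hb := hface hτ'
    ca := by rw [Finset.card_map, hτ.2]; exact hn
    cb := by rw [Finset.card_map, hτ'.2]; exact hn
    card := by rw [Finset.card_map, Finset.card_map, hτ.2, hτ'.2]
    out1 := hout hτ hd
    out2 := hout hτ' hd.symm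
    link := by
      intro ρ h1 h2
      rw [face_iff P S hτ h1, face_iff P S hτ' h2]
    triv1 := triv_prod P S hτ
    triv2 := triv_prod P S hτ'
    cls := by rw [mon_map_prod, mon_map_prod, mon_eq S hτ hτ'] }

end

end Pool.Agent.Helper22.FL
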